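import Mathlib
import Pool.Agent.W66.XA

set_option autoImplicit false

/-!
# Modulus of continuity in mean along a line
-/

namespace Pool.Agent.Helper46K9.CL

open MeasureTheory Filter Topology
open Pool.Agent.H305R2 (ff NN LL gg measurable_ff measurable_gg ff_nonneg ff_le_one LL_cont LL_nonneg
  LL_le_one abs_gg_le_one measurable_NN)
open Pool.Agent.W66 (mono_var NN_mono NN_le ff_diff LL_lip ii_of_bdd far_abs)

/-- The mean over unit windows of the change of `φ` under shifts of size at most `h` is at most `m h`. -/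
def Md (φ : ℝ → ℝ) (m : ℝ) : Prop :=
  ∀ Y v h : ℝ, 0 ≤ h → |v| ≤ h → ∫ u in Y..(Y + 1), |φ (u + v) - φ u| ≤ m * h

lemma Md.mono {φ : ℝ → ℝ} {m m' : ℝ} (h : Md φ m) (hm : m ≤ m') : Md φ m' :=
  fun Y v r hr hv => (h Y v r hr hv).trans (mul_le_mul_of_nonneg_right hm hr)

lemma Md.of_monotone {Ψ : ℝ → ℝ} (hΨ : Monotone Ψ) {B : ℝ} (h0 : ∀ x, 0 ≤ Ψ x) (hB : ∀ x, Ψ x ≤ B) :
    Md Ψ B := fun Y v h hh hv => by
  rw [mul_comm]
  exact (mono_var hΨ h0 Y v h hh hv).trans (mul_le_mul_of_nonneg_left (hB _) hh)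

lemma Md.of_antitone {Ψ : ℝ → ℝ} (hΨ : Antitone Ψ) {B : ℝ} (h0 : ∀ x, 0 ≤ Ψ x) (hB : ∀ x, Ψ x ≤ B) :
    Md Ψ B := fun Y v h hh hv => by
  have h1 : Monotone fun x => B - Ψ x := fun a b hab => by
    have := hΨ hab
    simp only
    linarith
  have h2 := Md.of_monotone h1 (B := B) (fun x => by linarith [hB x]) (fun x => by linarith [h0 x])
    Y v h hh hv
  refine le_trans (le_of_eq ?_) h2
  congr 1
  ext u
  rw [show B - Ψ (u + v) - (B - Ψ u) = -(Ψ (u + v) - Ψ u) by ring, abs_neg]

lemma Md.of_lip {φ : ℝ → ℝ} {L : ℝ} (hφ : ∀ a b, |φ a - φ b| ≤ L * |a - b|) : Md φ L :=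
  fun Y v h hh hv => by
  have hL : 0 ≤ L := by
    have h1 := hφ 1 0
    simp only [sub_zero, abs_one, mul_one] at h1
    exact (abs_nonneg _).trans h1
  have h1 := intervalIntegral.norm_integral_le_of_norm_le_const (a := Y) (b := Y + 1)
    (f := fun u => |φ (u + v) - φ u|) (C := L * h) (fun u _ => by
      rw [Real.norm_eq_abs, abs_abs]
      refine (hφ _ _).trans (mul_le_mul_of_nonneg_left ?_ hL)
      rw [add_sub_cancel_left]
      exact hv)
  rw [Real.norm_eq_abs, add_sub_cancel_left, abs_one, mul_one] at h1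
  exact (le_abs_self _).trans h1

/-- comparison with a finite family -/
lemma Md.of_sum {ι : Type} (s : Finset ι) {φ : ℝ → ℝ} {ψ : ι → ℝ → ℝ} {c m : ι → ℝ}
    (hφ : Measurable φ) {Bφ : ℝ} (hφB : ∀ x, |φ x| ≤ Bφ)
    (hψ : ∀ i ∈ s, Measurable (ψ i)) {B : ι → ℝ} (hψB : ∀ i ∈ s, ∀ x, |ψ i x| ≤ B i)
    (hc : ∀ i ∈ s, 0 ≤ c i) (hm : ∀ i ∈ s, Md (ψ i) (m i))
    (h : ∀ a b, |φ a - φ b| ≤ ∑ i ∈ s, c i * |ψ i a - ψ i b|) :
    Md φ (∑ i ∈ s, c i * m i) := fun Y v r hr hv => by
  have i1 : IntervalIntegrable (fun u => |φ (u + v) - φ u|) volume Y (Y + 1) := by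
    refine (ii_of_bdd (f := fun u => φ (u + v) - φ u)
      ((hφ.comp (measurable_add_const v)).sub hφ) (M := Bφ + Bφ) (fun x => ?_) _ _).abs
    exact (abs_sub _ _).trans (add_le_add (hφB _) (hφB _))
  have i2 : ∀ i ∈ s, IntervalIntegrable (fun u => |ψ i (u + v) - ψ i u|) volume Y (Y + 1) :=
    fun i hi => by
    refine (ii_of_bdd (f := fun u => ψ i (u + v) - ψ i u)
      (((hψ i hi).comp (measurable_add_const v)).sub (hψ i hi)) (M := B i + B i) (fun x => ?_) _ _).abs
    exact (abs_sub _ _).trans (add_le_add (hψB i hi _) (hψB i hi _))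
  calc ∫ u in Y..(Y + 1), |φ (u + v) - φ u| ≤
      ∫ u in Y..(Y + 1), ∑ i ∈ s, c i * |ψ i (u + v) - ψ i u| := by
        refine intervalIntegral.integral_mono_on (by linarith) i1 ?_ (fun u _ => h _ _)
        have h3 := IntervalIntegrable.sum s (f := fun i u => c i * |ψ i (u + v) - ψ i u|)
          fun i hi => (i2 i hi).const_mul (c i)
        have e : (∑ i ∈ s, fun u => c i * |ψ i (u + v) - ψ i u|) =
            fun u => ∑ i ∈ s, c i * |ψ i (u + v) - ψ i u| := by
          ext u
          rw [Finset.sum_apply]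
        rwa [e] at h3
    _ = ∑ i ∈ s, c i * ∫ u in Y..(Y + 1), |ψ i (u + v) - ψ i u| := by
        rw [intervalIntegral.integral_finsetSum fun i hi => (i2 i hi).const_mul _]
        refine Finset.sum_congr rfl fun i _ => ?_
        rw [intervalIntegral.integral_const_mul]
    _ ≤ ∑ i ∈ s, c i * (m i * r) :=
        Finset.sum_le_sum fun i hi => mul_le_mul_of_nonneg_left (hm i hi Y v r hr hv) (hc i hi)
    _ = (∑ i ∈ s, c i * m i) * r := by
        rw [Finset.sum_mul]
        exact Finset.sum_congr rfl fun i _ => by ring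

/-- the projection to the interval from `α` to `β` -/
noncomputable def cl (α β v : ℝ) : ℝ := max α (min v β)

lemma cl_mono (α β : ℝ) : Monotone (cl α β) := fun _ _ h => max_le_max le_rfl (min_le_min h le_rfl)

lemma cl_mem {α β : ℝ} (h : α ≤ β) (v : ℝ) : cl α β v ∈ Set.Icc α β :=
  ⟨le_max_left _ _, max_le h (min_le_right _ _)⟩

lemma cl_eq {α β v : ℝ} (h : v ∈ Set.Icc α β) : cl α β v = v := by
  unfold cl
  rw [min_eq_left h.2, max_eq_right h.1]

lemma cl_lip (α β a b : ℝ) : |cl α β a - cl α β b| ≤ |a - b| := by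
  have h1 := le_abs_self (a - b)
  have h2 := neg_abs_le (a - b)
  have h3 := abs_nonneg (a - b)
  unfold cl
  rw [abs_le]
  constructor <;>
  · simp only [max_def, min_def]
    split_ifs <;> linarith

lemma measurable_cl (α β : ℝ) : Measurable (cl α β) := (cl_mono α β).measurable

/-- the centred indicator of a level along a line -/
lemma Md_level (p : ℕ) {α β : ℝ} (hαβ : α ≤ β) (c b W : ℝ)
    (hW : ∀ v ∈ Set.Icc α β, c + b * v ≤ W) :
    Md (fun v => gg p (c + b * cl α β v)) (Real.exp W + 2 * |b|) := by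
  have hm1 : Measurable fun v => c + b * cl α β v := ((measurable_cl α β).const_mul b).const_add c
  have hNB : ∀ v, ((NN (c + b * cl α β v) : ℕ) : ℝ) ≤ Real.exp W := fun v =>
    (NN_le _).trans (Real.exp_le_exp.2 (hW _ (cl_mem hαβ v)))
  have hN : Md (fun v => (NN (c + b * cl α β v) : ℝ)) (Real.exp W) := by
    rcases le_total 0 b with hb | hb
    · refine Md.of_monotone ?_ (fun x => Nat.cast_nonneg _) hNB
      intro x y hxy
      simp only
      exact_mod_cast NN_mono (by
        have := mul_le_mul_of_nonneg_left (cl_mono α β hxy) hb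
        linarith)
    · refine Md.of_antitone ?_ (fun x => Nat.cast_nonneg _) hNB
      intro x y hxy
      simp only
      exact_mod_cast NN_mono (by
        have := mul_le_mul_of_nonpos_left (cl_mono α β hxy) hb
        linarith)
  have hL : Md (fun v => LL p (c + b * cl α β v)) (2 * |b|) := Md.of_lip fun x y => by
    refine (LL_lip p _ _).trans ?_
    rw [mul_assoc]
    refine mul_le_mul_of_nonneg_left ?_ (by norm_num)
    rw [show c + b * cl α β x - (c + b * cl α β y) = b * (cl α β x - cl α β y) by ring, abs_mul]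
    exact mul_le_mul_of_nonneg_left (cl_lip α β x y) (abs_nonneg _)
  have := Md.of_sum (Finset.univ : Finset (Fin 2)) (φ := fun v => gg p (c + b * cl α β v))
    (ψ := ![fun v => (NN (c + b * cl α β v) : ℝ), fun v => LL p (c + b * cl α β v)])
    (c := fun _ => 1) (m := ![Real.exp W, 2 * |b|])
    ((measurable_gg p).comp hm1) (Bφ := 1) (fun x => abs_gg_le_one p _)
    (by
      intro i _
      fin_cases i
      · exact (measurable_from_nat (f := fun n : ℕ => (n : ℝ))).comp (measurable_NN.comp hm1)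
      · exact (LL_cont p).measurable.comp hm1)
    (B := ![Real.exp W, 1])
    (by
      intro i _ x
      fin_cases i
      · change |((NN (c + b * cl α β x) : ℕ) : ℝ)| ≤ Real.exp W
        rw [abs_of_nonneg (Nat.cast_nonneg _)]
        exact hNB x
      · change |LL p (c + b * cl α β x)| ≤ 1
        rw [abs_of_nonneg (LL_nonneg p _)]
        exact LL_le_one p _)
    (fun i _ => zero_le_one)
    (by
      intro i _
      fin_cases i
      · exact hN
      · exact hL)
    (by
      intro x y
      rw [Fin.sum_univ_two]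
      simp only [one_mul, Matrix.cons_val_zero, Matrix.cons_val_one]
      rw [show gg p (c + b * cl α β x) - gg p (c + b * cl α β y) =
        (ff p (c + b * cl α β x) - ff p (c + b * cl α β y)) -
        (LL p (c + b * cl α β x) - LL p (c + b * cl α β y)) by unfold gg; ring]
      exact (abs_sub _ _).trans (add_le_add (ff_diff p _ _) le_rfl))
  rw [Fin.sum_univ_two] at this
  simpa using this

end Pool.Agent.Helper46K9.CL
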