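import Mathlib
import Pool.Agent.Helper46K9.CL.A

set_option autoImplicit false

/-!
# Decorrelation of a high level and a function of low levels, along a line
-/

namespace Pool.Agent.Helper46K9.CL

open MeasureTheory Filter Topology
open Pool.Agent.H305R2 (ff NN LL gg measurable_ff measurable_gg ff_nonneg ff_le_one LL_cont LL_nonneg
  LL_le_one abs_gg_le_one measurable_NN)
open Pool.Agent.W66 (mono_var NN_mono NN_le ff_diff LL_lip ii_of_bdd far_abs)

lemma lnt : Tendsto (fun n : ℕ => Real.log n) atTop atTop :=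
  Real.tendsto_log_atTop.comp tendsto_natCast_atTop_atTop

/-- the indicator of a half line -/
noncomputable def hv (α v : ℝ) : ℝ := if α < v then 1 else 0

lemma hv_mono (α : ℝ) : Monotone (hv α) := fun a b hab => by
  unfold hv
  split_ifs <;> first | (exfalso; linarith) | norm_num

lemma hv_nonneg (α v : ℝ) : 0 ≤ hv α v := by unfold hv; split_ifs <;> norm_num

lemma hv_le_one (α v : ℝ) : hv α v ≤ 1 := by unfold hv; split_ifs <;> norm_num

lemma Md_ind {φ : ℝ → ℝ} (hφ : Measurable φ) (hφ1 : ∀ x, |φ x| ≤ 1) {m : ℝ} (h : Md φ m) {α β : ℝ}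
    (hαβ : α ≤ β) : Md (Set.indicator (Set.Ioc α β) φ) (m + 2) := by
  have he : ∀ v, Set.indicator (Set.Ioc α β) φ v = φ v * (hv α v - hv β v) := by
    intro v
    rw [Set.indicator_apply]
    unfold hv
    simp only [Set.mem_Ioc]
    split_ifs with h1 h2 h3 h4 h5 <;>
      first | (simp; done) | (exfalso; obtain ⟨h6, h7⟩ := h1; linarith) | (exfalso; linarith) |
        (exfalso; exact h1 ⟨by assumption, by linarith⟩)
  have := Md.of_sum (Finset.univ : Finset (Fin 3)) (φ := Set.indicator (Set.Ioc α β) φ)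
    (ψ := ![φ, hv α, hv β]) (c := fun _ => 1) (m := ![m, 1, 1])
    (hφ.indicator measurableSet_Ioc) (Bφ := 1) (fun x => by
      rw [Set.indicator_apply]
      split_ifs
      · exact hφ1 x
      · simp)
    (by
      intro i _
      fin_cases i
      · exact hφ
      · exact (hv_mono α).measurable
      · exact (hv_mono β).measurable)
    (B := fun _ => 1)
    (by
      intro i _ x
      fin_cases i
      · exact hφ1 x
      · change |hv α x| ≤ 1
        rw [abs_of_nonneg (hv_nonneg _ _)]
        exact hv_le_one _ _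
      · change |hv β x| ≤ 1
        rw [abs_of_nonneg (hv_nonneg _ _)]
        exact hv_le_one _ _)
    (fun i _ => zero_le_one)
    (by
      intro i _
      fin_cases i
      · exact h
      · exact Md.of_monotone (hv_mono α) (hv_nonneg α) (hv_le_one α)
      · exact Md.of_monotone (hv_mono β) (hv_nonneg β) (hv_le_one β))
    (by
      intro a b
      rw [Fin.sum_univ_three, he, he]
      change |φ a * (hv α a - hv β a) - φ b * (hv α b - hv β b)| ≤
        1 * |φ a - φ b| + 1 * |hv α a - hv α b| + 1 * |hv β a - hv β b|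
      have e : φ a * (hv α a - hv β a) - φ b * (hv α b - hv β b) =
        (φ a - φ b) * (hv α a - hv β a) + φ b * ((hv α a - hv α b) - (hv β a - hv β b)) := by ring
      rw [e]
      have h1 : |hv α a - hv β a| ≤ 1 := by
        rw [abs_le]
        constructor <;> linarith [hv_nonneg α a, hv_nonneg β a, hv_le_one α a, hv_le_one β a]
      have h2 : |(φ a - φ b) * (hv α a - hv β a)| ≤ |φ a - φ b| := by
        rw [abs_mul]
        exact mul_le_of_le_one_right (abs_nonneg _) h1
      have h3 : |φ b * ((hv α a - hv α b) - (hv β a - hv β b))| ≤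
          |hv α a - hv α b| + |hv β a - hv β b| := by
        rw [abs_mul]
        exact (mul_le_of_le_one_left (abs_nonneg _) (hφ1 b)).trans (abs_sub _ _)
      linarith [abs_add_le ((φ a - φ b) * (hv α a - hv β a))
        (φ b * ((hv α a - hv α b) - (hv β a - hv β b)))])
  rw [Fin.sum_univ_three] at this
  refine this.mono (le_of_eq ?_)
  change 1 * m + 1 * 1 + 1 * 1 = m + 2
  ring

/-- growth of `Y / log Y` -/
lemma div_log_mono {c1 : ℝ} (hc1 : 0 < c1) : ∀ᶠ q : ℕ in atTop, ∀ Y : ℝ, c1 * q ≤ Y →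
    c1 / 2 * (q / Real.log q) ≤ Y / Real.log Y := by
  have h1 : ∀ᶠ q : ℕ in atTop, Real.exp 1 / c1 ≤ q := tendsto_natCast_atTop_atTop.eventually_ge_atTop _
  have h2 : ∀ᶠ q : ℕ in atTop, c1 ≤ q := tendsto_natCast_atTop_atTop.eventually_ge_atTop _
  filter_upwards [h1, h2, lnt.eventually_ge_atTop 1] with q h1 h2 h3 Y hY
  have hq0 : (0 : ℝ) < q := by linarith
  have hcq : Real.exp 1 ≤ c1 * q := by
    rw [div_le_iff₀ hc1] at h1
    linarith
  have he : 0 < Real.exp 1 := Real.exp_pos 1
  have hcq0 : 0 < c1 * q := by linarith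
  have hY0 : 0 < Y := by linarith
  have h4 := Real.log_div_self_antitoneOn (Set.mem_ofPred_eq ▸ hcq : c1 * (q : ℝ) ∈ {x | Real.exp 1 ≤ x})
    (show Y ∈ {x | Real.exp 1 ≤ x} from hcq.trans hY) hY
  simp only at h4
  have h5 : Real.log (c1 * q) ≤ 2 * Real.log q := by
    calc Real.log (c1 * q) ≤ Real.log (q * q) :=
          Real.log_le_log hcq0 (mul_le_mul_of_nonneg_right h2 hq0.le)
      _ = _ := by rw [Real.log_mul hq0.ne' hq0.ne']; ring
  have h6 : 1 ≤ Real.log (c1 * q) := by
    rw [Real.le_log_iff_exp_le hcq0]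
    exact hcq
  have h7 : 0 < Real.log Y := by
    have : 1 ≤ Real.log Y := by
      rw [Real.le_log_iff_exp_le hY0]
      exact hcq.trans hY
    linarith
  have h8 : c1 * q / Real.log (c1 * q) ≤ Y / Real.log Y := by
    rw [div_le_div_iff₀ (by linarith) h7]
    rw [div_le_div_iff₀ hY0 hcq0] at h4
    linarith
  refine le_trans ?_ h8
  rw [show c1 / 2 * (q / Real.log q) = c1 * q / (2 * Real.log q) by field_simp]
  exact div_le_div_of_nonneg_left hcq0.le (by linarith) h5

/-- decorrelation on an interval -/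
theorem far_int {c1 : ℝ} (hc1 : 0 < c1) : ∃ κ K : ℝ, 0 < κ ∧ 0 < K ∧ ∃ P : ℕ, ∀ q ≥ P,
    ∀ (φ : ℝ → ℝ) (α β m : ℝ), Measurable φ → (∀ x, |φ x| ≤ 1) → Md φ m → c1 * q ≤ α → α ≤ β →
      m ≤ Real.exp (κ * (q / Real.log q)) →
      |∫ v in Set.Ioc α β, φ v * gg q v| ≤ (β - α + 1) * (K * (Real.log q / q ^ 2)) := by
  obtain ⟨κ, K, hκ, hK, P, hP⟩ := far_abs hc1
  obtain ⟨P2, hP2⟩ := eventually_atTop.1 (div_log_mono hc1)
  refine ⟨κ * (c1 / 2), K, by positivity, hK, max P P2, fun q hq φ α β m hφ hφ1 hm hα hαβ hmM => ?_⟩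
  set φ0 := Set.indicator (Set.Ioc α β) φ with hφ0
  set N := ⌈β - α⌉₊ with hN
  have hNle : β - α ≤ N := Nat.le_ceil _
  have hNlt : (N : ℝ) < β - α + 1 := Nat.ceil_lt_add_one (by linarith)
  have hφ0m : Measurable φ0 := hφ.indicator measurableSet_Ioc
  have hφ01 : ∀ x, |φ0 x| ≤ 1 := fun x => by
    rw [hφ0, Set.indicator_apply]
    split_ifs
    · exact hφ1 x
    · simp
  have hMd := Md_ind hφ hφ1 hm hαβ
  have hgm := measurable_gg q
  have hb : ∀ x, |φ0 x * gg q x| ≤ 1 := fun x => by
    rw [abs_mul]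
    exact mul_le_one₀ (hφ01 x) (abs_nonneg _) (abs_gg_le_one q x)
  have e1 : ∫ v in Set.Ioc α β, φ v * gg q v = ∫ v in α..(α + N), φ0 v * gg q v := by
    rw [intervalIntegral.integral_of_le (by linarith)]
    have e2 : (fun v => φ0 v * gg q v) = Set.indicator (Set.Ioc α β) (fun v => φ v * gg q v) := by
      ext v
      rw [hφ0, Set.indicator_apply, Set.indicator_apply]
      split_ifs <;> simp
    rw [e2, setIntegral_indicator measurableSet_Ioc]
    congr 2
    rw [Set.inter_eq_right.2 (Set.Ioc_subset_Ioc_right (by linarith))]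
  have e3 := intervalIntegral.sum_integral_adjacent_intervals (μ := volume)
    (f := fun v => φ0 v * gg q v) (a := fun k : ℕ => α + k) (n := N)
    (fun k _ => ii_of_bdd (hφ0m.mul hgm) hb _ _)
  simp only [Nat.cast_zero, add_zero] at e3
  rw [e1, ← e3]
  refine (Finset.abs_sum_le_sum_abs _ _).trans ?_
  have h1 : ∀ k ∈ Finset.range N, |∫ v in (α + (k : ℕ))..(α + ((k + 1 : ℕ) : ℝ)), φ0 v * gg q v| ≤
      K * (Real.log q / q ^ 2) := by
    intro k _
    have hk : (0 : ℝ) ≤ k := Nat.cast_nonneg k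
    have h2 := hP q ((le_max_left _ _).trans hq) φ0 (α + k) (κ * ((α + k) / Real.log (α + k))) hφ0m hφ01
      (by linarith) (le_of_eq (by ring)) (fun h hh _ v hv => by
        refine (hMd _ v h hh hv).trans ?_
        have h3 := hP2 q ((le_max_right _ _).trans hq) (α + k) (by linarith)
        have h4 : m ≤ Real.exp (κ * ((α + k) / Real.log (α + k))) := by
          refine hmM.trans (Real.exp_le_exp.2 ?_)
          rw [mul_assoc]
          exact mul_le_mul_of_nonneg_left h3 hκ.le
        nlinarith)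
    have e4 : α + ((k + 1 : ℕ) : ℝ) = α + k + 1 := by push_cast; ring
    rw [e4]
    exact h2
  refine (Finset.sum_le_sum h1).trans ?_
  rw [Finset.sum_const, Finset.card_range, nsmul_eq_mul]
  refine mul_le_mul_of_nonneg_right hNlt.le ?_
  have : 0 ≤ Real.log q := Real.log_natCast_nonneg q
  positivity

end Pool.Agent.Helper46K9.CL
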