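import Mathlib
import Pool.Agent.Helper46K9.CL.B

set_option autoImplicit false

/-!
# Decorrelation along lines in the plane of base and amplitude
-/

namespace Pool.Agent.Helper46K9.CL

open MeasureTheory Filter Topology
open Pool.Agent.H305R2 (ff NN LL gg measurable_ff measurable_gg ff_nonneg ff_le_one LL_cont LL_nonneg
  LL_le_one abs_gg_le_one measurable_NN)
open Pool.Agent.W66 (mono_var NN_mono NN_le ff_diff LL_lip ii_of_bdd far_abs)

/-- the sum of the centred indicators of the levels in `S` -/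
noncomputable def G (S : Finset ℕ) (x y : ℝ) : ℝ := ∑ p ∈ S, gg p (p * x + y)

lemma abs_G_le (S : Finset ℕ) (x y : ℝ) : |G S x y| ≤ S.card := by
  unfold G
  refine (Finset.abs_sum_le_sum_abs _ _).trans ?_
  refine (Finset.sum_le_sum fun p _ => abs_gg_le_one p _).trans ?_
  simp

lemma measurable_G (S : Finset ℕ) : Measurable fun z : ℝ × ℝ => G S z.1 z.2 := by
  unfold G
  exact Finset.measurable_sum _ fun p _ => (measurable_gg p).comp (by fun_prop)

/-- the test functions -/
noncomputable def tf (ξ θ τ : ℝ → ℝ) (S : Finset ℕ) (x y : ℝ) : ℝ := ξ x * τ (θ x * G S x y)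

/-- admissible data for a test function -/
structure Adm (x0 x1 C : ℝ) (ξ θ τ : ℝ → ℝ) : Prop where
  C0 : 0 ≤ C
  mξ : Measurable ξ
  mθ : Measurable θ
  mτ : Measurable τ
  bξ : ∀ x ∈ Set.Icc x0 x1, |ξ x| ≤ 1
  bθ : ∀ x ∈ Set.Icc x0 x1, |θ x| ≤ C
  lξ : ∀ x ∈ Set.Icc x0 x1, ∀ x' ∈ Set.Icc x0 x1, |ξ x - ξ x'| ≤ C * |x - x'|
  lθ : ∀ x ∈ Set.Icc x0 x1, ∀ x' ∈ Set.Icc x0 x1, |θ x - θ x'| ≤ C * |x - x'|
  bτ : ∀ a, |τ a| ≤ 1
  lτ : ∀ a b, |τ a - τ b| ≤ |a - b|

variable {x0 x1 C : ℝ} {ξ θ τ : ℝ → ℝ}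

lemma Adm.measurable (h : Adm x0 x1 C ξ θ τ) (S : Finset ℕ) :
    Measurable fun z : ℝ × ℝ => tf ξ θ τ S z.1 z.2 := by
  unfold tf
  exact (h.mξ.comp measurable_fst).mul (h.mτ.comp ((h.mθ.comp measurable_fst).mul (measurable_G S)))

lemma Adm.bdd (h : Adm x0 x1 C ξ θ τ) (S : Finset ℕ) {x : ℝ} (hx : x ∈ Set.Icc x0 x1) (y : ℝ) :
    |tf ξ θ τ S x y| ≤ 1 := by
  unfold tf
  rw [abs_mul]
  exact mul_le_one₀ (h.bξ x hx) (abs_nonneg _) (h.bτ _)

/-- the modulus of a test function along a line -/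
theorem path (h : Adm x0 x1 C ξ θ τ) (S : Finset ℕ) {α β a1 b1 a2 b2 W Bs : ℝ} (hαβ : α ≤ β)
    (hx : ∀ v ∈ Set.Icc α β, a1 + b1 * v ∈ Set.Icc x0 x1)
    (hW : ∀ v ∈ Set.Icc α β, ∀ p ∈ S, (p : ℝ) * (a1 + b1 * v) + (a2 + b2 * v) ≤ W)
    (hb1 : |b1| ≤ 1) (hBs : ∀ p ∈ S, |(p : ℝ) * b1 + b2| ≤ Bs) :
    Md (fun v => tf ξ θ τ S (a1 + b1 * cl α β v) (a2 + b2 * cl α β v))
      (C + C * S.card + C * S.card * (Real.exp W + 2 * Bs)) := by
  have hC := h.C0
  set X : ℝ → ℝ := fun v => a1 + b1 * cl α β v with hX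
  set Yf : ℝ → ℝ := fun v => a2 + b2 * cl α β v with hYf
  have hXm : Measurable X := ((measurable_cl α β).const_mul b1).const_add a1
  have hYm : Measurable Yf := ((measurable_cl α β).const_mul b2).const_add a2
  have hXI : ∀ v, X v ∈ Set.Icc x0 x1 := fun v => hx _ (cl_mem hαβ v)
  have hXX : ∀ a b, |X a - X b| ≤ |cl α β a - cl α β b| := fun a b => by
    simp only [hX]
    rw [show a1 + b1 * cl α β a - (a1 + b1 * cl α β b) = b1 * (cl α β a - cl α β b) by ring, abs_mul]
    exact mul_le_of_le_one_left (abs_nonneg _) hb1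
  have hlev : ∀ p : ℕ, ∀ v, (p : ℝ) * X v + Yf v = (p * a1 + a2) + (p * b1 + b2) * cl α β v :=
    fun p v => by simp only [hX, hYf]; ring
  have hmd := Md.of_sum (Finset.insertNone S) (φ := fun v => tf ξ θ τ S (X v) (Yf v))
    (ψ := fun o => match o with
      | none => cl α β
      | some p => fun v => gg p ((p * a1 + a2) + (p * b1 + b2) * cl α β v))
    (c := fun o => match o with
      | none => C + C * S.card
      | some _ => C)
    (m := fun o => match o with
      | none => 1
      | some _ => Real.exp W + 2 * Bs)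
    ((h.measurable S).comp (hXm.prodMk hYm)) (Bφ := 1) (fun v => h.bdd S (hXI v) _)
    (by
      rintro (_ | p) _
      · exact measurable_cl α β
      · exact (measurable_gg p).comp (((measurable_cl α β).const_mul _).const_add _))
    (B := fun o => match o with
      | none => max |α| |β|
      | some _ => 1)
    (by
      rintro (_ | p) _ v
      · exact abs_le_max_abs_abs (cl_mem hαβ v).1 (cl_mem hαβ v).2
      · exact abs_gg_le_one p _)
    (by
      rintro (_ | p) _
      · simp only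
        positivity
      · exact hC)
    (by
      rintro (_ | p) hp
      · exact Md.of_lip fun a b => by rw [one_mul]; exact cl_lip α β a b
      · have hpS : p ∈ S := by simpa using hp
        refine (Md_level p hαβ (p * a1 + a2) (p * b1 + b2) W ?_).mono ?_
        · intro v hv
          have := hW v hv p hpS
          linarith
        · have := hBs p hpS
          simp only
          linarith)
    (by
      intro a b
      rw [Finset.sum_insertNone]
      simp only
      have e : tf ξ θ τ S (X a) (Yf a) - tf ξ θ τ S (X b) (Yf b) =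
          (ξ (X a) - ξ (X b)) * τ (θ (X a) * G S (X a) (Yf a)) +
          ξ (X b) * (τ (θ (X a) * G S (X a) (Yf a)) - τ (θ (X b) * G S (X b) (Yf b))) := by
        unfold tf
        ring
      have h1 : |(ξ (X a) - ξ (X b)) * τ (θ (X a) * G S (X a) (Yf a))| ≤
          C * |cl α β a - cl α β b| := by
        rw [abs_mul]
        refine (mul_le_of_le_one_right (abs_nonneg _) (h.bτ _)).trans ?_
        exact (h.lξ _ (hXI a) _ (hXI b)).trans (mul_le_mul_of_nonneg_left (hXX a b) hC)
      have h2 : |ξ (X b) * (τ (θ (X a) * G S (X a) (Yf a)) - τ (θ (X b) * G S (X b) (Yf b)))| ≤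
          |θ (X a) * G S (X a) (Yf a) - θ (X b) * G S (X b) (Yf b)| := by
        rw [abs_mul]
        exact (mul_le_of_le_one_left (abs_nonneg _) (h.bξ _ (hXI b))).trans (h.lτ _ _)
      have h3 : |θ (X a) * G S (X a) (Yf a) - θ (X b) * G S (X b) (Yf b)| ≤
          C * |G S (X a) (Yf a) - G S (X b) (Yf b)| + C * |cl α β a - cl α β b| * S.card := by
        have e2 : θ (X a) * G S (X a) (Yf a) - θ (X b) * G S (X b) (Yf b) =
          θ (X a) * (G S (X a) (Yf a) - G S (X b) (Yf b)) + (θ (X a) - θ (X b)) * G S (X b) (Yf b) := by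
          ring
        rw [e2]
        refine (abs_add_le _ _).trans (add_le_add ?_ ?_)
        · rw [abs_mul]
          exact mul_le_mul_of_nonneg_right (h.bθ _ (hXI a)) (abs_nonneg _)
        · rw [abs_mul]
          exact mul_le_mul ((h.lθ _ (hXI a) _ (hXI b)).trans (mul_le_mul_of_nonneg_left (hXX a b) hC))
            (abs_G_le S _ _) (abs_nonneg _) (by positivity)
      have h4 : |G S (X a) (Yf a) - G S (X b) (Yf b)| ≤
          ∑ p ∈ S, |gg p ((p * a1 + a2) + (p * b1 + b2) * cl α β a) -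
            gg p ((p * a1 + a2) + (p * b1 + b2) * cl α β b)| := by
        unfold G
        rw [← Finset.sum_sub_distrib]
        refine (Finset.abs_sum_le_sum_abs _ _).trans (le_of_eq ?_)
        refine Finset.sum_congr rfl fun p _ => ?_
        rw [hlev, hlev]
      rw [e]
      refine (abs_add_le _ _).trans ?_
      rw [← Finset.mul_sum]
      have h5 := mul_le_mul_of_nonneg_left h4 hC
      have e5 : C * |cl α β a - cl α β b| * S.card = C * S.card * |cl α β a - cl α β b| := by ring
      linarith)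
  rw [Finset.sum_insertNone] at hmd
  refine hmd.mono (le_of_eq ?_)
  simp only [Finset.sum_const, nsmul_eq_mul]
  ring

/-- the size of the modulus -/
lemma big {C κ : ℝ} (hC : 0 ≤ C) (hκ : 0 < κ) : ∀ᶠ q : ℕ in atTop, ∀ W c : ℝ,
    W ≤ κ / 2 * (q / Real.log q) → 0 ≤ c → c ≤ q →
    C + C * c + C * c * (Real.exp W + 2 * q) ≤ Real.exp (κ * (q / Real.log q)) := by
  have h2 : ∀ᶠ q : ℕ in atTop, (Real.log q) ^ 2 * (2 / κ * (|Real.log (5 * (C + 1))| + 2)) ≤ (q : ℝ) := by
    set A := 2 / κ * (|Real.log (5 * (C + 1))| + 2) with hA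
    have hA0 : 0 < A := by positivity
    have h1 := (Real.isLittleO_pow_log_id_atTop (n := 2)).bound (show (0 : ℝ) < 1 / A by positivity)
    have h3 : ∀ᶠ x : ℝ in atTop, Real.log x ^ 2 * A ≤ x := by
      filter_upwards [h1, eventually_ge_atTop 1] with x hx hx1
      rw [Real.norm_of_nonneg (by positivity), id, Real.norm_of_nonneg (by linarith),
        one_div_mul_eq_div, le_div_iff₀ hA0] at hx
      exact hx
    exact tendsto_natCast_atTop_atTop.eventually h3
  filter_upwards [h2, lnt.eventually_ge_atTop 1, eventually_ge_atTop 1] with q h1 h3 h4 W c hW hc0 hc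
  have hq1 : (1 : ℝ) ≤ q := by exact_mod_cast h4
  have hq0 : (0 : ℝ) < q := by linarith
  have hl0 : 0 < Real.log q := by linarith
  set E := Real.exp (κ / 2 * (q / Real.log q)) with hE
  have hE2 : E * E = Real.exp (κ * (q / Real.log q)) := by
    rw [hE, ← Real.exp_add]
    congr 1
    ring
  have hE5 : 5 * (C + 1) * q ^ 2 ≤ E := by
    rw [← Real.exp_log (show 0 < 5 * (C + 1) * (q : ℝ) ^ 2 by positivity), hE, Real.exp_le_exp,
      Real.log_mul (by positivity) (by positivity), Real.log_pow]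
    have h5 : Real.log q * (2 / κ * (|Real.log (5 * (C + 1))| + 2)) ≤ q / Real.log q := by
      rw [le_div_iff₀ hl0]
      calc _ = (Real.log q) ^ 2 * (2 / κ * (|Real.log (5 * (C + 1))| + 2)) := by ring
        _ ≤ _ := h1
    have h6 := mul_le_mul_of_nonneg_left h5 (show 0 ≤ κ / 2 by positivity)
    have e6 : κ / 2 * (Real.log q * (2 / κ * (|Real.log (5 * (C + 1))| + 2))) =
        Real.log q * |Real.log (5 * (C + 1))| + 2 * Real.log q := by
      field_simp
    rw [e6] at h6
    have h7 := le_abs_self (Real.log (5 * (C + 1)))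
    have h8 : |Real.log (5 * (C + 1))| ≤ Real.log q * |Real.log (5 * (C + 1))| :=
      le_mul_of_one_le_left (abs_nonneg _) h3
    push_cast
    linarith
  have hq2 : (1 : ℝ) ≤ (q : ℝ) ^ 2 := one_le_pow₀ hq1
  have hqq : (q : ℝ) ≤ (q : ℝ) ^ 2 := by nlinarith
  have hE1 : 1 ≤ E := by nlinarith
  have hEW : Real.exp W ≤ E := Real.exp_le_exp.2 hW
  have hW0 := Real.exp_pos W
  have hCc : C * c ≤ C * q := mul_le_mul_of_nonneg_left hc hC
  have hCc0 : 0 ≤ C * c := by positivity
  rw [← hE2]
  have h9 : C + C * c + C * c * (Real.exp W + 2 * q) ≤ C + C * q + C * q * (E + 2 * q) := by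
    have : C * c * (Real.exp W + 2 * q) ≤ C * q * (E + 2 * q) :=
      mul_le_mul hCc (by linarith) (by positivity) (by positivity)
    linarith
  have h10 : C + C * q + C * q * (E + 2 * q) ≤ 5 * (C + 1) * q ^ 2 * E := by
    have a1 : C ≤ C * q ^ 2 * E := by
      have : 1 ≤ (q : ℝ) ^ 2 * E := one_le_mul_of_one_le_of_one_le hq2 hE1
      nlinarith
    have a2 : C * q ≤ C * q ^ 2 * E := by
      have : (q : ℝ) ≤ (q : ℝ) ^ 2 * E := by nlinarith
      nlinarith
    have a3 : C * q * E ≤ C * q ^ 2 * E := by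
      have := mul_le_mul_of_nonneg_left hqq hC
      exact mul_le_mul_of_nonneg_right this (by linarith)
    have a4 : C * q * (2 * q) ≤ 2 * (C * q ^ 2 * E) := by
      have : C * q ^ 2 ≤ C * q ^ 2 * E := le_mul_of_one_le_right (by positivity) hE1
      nlinarith
    have a5 : 0 ≤ (q : ℝ) ^ 2 * E := by positivity
    nlinarith
  refine h9.trans (h10.trans ?_)
  exact mul_le_mul_of_nonneg_right hE5 (by linarith)

end Pool.Agent.Helper46K9.CL
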