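import Mathlib
import Pool.Agent.Helper46K9.CL.C

set_option autoImplicit false

/-!
# Decorrelation: vertical lines and the lines on which a level is constant
-/

namespace Pool.Agent.Helper46K9.CL

open MeasureTheory Filter Topology
open Pool.Agent.H305R2 (ff NN LL gg measurable_ff measurable_gg ff_nonneg ff_le_one LL_cont LL_nonneg
  LL_le_one abs_gg_le_one measurable_NN)
open Pool.Agent.W66 (mono_var NN_mono NN_le ff_diff LL_lip ii_of_bdd far_abs)

lemma ratio_tendsto : Tendsto (fun q : ℕ => (q : ℝ) / Real.log q) atTop atTop := by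
  have h1 : Tendsto (fun x : ℝ => Real.log x / x) atTop (𝓝 0) := by
    have := Real.tendsto_pow_log_div_mul_add_atTop 1 0 1 one_ne_zero
    simpa using this
  have h2 : Tendsto (fun x : ℝ => Real.log x / x) atTop (𝓝[>] 0) := by
    rw [tendsto_nhdsWithin_iff]
    refine ⟨h1, ?_⟩
    filter_upwards [eventually_gt_atTop 1] with x hx
    exact div_pos (Real.log_pos hx) (by linarith)
  have h3 : Tendsto (fun x : ℝ => x / Real.log x) atTop atTop := by
    refine h2.inv_tendsto_nhdsGT_zero.congr fun x => ?_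
    simp only [Pi.inv_apply, inv_div]
  exact h3.comp tendsto_natCast_atTop_atTop

/-- the two decorrelation estimates on lines -/
theorem lines {x0 x1 y0 y1 C : ℝ} (hx0 : 0 < x0) (hx : x0 ≤ x1) (hC : 0 ≤ C) :
    ∃ κ K : ℝ, 0 < κ ∧ 0 < K ∧ ∃ P : ℕ, 3 ≤ P ∧ ∀ q ≥ P, ∀ (ξ θ τ : ℝ → ℝ) (S : Finset ℕ),
      Adm x0 x1 C ξ θ τ → (∀ p ∈ S, (p : ℝ) ≤ κ * (q / Real.log q)) →
      (∀ x ∈ Set.Icc x0 x1, ∀ s t : ℝ, y0 ≤ s → s ≤ t → t ≤ y1 →
        |∫ y in Set.Ioc s t, tf ξ θ τ S x y * gg q (q * x + y)| ≤
          (t - s + 1) * (K * (Real.log q / q ^ 2))) ∧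
      (∀ p : ℕ, 1 ≤ p → p < q → ∀ u s t : ℝ, x0 ≤ s → s ≤ t → t ≤ x1 → u - p * s ≤ y1 →
        y0 ≤ u - p * t →
        |∫ x in Set.Ioc s t, tf ξ θ τ S x (u - p * x) * gg q (u + ((q : ℝ) - p) * x)| ≤
          (t - s + 1 / ((q : ℝ) - p)) * (K * (Real.log q / q ^ 2))) := by
  obtain ⟨κ0, K, hκ0, hK, P, hP⟩ := far_int (c1 := x0 / 2) (by positivity)
  have hx1 : 0 < x1 := lt_of_lt_of_le hx0 hx
  set κ := min (κ0 / (4 * x1)) 1 / 1 with hκ
  have hκ1 : κ ≤ 1 := by rw [hκ, div_one]; exact min_le_right _ _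
  have hκ2 : κ ≤ κ0 / (4 * x1) := by rw [hκ, div_one]; exact min_le_left _ _
  have hκpos : 0 < κ := by
    rw [hκ, div_one]
    exact lt_min (by positivity) one_pos
  have e1 : ∀ᶠ q : ℕ in atTop, |y1| ≤ κ0 / 4 * (q / Real.log q) :=
    (ratio_tendsto.const_mul_atTop (show 0 < κ0 / 4 by positivity)).eventually_ge_atTop _
  have e2 : ∀ᶠ q : ℕ in atTop, |y0| ≤ x0 / 2 * (q : ℝ) :=
    (tendsto_natCast_atTop_atTop.const_mul_atTop (show 0 < x0 / 2 by positivity)).eventually_ge_atTop _
  obtain ⟨P2, hP2⟩ := eventually_atTop.1 (e1.and (e2.and ((big hC hκ0).and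
    (lnt.eventually_gt_atTop 1))))
  refine ⟨κ, K, hκpos, hK, max 3 (max P P2), le_max_left _ _, fun q hq ξ θ τ S hA hS => ?_⟩
  obtain ⟨f1, f2, f3, f4⟩ := hP2 q ((le_max_right _ _).trans ((le_max_right _ _).trans hq))
  have hqP := hP q ((le_max_left _ _).trans ((le_max_right _ _).trans hq))
  have hq3 : 3 ≤ q := (le_max_left _ _).trans hq
  have hq3' : (3 : ℝ) ≤ q := by exact_mod_cast hq3
  have hq0 : (0 : ℝ) < q := by linarith
  have hr0 : 0 < (q : ℝ) / Real.log q := div_pos hq0 (by linarith)
  have hrq : (q : ℝ) / Real.log q < q := by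
    rw [div_lt_iff₀ (by linarith)]
    nlinarith
  have hSq : ∀ p ∈ S, p < q := by
    intro p hp
    have h1 := hS p hp
    have h2 : κ * ((q : ℝ) / Real.log q) ≤ 1 * (q / Real.log q) :=
      mul_le_mul_of_nonneg_right hκ1 hr0.le
    have h3 : (p : ℝ) < q := by linarith
    exact_mod_cast h3
  have hcard : (S.card : ℝ) ≤ q := by
    have h1 : S ⊆ Finset.range q := fun p hp => Finset.mem_range.2 (hSq p hp)
    have h2 := Finset.card_le_card h1
    rw [Finset.card_range] at h2
    exact_mod_cast h2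
  set W := κ0 / 4 * (q / Real.log q) + |y1| with hW
  have hWle : W ≤ κ0 / 2 * (q / Real.log q) := by rw [hW]; linarith
  have hsize := f3 W S.card hWle (Nat.cast_nonneg _) hcard
  have hSx : ∀ p ∈ S, ∀ x : ℝ, 0 ≤ x → x ≤ x1 → (p : ℝ) * x ≤ κ0 / 4 * (q / Real.log q) := by
    intro p hp x hx0' hxx
    calc (p : ℝ) * x ≤ κ * (q / Real.log q) * x1 :=
          mul_le_mul (hS p hp) hxx hx0' (by positivity)
      _ ≤ κ0 / (4 * x1) * (q / Real.log q) * x1 := by
          refine mul_le_mul_of_nonneg_right (mul_le_mul_of_nonneg_right hκ2 hr0.le) hx1.le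
      _ = κ0 / 4 * (q / Real.log q) := by field_simp
  have hy0' := neg_abs_le y0
  have hy1' := le_abs_self y1
  constructor
  · intro x hxI s t hs hst ht
    have hpath := path hA S (α := q * x + s) (β := q * x + t) (a1 := x) (b1 := 0) (a2 := -(q * x))
      (b2 := 1) (W := W) (Bs := q) (by linarith)
      (fun v _ => by rw [zero_mul, add_zero]; exact hxI)
      (fun v hv p hp => by
        have h1 := hSx p hp x (by linarith [hxI.1]) hxI.2
        have h2 := hv.2
        rw [zero_mul, add_zero, one_mul, hW]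
        linarith)
      (by simp) (fun p _ => by
        rw [mul_zero, zero_add, abs_one]
        linarith)
    have hXm : Measurable fun v => tf ξ θ τ S (x + 0 * cl (q * x + s) (q * x + t) v)
        (-(q * x) + 1 * cl (q * x + s) (q * x + t) v) := by
      have := (hA.measurable S).comp (((measurable_cl (q * x + s) (q * x + t)).const_mul
        (0 : ℝ)).const_add x |>.prodMk (((measurable_cl (q * x + s) (q * x + t)).const_mul
        (1 : ℝ)).const_add (-(q * x))))
      exact this
    have hlow : x0 / 2 * q ≤ q * x + s := by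
      have : x0 * q ≤ q * x := by nlinarith [hxI.1]
      linarith
    have h1 := hqP _ (q * x + s) (q * x + t) _ hXm
      (fun v => hA.bdd S (by rw [zero_mul, add_zero]; exact hxI) _) hpath hlow (by linarith) hsize
    rw [show (q : ℝ) * x + t - (q * x + s) = t - s by ring] at h1
    refine le_trans (le_of_eq ?_) h1
    congr 1
    rw [← intervalIntegral.integral_of_le hst,
      ← intervalIntegral.integral_of_le (show (q : ℝ) * x + s ≤ q * x + t by linarith),
      ← intervalIntegral.integral_comp_add_left (fun v => tf ξ θ τ S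
        (x + 0 * cl (q * x + s) (q * x + t) v) (-(q * x) + 1 * cl (q * x + s) (q * x + t) v) *
        gg q v) (q * x)]
    refine intervalIntegral.integral_congr fun y hy => ?_
    rw [Set.uIcc_of_le hst] at hy
    rw [cl_eq (show (q : ℝ) * x + y ∈ Set.Icc (q * x + s) (q * x + t) from
      ⟨by linarith [hy.1], by linarith [hy.2]⟩)]
    congr 2 <;> ring
  · intro p hp1 hpq u s t hs hst ht hus hut
    have hp1' : (1 : ℝ) ≤ p := by exact_mod_cast hp1
    have hpq' : (p : ℝ) + 1 ≤ q := by exact_mod_cast hpq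
    set d := (q : ℝ) - p with hd
    have hd1 : 1 ≤ d := by rw [hd]; linarith
    have hd0 : 0 < d := by linarith
    have hdI : ∀ v ∈ Set.Icc (u + d * s) (u + d * t), s ≤ (v - u) / d ∧ (v - u) / d ≤ t := by
      intro v hv
      rw [le_div_iff₀ hd0, div_le_iff₀ hd0]
      constructor <;> linarith [hv.1, hv.2]
    have hxv : ∀ v, -u / d + 1 / d * v = (v - u) / d := fun v => by ring
    have hyv : ∀ v, (u + p * u / d) + -(p : ℝ) / d * v = u - p * ((v - u) / d) := fun v => by ring
    have hpath := path hA S (α := u + d * s) (β := u + d * t) (a1 := -u / d) (b1 := 1 / d)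
      (a2 := u + p * u / d) (b2 := -(p : ℝ) / d) (W := W) (Bs := q)
      (by nlinarith)
      (fun v hv => by
        rw [hxv]
        obtain ⟨h1, h2⟩ := hdI v hv
        exact ⟨by linarith, by linarith⟩)
      (fun v hv p' hp' => by
        rw [hxv, hyv]
        obtain ⟨h1, h2⟩ := hdI v hv
        have h3 := hSx p' hp' ((v - u) / d) (by linarith) (by linarith)
        have h4 : (p : ℝ) * s ≤ p * ((v - u) / d) := mul_le_mul_of_nonneg_left h1 (by linarith)
        rw [hW]
        linarith)
      (by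
        rw [abs_of_nonneg (by positivity), div_le_one hd0]
        exact hd1)
      (fun p' hp' => by
        have h1 : (p' : ℝ) * (1 / d) + -(p : ℝ) / d = ((p' : ℝ) - p) / d := by ring
        rw [h1, abs_div, abs_of_pos hd0, div_le_iff₀ hd0]
        have h2 : (p' : ℝ) ≤ q := by exact_mod_cast (hSq p' hp').le
        have h3 : (0 : ℝ) ≤ p' := Nat.cast_nonneg _
        have h4 : |(p' : ℝ) - p| ≤ q := by
          rw [abs_le]
          constructor <;> linarith
        nlinarith)
    have hXm : Measurable fun v => tf ξ θ τ S (-u / d + 1 / d * cl (u + d * s) (u + d * t) v)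
        ((u + p * u / d) + -(p : ℝ) / d * cl (u + d * s) (u + d * t) v) := by
      have := (hA.measurable S).comp (((measurable_cl (u + d * s) (u + d * t)).const_mul
        (1 / d)).const_add (-u / d) |>.prodMk (((measurable_cl (u + d * s) (u + d * t)).const_mul
        (-(p : ℝ) / d)).const_add (u + p * u / d)))
      exact this
    have hαβ : u + d * s ≤ u + d * t := by nlinarith
    have hlow : x0 / 2 * q ≤ u + d * s := by
      have h1 : (p : ℝ) * s ≤ p * t := mul_le_mul_of_nonneg_left hst (by linarith)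
      have h2 : x0 * q ≤ s * q := mul_le_mul_of_nonneg_right hs hq0.le
      rw [hd]
      nlinarith
    have h1 := hqP _ (u + d * s) (u + d * t) _ hXm
      (fun v => hA.bdd S (by
        rw [hxv]
        obtain ⟨h1, h2⟩ := hdI _ (cl_mem hαβ v)
        exact ⟨by linarith, by linarith⟩) _) hpath hlow hαβ hsize
    have h2 : ∫ x in Set.Ioc s t, tf ξ θ τ S x (u - p * x) * gg q (u + d * x) =
        d⁻¹ * ∫ v in Set.Ioc (u + d * s) (u + d * t),
          tf ξ θ τ S (-u / d + 1 / d * cl (u + d * s) (u + d * t) v)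
          ((u + p * u / d) + -(p : ℝ) / d * cl (u + d * s) (u + d * t) v) * gg q v := by
      rw [← intervalIntegral.integral_of_le hst, ← intervalIntegral.integral_of_le hαβ]
      have h3 := intervalIntegral.integral_comp_add_mul (a := s) (b := t) (fun v =>
        tf ξ θ τ S (-u / d + 1 / d * cl (u + d * s) (u + d * t) v)
          ((u + p * u / d) + -(p : ℝ) / d * cl (u + d * s) (u + d * t) v) * gg q v) hd0.ne' u
      rw [smul_eq_mul] at h3
      rw [← h3]
      refine intervalIntegral.integral_congr fun x hx => ?_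
      rw [Set.uIcc_of_le hst] at hx
      rw [cl_eq (show u + d * x ∈ Set.Icc (u + d * s) (u + d * t) from
        ⟨by nlinarith [hx.1], by nlinarith [hx.2]⟩), hxv, hyv]
      have e : (u + d * x - u) / d = x := by field_simp; ring
      rw [e]
    rw [h2, abs_mul, abs_of_pos (inv_pos.2 hd0)]
    refine (mul_le_mul_of_nonneg_left h1 (inv_pos.2 hd0).le).trans (le_of_eq ?_)
    have hne : d ≠ 0 := hd0.ne'
    have e3 : d⁻¹ * (u + d * t - (u + d * s) + 1) = t - s + 1 / d := by
      field_simp
      ring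
    rw [← mul_assoc, e3]

end Pool.Agent.Helper46K9.CL
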