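import Mathlib
import Pool.Agent.Helper46K9.CL.D

set_option autoImplicit false

/-!
# From lines to boxes
-/

namespace Pool.Agent.Helper46K9.CL

open MeasureTheory Filter Topology
open Pool.Agent.H305R2 (ff NN LL gg measurable_ff measurable_gg ff_nonneg ff_le_one LL_cont LL_nonneg
  LL_le_one abs_gg_le_one measurable_NN)
open Pool.Agent.W66 (mono_var NN_mono NN_le ff_diff LL_lip ii_of_bdd far_abs)

/-- the box -/
def Bx (x0 x1 y0 y1 : ℝ) : Set (ℝ × ℝ) := Set.Icc x0 x1 ×ˢ Set.Icc y0 y1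

lemma measurableSet_Bx (x0 x1 y0 y1 : ℝ) : MeasurableSet (Bx x0 x1 y0 y1) :=
  measurableSet_Icc.prod measurableSet_Icc

lemma volume_Bx_lt_top (x0 x1 y0 y1 : ℝ) : volume (Bx x0 x1 y0 y1) < ⊤ := by
  unfold Bx
  rw [Measure.volume_eq_prod, Measure.prod_prod]
  exact ENNReal.mul_lt_top measure_Icc_lt_top measure_Icc_lt_top

lemma int_of_bdd {s : Set (ℝ × ℝ)} (hs : MeasurableSet s) (hsf : volume s < ⊤) {F : ℝ × ℝ → ℝ}
    (hF : Measurable F) {B : ℝ} (hFb : ∀ z ∈ s, |F z| ≤ B) : IntegrableOn F s := by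
  refine Measure.integrableOn_of_bounded hsf.ne hF.aestronglyMeasurable (M := B) ?_
  filter_upwards [self_mem_ae_restrict hs] with z hz
  exact hFb z hz

/-- Fubini on a box -/
lemma box_prod {x0 x1 y0 y1 : ℝ} {F : ℝ × ℝ → ℝ} (hF : Measurable F) {B : ℝ}
    (hFb : ∀ z ∈ Bx x0 x1 y0 y1, |F z| ≤ B) :
    ∫ z in Bx x0 x1 y0 y1, F z = ∫ x in Set.Icc x0 x1, ∫ y in Set.Icc y0 y1, F (x, y) :=
  setIntegral_prod F (int_of_bdd (measurableSet_Bx _ _ _ _) (volume_Bx_lt_top _ _ _ _) hF hFb)

/-- a bound on the integral over a box from bounds on the vertical lines -/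
lemma box_vert {x0 x1 y0 y1 : ℝ} (hx : x0 ≤ x1) {F : ℝ × ℝ → ℝ} (hF : Measurable F) {B : ℝ}
    (hFb : ∀ z ∈ Bx x0 x1 y0 y1, |F z| ≤ B) {R : ℝ}
    (hR : ∀ x ∈ Set.Icc x0 x1, |∫ y in Set.Ioc y0 y1, F (x, y)| ≤ R) :
    |∫ z in Bx x0 x1 y0 y1, F z| ≤ (x1 - x0) * R := by
  rw [box_prod hF hFb]
  have h := norm_setIntegral_le_of_norm_le_const (μ := volume) (s := Set.Icc x0 x1)
    (f := fun x => ∫ y in Set.Icc y0 y1, F (x, y)) (C := R) measure_Icc_lt_top
    (fun x hx' => by
      rw [Real.norm_eq_abs, integral_Icc_eq_integral_Ioc]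
      exact hR x hx')
  rw [Real.norm_eq_abs, Real.volume_real_Icc_of_le hx] at h
  linarith

/-- a bound on the integral over a box from bounds on the lines on which a level is constant -/
theorem shear_bound {x0 x1 y0 y1 : ℝ} {p : ℕ} (hp : 1 ≤ p)
    {w : ℝ → ℝ} (hw : Measurable w) (hwb : ∀ u, |w u| ≤ 1) {F : ℝ × ℝ → ℝ} (hF : Measurable F)
    (hFb : ∀ z ∈ Bx x0 x1 y0 y1, |F z| ≤ 1) {R : ℝ} (hR0 : 0 ≤ R)
    (hR : ∀ u α β : ℝ, x0 ≤ α → α ≤ β → β ≤ x1 → u - p * α ≤ y1 → y0 ≤ u - p * β →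
      |∫ x in Set.Ioc α β, F (x, u - p * x)| ≤ R) :
    |∫ z in Bx x0 x1 y0 y1, w (p * z.1 + z.2) * F z| ≤
      (∫ u in Set.Icc (p * x0 + y0) (p * x1 + y1), |w u|) * R := by
  have hp' : (1 : ℝ) ≤ p := by exact_mod_cast hp
  have hp0 : (0 : ℝ) < p := by linarith
  set Bo := Bx x0 x1 y0 y1 with hBo
  set U := Set.Icc (p * x0 + y0) (p * x1 + y1) with hU
  have hBm : MeasurableSet Bo := measurableSet_Bx _ _ _ _
  have hmW : Measurable fun z : ℝ × ℝ => w (p * z.1 + z.2) * F z :=
    (hw.comp (by fun_prop)).mul hF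
  set H : ℝ × ℝ → ℝ := Bo.indicator (fun z => w (p * z.1 + z.2) * F z) with hH
  have hHm : Measurable H := hmW.indicator hBm
  have hH1 : ∀ z, |H z| ≤ 1 := by
    intro z
    by_cases hz : z ∈ Bo
    · rw [hH, Set.indicator_of_mem hz, abs_mul]
      exact mul_le_one₀ (hwb _) (abs_nonneg _) (hFb z hz)
    · rw [hH, Set.indicator_of_notMem hz]
      simp
  have hmem : ∀ x u : ℝ, (x, u - p * x) ∈ Bo → x ∈ Set.Icc x0 x1 ∧ u ∈ U := by
    intro x u hxu
    rw [hBo, Bx, Set.prodMk_mem_set_prod_eq] at hxu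
    obtain ⟨⟨h1, h2⟩, h3, h4⟩ := hxu
    refine ⟨⟨h1, h2⟩, ?_, ?_⟩
    · have := mul_le_mul_of_nonneg_left h1 hp0.le
      linarith
    · have := mul_le_mul_of_nonneg_left h2 hp0.le
      linarith
  have hHi : Integrable H := by
    rw [hH, integrable_indicator_iff hBm]
    refine int_of_bdd hBm (volume_Bx_lt_top _ _ _ _) hmW (B := 1) fun z hz => ?_
    rw [abs_mul]
    exact mul_le_one₀ (hwb _) (abs_nonneg _) (hFb z hz)
  have hmap : Measurable fun z : ℝ × ℝ => (z.1, z.2 - p * z.1) := by fun_prop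
  set Hs : ℝ × ℝ → ℝ := fun z => H (z.1, z.2 - p * z.1) with hHs
  have hHsm : Measurable Hs := hHm.comp hmap
  have hHs0 : ∀ z, z ∉ Set.Icc x0 x1 ×ˢ U → Hs z = 0 := by
    intro z hz
    simp only [hHs, hH]
    refine Set.indicator_of_notMem (fun h => hz ?_) _
    exact Set.mem_prod.2 (hmem _ _ h)
  have hHsi : Integrable Hs := by
    have h1 : Hs = (Set.Icc x0 x1 ×ˢ U).indicator Hs := by
      ext z
      by_cases hz : z ∈ Set.Icc x0 x1 ×ˢ U
      · rw [Set.indicator_of_mem hz]
      · rw [Set.indicator_of_notMem hz, hHs0 z hz]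
    rw [h1, integrable_indicator_iff (measurableSet_Icc.prod measurableSet_Icc)]
    refine int_of_bdd (measurableSet_Icc.prod measurableSet_Icc) ?_ hHsm (B := 1) fun z _ => hH1 _
    exact volume_Bx_lt_top _ _ _ _
  have e1 : ∫ z in Bo, w (p * z.1 + z.2) * F z = ∫ u, ∫ x, Hs (x, u) := by
    rw [← integral_indicator hBm]
    change ∫ z, H z = _
    rw [Measure.volume_eq_prod, integral_prod H hHi]
    have h2 : ∀ x : ℝ, ∫ y, H (x, y) = ∫ u, Hs (x, u) := by
      intro x
      exact (integral_sub_right_eq_self (fun y => H (x, y)) (p * x)).symm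
    rw [integral_congr_ae (Filter.Eventually.of_forall h2)]
    exact integral_integral_swap (f := fun x u => Hs (x, u)) hHsi
  have hslice : ∀ u, ‖∫ x, Hs (x, u)‖ ≤ U.indicator (fun u => |w u| * R) u := by
    intro u
    by_cases hu : u ∈ U
    · rw [Set.indicator_of_mem hu, Real.norm_eq_abs]
      set α := max x0 ((u - y1) / p) with hα
      set β := min x1 ((u - y0) / p) with hβ
      have h3 : ∀ x, Hs (x, u) = (Set.Icc α β).indicator (fun x => w u * F (x, u - p * x)) x := by
        intro x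
        have hiff : (x, u - p * x) ∈ Bo ↔ x ∈ Set.Icc α β := by
          rw [hBo, Bx, Set.prodMk_mem_set_prod_eq, Set.mem_Icc, Set.mem_Icc, Set.mem_Icc, hα, hβ, max_le_iff,
            le_min_iff, div_le_iff₀ hp0, le_div_iff₀ hp0]
          constructor
          · rintro ⟨⟨h1, h2⟩, h3, h4⟩
            exact ⟨⟨h1, by linarith⟩, h2, by linarith⟩
          · rintro ⟨⟨h1, h2⟩, h3, h4⟩
            exact ⟨⟨h1, h3⟩, by linarith, by linarith⟩
        simp only [hHs, hH]
        by_cases hxx : x ∈ Set.Icc α β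
        · rw [Set.indicator_of_mem hxx, Set.indicator_of_mem (hiff.2 hxx)]
          simp only
          rw [show (p : ℝ) * x + (u - p * x) = u by ring]
        · rw [Set.indicator_of_notMem hxx, Set.indicator_of_notMem (fun h => hxx (hiff.1 h))]
      simp_rw [h3]
      rw [integral_indicator measurableSet_Icc, integral_const_mul, abs_mul]
      refine mul_le_mul_of_nonneg_left ?_ (abs_nonneg _)
      rcases le_total α β with hab | hab
      · rw [integral_Icc_eq_integral_Ioc]
        refine hR u α β (le_max_left _ _) hab (min_le_left _ _) ?_ ?_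
        · have := le_max_right x0 ((u - y1) / p)
          rw [div_le_iff₀ hp0] at this
          linarith
        · have := min_le_right x1 ((u - y0) / p)
          rw [le_div_iff₀ hp0] at this
          linarith
      · rw [integral_Icc_eq_integral_Ioc, Set.Ioc_eq_empty (by linarith), Measure.restrict_empty,
          integral_zero_measure, abs_zero]
        exact hR0
    · rw [Set.indicator_of_notMem hu]
      have h3 : ∀ x, Hs (x, u) = 0 := fun x => hHs0 _ fun h => hu (Set.mem_prod.1 h).2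
      simp_rw [h3]
      simp
  have hwi : IntegrableOn (fun u => |w u| * R) U := by
    refine Measure.integrableOn_of_bounded (by rw [hU]; exact measure_Icc_lt_top.ne)
      ((hw.abs.mul_const R).aestronglyMeasurable) (M := R) (Filter.Eventually.of_forall fun u => ?_)
    rw [Real.norm_eq_abs, abs_mul, abs_abs, abs_of_nonneg hR0]
    exact mul_le_of_le_one_left hR0 (hwb u)
  have h5 := norm_integral_le_of_norm_le (hwi.integrable_indicator (by rw [hU]; exact measurableSet_Icc))
    (Filter.Eventually.of_forall hslice)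
  rw [integral_indicator (by rw [hU]; exact measurableSet_Icc), integral_mul_const, ← e1,
    Real.norm_eq_abs] at h5
  exact h5

end Pool.Agent.Helper46K9.CL
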