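import Mathlib
import Pool.Agent.Helper46K9.CL.E

set_option autoImplicit false

/-!
# Correlation estimates over a box
-/

namespace Pool.Agent.Helper46K9.CL

open MeasureTheory Filter Topology
open Pool.Agent.H305R2 (ff NN LL gg measurable_ff measurable_gg ff_nonneg ff_le_one LL_cont LL_nonneg
  LL_le_one abs_gg_le_one measurable_NN)
open Pool.Agent.W66 (mono_var NN_mono NN_le ff_diff LL_lip ii_of_bdd far_abs)

lemma slice_mul (f : ℝ → ℝ) {d : ℝ} (hd : 0 < d) (u : ℝ) {α β : ℝ} (h : α ≤ β) :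
    ∫ x in Set.Ioc α β, f (u + d * x) = d⁻¹ * ∫ v in Set.Ioc (u + d * α) (u + d * β), f v := by
  rw [← intervalIntegral.integral_of_le h, ← intervalIntegral.integral_of_le (by nlinarith)]
  have h3 := intervalIntegral.integral_comp_add_mul (a := α) (b := β) f hd.ne' u
  rw [smul_eq_mul] at h3
  exact h3

lemma slice_add (f : ℝ → ℝ) (u : ℝ) {α β : ℝ} (h : α ≤ β) :
    ∫ x in Set.Ioc α β, f (u + x) = ∫ v in Set.Ioc (u + α) (u + β), f v := by
  have := slice_mul f one_pos u h
  simpa using this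

lemma abs_ff_le_one (p : ℕ) (u : ℝ) : |ff p u| ≤ 1 := by
  rw [abs_of_nonneg (ff_nonneg p u)]
  exact ff_le_one p u

/-- the level -/
lemma m_lev (q : ℕ) : Measurable fun z : ℝ × ℝ => (q : ℝ) * z.1 + z.2 := by fun_prop

variable {x0 x1 y0 y1 C : ℝ}

theorem one_box (hx0 : 0 < x0) (hx : x0 ≤ x1) (hy : y0 ≤ y1) (hC : 0 ≤ C) :
    ∃ κ K : ℝ, 0 < κ ∧ 0 < K ∧ ∃ P : ℕ, 3 ≤ P ∧ ∀ q ≥ P, ∀ (ξ θ τ : ℝ → ℝ) (S : Finset ℕ),
      Adm x0 x1 C ξ θ τ → (∀ p ∈ S, (p : ℝ) ≤ κ * (q / Real.log q)) →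
      |∫ z in Bx x0 x1 y0 y1, tf ξ θ τ S z.1 z.2 * gg q (q * z.1 + z.2)| ≤
        K * (Real.log q / q ^ 2) ∧
      (∀ p : ℕ, P ≤ p → p < q →
        |∫ z in Bx x0 x1 y0 y1, gg p (p * z.1 + z.2) *
          (tf ξ θ τ S z.1 z.2 * gg q (q * z.1 + z.2))| ≤
        K * (Real.log p * (Real.log q / q ^ 2) * (1 / p + 1 / ((q : ℝ) - p)))) := by
  obtain ⟨κ, K, hκ, hK, P, hP3, hP⟩ := lines (y0 := y0) (y1 := y1) hx0 hx hC
  obtain ⟨K2, hK2, hb⟩ := Pool.Agent.H305R2.bounds (c := x0 / 2) (by positivity)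
  have e2 : ∀ᶠ q : ℕ in atTop, |y0| + 1 ≤ x0 / 2 * (q : ℝ) :=
    (tendsto_natCast_atTop_atTop.const_mul_atTop (show 0 < x0 / 2 by positivity)).eventually_ge_atTop _
  obtain ⟨P2, hP2⟩ := eventually_atTop.1 (hb.and e2)
  set X := x1 - x0 with hX
  set D := y1 - y0 with hD
  have hX0 : 0 ≤ X := by rw [hX]; linarith
  have hD0 : 0 ≤ D := by rw [hD]; linarith
  set K' := X * (D + 1) * K + K2 * (X + D + 1) * ((D + 1) * K) + 1 with hK'
  refine ⟨κ, K', hκ, by positivity, max P P2, hP3.trans (le_max_left _ _),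
    fun q hq ξ θ τ S hA hS => ?_⟩
  obtain ⟨h1, h2⟩ := hP q ((le_max_left _ _).trans hq) ξ θ τ S hA hS
  have hq3 : 3 ≤ q := hP3.trans ((le_max_left _ _).trans hq)
  have hq3' : (3 : ℝ) ≤ q := by exact_mod_cast hq3
  have hlq : 0 ≤ Real.log q := Real.log_natCast_nonneg q
  have hr0 : 0 ≤ Real.log q / (q : ℝ) ^ 2 := by positivity
  have hFm : Measurable fun z : ℝ × ℝ => tf ξ θ τ S z.1 z.2 * gg q (q * z.1 + z.2) :=
    (hA.measurable S).mul ((measurable_gg q).comp (m_lev q))
  have hFb : ∀ z ∈ Bx x0 x1 y0 y1, |tf ξ θ τ S z.1 z.2 * gg q (q * z.1 + z.2)| ≤ 1 := by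
    intro z hz
    rw [abs_mul]
    exact mul_le_one₀ (hA.bdd S (Set.mem_prod.1 hz).1 _) (abs_nonneg _) (abs_gg_le_one _ _)
  constructor
  · have h3 := box_vert hx hFm hFb (R := (D + 1) * (K * (Real.log q / q ^ 2)))
      (fun x hx' => h1 x hx' y0 y1 le_rfl hy le_rfl)
    refine h3.trans ?_
    have e : (x1 - x0) * ((D + 1) * (K * (Real.log q / (q : ℝ) ^ 2))) =
        X * (D + 1) * K * (Real.log q / (q : ℝ) ^ 2) := by rw [hX]; ring
    rw [e]
    refine mul_le_mul_of_nonneg_right ?_ hr0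
    have : 0 ≤ K2 * (X + D + 1) * ((D + 1) * K) := by positivity
    linarith
  · intro p hpP hpq
    have hpq' : (p : ℝ) + 1 ≤ q := by exact_mod_cast hpq
    have hp3 : 3 ≤ p := hP3.trans ((le_max_left _ _).trans hpP)
    have hp3' : (3 : ℝ) ≤ p := by exact_mod_cast hp3
    have hp0 : (0 : ℝ) < p := by linarith
    have hd1 : 1 ≤ (q : ℝ) - p := by linarith
    have hlp : 0 ≤ Real.log p := Real.log_natCast_nonneg p
    obtain ⟨⟨-, -, -, hb4⟩, e2p⟩ := hP2 p ((le_max_right _ _).trans hpP)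
    have hn0 := neg_abs_le y0
    set R := (D + 1) * K * (Real.log q / (q : ℝ) ^ 2) * (1 / p + 1 / ((q : ℝ) - p)) with hR
    have hR0 : 0 ≤ R := by
      have : 0 ≤ 1 / ((q : ℝ) - p) := by positivity
      positivity
    have h3 := shear_bound (x0 := x0) (x1 := x1) (y0 := y0) (y1 := y1) (p := p) (by omega)
      (measurable_gg p) (abs_gg_le_one p) hFm hFb (R := R) hR0 (by
        intro u α β hα hab hβ hu1 hu0
        have h4 := h2 p (by omega) hpq u α β hα hab hβ hu1 hu0
        have h5 : β - α ≤ D / p := by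
          rw [le_div_iff₀ hp0]
          rw [hD]
          linarith
        have e5 : ∀ x : ℝ, (q : ℝ) * x + (u - p * x) = u + ((q : ℝ) - p) * x := fun x => by ring
        simp only [e5]
        refine h4.trans ?_
        have h6 : β - α + 1 / ((q : ℝ) - p) ≤ (D + 1) * (1 / p + 1 / ((q : ℝ) - p)) := by
          have h7 : 0 ≤ 1 / ((q : ℝ) - p) := by positivity
          have h8 : 0 ≤ 1 / (p : ℝ) := by positivity
          have h9 : D / p = D * (1 / p) := by ring
          have h10 : 0 ≤ D * (1 / ((q : ℝ) - p)) := mul_nonneg hD0 h7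
          linarith
        calc (β - α + 1 / ((q : ℝ) - p)) * (K * (Real.log q / (q : ℝ) ^ 2)) ≤
            (D + 1) * (1 / p + 1 / ((q : ℝ) - p)) * (K * (Real.log q / (q : ℝ) ^ 2)) :=
              mul_le_mul_of_nonneg_right h6 (by positivity)
          _ = R := by rw [hR]; ring)
    refine h3.trans ?_
    have h6 : ∫ u in Set.Icc (p * x0 + y0) (p * x1 + y1), |gg p u| ≤ K2 * (X + D + 1) * Real.log p := by
      rw [integral_Icc_eq_integral_Ioc]
      have hpx := mul_le_mul_of_nonneg_left hx hp0.le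
      refine (hb4 _ _ (by linarith) (by linarith)).trans ?_
      have e6 : (p : ℝ) * x1 + y1 - (p * x0 + y0) = p * X + D := by rw [hX, hD]; ring
      rw [e6]
      have h7 : (p : ℝ) * X + D + 1 / p ≤ p * (X + D + 1) := by
        have h8 : 1 / (p : ℝ) ≤ 1 := by rw [div_le_one hp0]; linarith
        have h9 : D ≤ p * D := le_mul_of_one_le_left hD0 (by linarith)
        linarith
      calc K2 * (p * X + D + 1 / p) * (Real.log p / p) ≤ K2 * (p * (X + D + 1)) * (Real.log p / p) := by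
            refine mul_le_mul_of_nonneg_right (mul_le_mul_of_nonneg_left h7 hK2.le) (by positivity)
        _ = K2 * (X + D + 1) * Real.log p := by field_simp
    refine (mul_le_mul_of_nonneg_right h6 hR0).trans ?_
    have e7 : K2 * (X + D + 1) * Real.log p * R = K2 * (X + D + 1) * ((D + 1) * K) *
        (Real.log p * (Real.log q / q ^ 2) * (1 / p + 1 / ((q : ℝ) - p))) := by rw [hR]; ring
    rw [e7]
    refine mul_le_mul_of_nonneg_right ?_ ?_
    · have : 0 ≤ X * (D + 1) * K := by positivity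
      linarith
    · have h7 : 0 ≤ 1 / ((q : ℝ) - p) := by positivity
      positivity

/-- upper bounds -/
theorem up_box (hx0 : 0 < x0) (hx : x0 ≤ x1) (hy : y0 ≤ y1) :
    ∃ K : ℝ, 0 < K ∧ ∃ P : ℕ, 3 ≤ P ∧ ∀ q ≥ P,
      (∀ z ∈ Bx x0 x1 y0 y1, LL q (q * z.1 + z.2) ≤ K * (Real.log q / q)) ∧
      ∫ z in Bx x0 x1 y0 y1, ff q (q * z.1 + z.2) ≤ K * (Real.log q / q) ∧
      (∀ p : ℕ, P ≤ p → p < q →
        ∫ z in Bx x0 x1 y0 y1, ff p (p * z.1 + z.2) * ff q (q * z.1 + z.2) ≤
        K * (Real.log p / p * (Real.log q / q))) := by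
  obtain ⟨K2, hK2, hb⟩ := Pool.Agent.H305R2.bounds (c := x0 / 2) (by positivity)
  have e2 : ∀ᶠ q : ℕ in atTop, |y0| + 1 ≤ x0 / 2 * (q : ℝ) :=
    (tendsto_natCast_atTop_atTop.const_mul_atTop (show 0 < x0 / 2 by positivity)).eventually_ge_atTop _
  obtain ⟨P2, hP2⟩ := eventually_atTop.1 (hb.and e2)
  set X := x1 - x0 with hX
  set D := y1 - y0 with hD
  have hX0 : 0 ≤ X := by rw [hX]; linarith
  have hD0 : 0 ≤ D := by rw [hD]; linarith
  set K' := K2 + X * (D + 1) * K2 + K2 * (X + D + 1) * ((D + 1) * K2) with hK'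
  have ha1 : 0 ≤ X * (D + 1) * K2 := by positivity
  have ha2 : 0 ≤ K2 * (X + D + 1) * ((D + 1) * K2) := by positivity
  refine ⟨K', by positivity, max 3 P2, le_max_left _ _, fun q hq => ?_⟩
  obtain ⟨⟨hb1, hb2, -, -⟩, e2q⟩ := hP2 q ((le_max_right _ _).trans hq)
  have hq3 : 3 ≤ q := (le_max_left _ _).trans hq
  have hq3' : (3 : ℝ) ≤ q := by exact_mod_cast hq3
  have hq0 : (0 : ℝ) < q := by linarith
  have hlq : 0 ≤ Real.log q := Real.log_natCast_nonneg q
  have hr0 : 0 ≤ Real.log q / (q : ℝ) := by positivity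
  have hn0 := neg_abs_le y0
  have h1q : 1 / (q : ℝ) ≤ 1 := by rw [div_le_one hq0]; linarith
  have hFm : Measurable fun z : ℝ × ℝ => ff q (q * z.1 + z.2) := (measurable_ff q).comp (m_lev q)
  have hFb : ∀ z ∈ Bx x0 x1 y0 y1, |ff q (q * z.1 + z.2)| ≤ 1 := fun z _ => abs_ff_le_one _ _
  refine ⟨?_, ?_, ?_⟩
  · intro z hz
    obtain ⟨h1, h2⟩ := Set.mem_prod.1 hz
    refine (hb1 _ ?_).trans (mul_le_mul_of_nonneg_right (by linarith) hr0)
    have : (q : ℝ) * x0 ≤ q * z.1 := mul_le_mul_of_nonneg_left h1.1 hq0.le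
    linarith [h2.1]
  · have h3 := box_vert hx hFm hFb (R := (D + 1) * K2 * (Real.log q / q)) (by
      intro x hx'
      simp only
      rw [slice_add (ff q) (q * x) hy, abs_of_nonneg (integral_nonneg fun _ => ff_nonneg _ _)]
      have : (q : ℝ) * x0 ≤ q * x := mul_le_mul_of_nonneg_left hx'.1 hq0.le
      refine (hb2 _ _ (by linarith) (by linarith)).trans ?_
      have e6 : (q : ℝ) * x + y1 - (q * x + y0) = D := by rw [hD]; ring
      rw [e6]
      calc K2 * (D + 1 / q) * (Real.log q / q) ≤ K2 * (D + 1) * (Real.log q / q) := by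
            refine mul_le_mul_of_nonneg_right (mul_le_mul_of_nonneg_left (by linarith) hK2.le) hr0
        _ = _ := by ring)
    refine (le_abs_self _).trans (h3.trans ?_)
    have e : (x1 - x0) * ((D + 1) * K2 * (Real.log q / (q : ℝ))) =
        X * (D + 1) * K2 * (Real.log q / (q : ℝ)) := by rw [hX]; ring
    rw [e]
    exact mul_le_mul_of_nonneg_right (by linarith) hr0
  · intro p hpP hpq
    have hpq' : (p : ℝ) + 1 ≤ q := by exact_mod_cast hpq
    have hp3 : 3 ≤ p := (le_max_left _ _).trans hpP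
    have hp3' : (3 : ℝ) ≤ p := by exact_mod_cast hp3
    have hp0 : (0 : ℝ) < p := by linarith
    have hd1 : 1 ≤ (q : ℝ) - p := by linarith
    have hlp : 0 ≤ Real.log p := Real.log_natCast_nonneg p
    obtain ⟨⟨-, hb2p, -, -⟩, e2p⟩ := hP2 p ((le_max_right _ _).trans hpP)
    set d := (q : ℝ) - p with hd
    have hd0 : 0 < d := by linarith
    set R := (D + 1) * K2 * (1 / p) * (Real.log q / q) with hR
    have hR0 : 0 ≤ R := by positivity
    have h3 := shear_bound (x0 := x0) (x1 := x1) (y0 := y0) (y1 := y1) (p := p) (by omega)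
      (measurable_ff p) (abs_ff_le_one p) hFm hFb (R := R) hR0 (by
        intro u α β hα hab hβ hu1 hu0
        have h5 : β - α ≤ D / p := by
          rw [le_div_iff₀ hp0]
          rw [hD]
          linarith
        have e5 : ∀ x : ℝ, (q : ℝ) * x + (u - p * x) = u + d * x := fun x => by rw [hd]; ring
        simp only [e5]
        rw [slice_mul (ff q) hd0 u hab, abs_of_nonneg (mul_nonneg (inv_nonneg.2 hd0.le)
          (integral_nonneg fun _ => ff_nonneg _ _))]
        have h6 : (p : ℝ) * α ≤ p * β := mul_le_mul_of_nonneg_left hab hp0.le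
        have h7 : (q : ℝ) * x0 ≤ q * α := mul_le_mul_of_nonneg_left hα hq0.le
        have h8 := hb2 (u + d * α) (u + d * β) (by rw [hd]; linarith)
          (by linarith [mul_le_mul_of_nonneg_left hab hd0.le])
        refine (mul_le_mul_of_nonneg_left h8 (inv_nonneg.2 hd0.le)).trans ?_
        have e8 : u + d * β - (u + d * α) = d * (β - α) := by ring
        have e9 : d⁻¹ * (K2 * (u + d * β - (u + d * α) + 1 / q) * (Real.log q / q)) =
            K2 * ((β - α) + 1 / (d * q)) * (Real.log q / q) := by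
          rw [e8]
          field_simp
        rw [e9, hR]
        refine mul_le_mul_of_nonneg_right ?_ hr0
        have h10 : 1 / (d * q) ≤ 1 / p := by
          refine one_div_le_one_div_of_le hp0 ?_
          have := le_mul_of_one_le_left hq0.le hd1
          linarith
        have h11 : D / p = D * (1 / p) := by ring
        calc K2 * (β - α + 1 / (d * q)) ≤ K2 * (D * (1 / p) + 1 / p) :=
              mul_le_mul_of_nonneg_left (by linarith) hK2.le
          _ = (D + 1) * K2 * (1 / p) := by ring)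
    refine (le_abs_self _).trans (h3.trans ?_)
    have h6 : ∫ u in Set.Icc (p * x0 + y0) (p * x1 + y1), |ff p u| ≤ K2 * (X + D + 1) * Real.log p := by
      rw [integral_Icc_eq_integral_Ioc]
      simp only [abs_of_nonneg (ff_nonneg p _)]
      have hpx := mul_le_mul_of_nonneg_left hx hp0.le
      refine (hb2p _ _ (by linarith) (by linarith)).trans ?_
      have e6 : (p : ℝ) * x1 + y1 - (p * x0 + y0) = p * X + D := by rw [hX, hD]; ring
      rw [e6]
      have h7 : (p : ℝ) * X + D + 1 / p ≤ p * (X + D + 1) := by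
        have h8 : 1 / (p : ℝ) ≤ 1 := by rw [div_le_one hp0]; linarith
        have h9 : D ≤ p * D := le_mul_of_one_le_left hD0 (by linarith)
        linarith
      calc K2 * (p * X + D + 1 / p) * (Real.log p / p) ≤ K2 * (p * (X + D + 1)) * (Real.log p / p) := by
            refine mul_le_mul_of_nonneg_right (mul_le_mul_of_nonneg_left h7 hK2.le) (by positivity)
        _ = K2 * (X + D + 1) * Real.log p := by field_simp
    refine (mul_le_mul_of_nonneg_right h6 hR0).trans ?_
    have e7 : K2 * (X + D + 1) * Real.log p * R = K2 * (X + D + 1) * ((D + 1) * K2) *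
        (Real.log p / p * (Real.log q / q)) := by rw [hR]; ring
    rw [e7]
    exact mul_le_mul_of_nonneg_right (by linarith) (by positivity)

end Pool.Agent.Helper46K9.CL
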