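import Mathlib
import Pool.Agent.W66.SC

set_option autoImplicit false

/-!
# Sums over near triples of primes
-/

namespace Pool.Agent.Helper46K9.CL

open Filter Topology Finset

/-- the weight of a prime -/
noncomputable def w (p : ℕ) : ℝ := Real.log p / p

lemma w_nonneg (p : ℕ) : 0 ≤ w p := by
  unfold w
  have := Real.log_natCast_nonneg p
  positivity

lemma w_le_one (p : ℕ) : w p ≤ 1 := by
  unfold w
  rcases Nat.eq_zero_or_pos p with h | h
  · rw [h]; simp
  · have h1 : (0 : ℝ) < p := by exact_mod_cast h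
    rw [div_le_one h1]
    linarith [Real.log_le_sub_one_of_pos h1]

/-- the primes from `P` to `N` -/
def A (P N : ℕ) : Finset ℕ := (Finset.Icc 1 N).filter (fun p => p.Prime ∧ P ≤ p)

/-- the near primes -/
noncomputable def NS (κ : ℝ) (P q : ℕ) : Finset ℕ :=
  (Finset.range q).filter (fun p => p.Prime ∧ P ≤ p ∧ κ * (q / Real.log q) < p)

lemma lnt' : Tendsto (fun n : ℕ => Real.log n) atTop atTop :=
  Real.tendsto_log_atTop.comp tendsto_natCast_atTop_atTop

lemma llnt : Tendsto (fun n : ℕ => Real.log (Real.log n)) atTop atTop :=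
  Real.tendsto_log_atTop.comp lnt'

/-- the sum of the weights -/
lemma sum_w : ∃ C : ℝ, 0 ≤ C ∧ ∀ P N : ℕ, 1 ≤ N →
    |∑ q ∈ A P N, w q - Real.log N| ≤ C + P := by
  obtain ⟨C, hC⟩ := Pool.Agent.Helper601.Mertens.mertens_log
  have hC0 : 0 ≤ C := (abs_nonneg _).trans (hC 1 le_rfl)
  refine ⟨C, hC0, fun P N hN => ?_⟩
  have h1 := hC N hN
  have h2 : ∑ q ∈ (Finset.Icc 1 N).filter Nat.Prime, Real.log q / (q : ℝ) =
      ∑ q ∈ A P N, w q + ∑ q ∈ ((Finset.Icc 1 N).filter Nat.Prime).filter (fun q => ¬ P ≤ q), w q := by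
    rw [← Finset.sum_filter_add_sum_filter_not _ (fun q => P ≤ q)]
    congr 1
    unfold A
    rw [Finset.filter_filter]
    rfl
  have h3 : ∑ q ∈ ((Finset.Icc 1 N).filter Nat.Prime).filter (fun q => ¬ P ≤ q), w q ≤ P := by
    calc _ ≤ ∑ q ∈ Finset.range P, (1 : ℝ) := by
          refine (Finset.sum_le_sum fun q _ => w_le_one q).trans ?_
          refine Finset.sum_le_sum_of_subset_of_nonneg ?_ fun _ _ _ => zero_le_one
          intro q hq
          rw [Finset.mem_filter] at hq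
          rw [Finset.mem_range]
          omega
      _ = P := by simp
  have h4 : 0 ≤ ∑ q ∈ ((Finset.Icc 1 N).filter Nat.Prime).filter (fun q => ¬ P ≤ q), w q :=
    Finset.sum_nonneg fun q _ => w_nonneg q
  rw [h2] at h1
  rw [abs_le] at h1 ⊢
  constructor <;> linarith [h1.1, h1.2]

/-- primes in a short interval -/
lemma short_count : ∃ C : ℝ, 1 ≤ C ∧ ∀ p q : ℕ, p + 2 ≤ q → ∀ S : Finset ℕ,
    (∀ m ∈ S, m.Prime ∧ p ≤ m ∧ m < q) → (S.card : ℝ) ≤ C * ((q : ℝ) - p) / Real.log ((q : ℝ) - p) := by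
  obtain ⟨C0, hC0, hBT⟩ := Pool.Agent.Helper601.brun_titchmarsh
  refine ⟨C0, hC0, fun p q hpq S hS => ?_⟩
  have h1 := hBT p 1 (q - p) (by omega) (Or.inl rfl)
  rw [Nat.cast_sub (by omega)] at h1
  refine le_trans ?_ h1
  have hsub : S ⊆ ((Finset.range (q - p)).filter (fun k => (p + k * 1).Prime)).image (fun k => p + k) := by
    intro m hm
    obtain ⟨h2, h3, h4⟩ := hS m hm
    rw [Finset.mem_image]
    refine ⟨m - p, ?_, by omega⟩
    rw [Finset.mem_filter, Finset.mem_range]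
    refine ⟨by omega, ?_⟩
    rw [mul_one, Nat.add_sub_cancel' h3]
    exact h2
  exact_mod_cast (Finset.card_le_card hsub).trans Finset.card_image_le

/-- the exceptional close pairs -/
lemma close_sum (p : ℕ) (hp : 1 ≤ p) (S : Finset ℕ) (hS : ∀ q ∈ S, p < q ∧ (q - p) ^ 4 < p) :
    ∑ q ∈ S, ((q : ℝ) - p) ≤ Real.sqrt p := by
  set s := Nat.sqrt (Nat.sqrt p) with hs
  have hle : ∀ q ∈ S, q - p ≤ s := by
    intro q hq
    obtain ⟨h1, h2⟩ := hS q hq
    rw [hs, Nat.le_sqrt', Nat.le_sqrt']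
    calc ((q - p) ^ 2) ^ 2 = (q - p) ^ 4 := by ring
      _ ≤ p := h2.le
  have hcard : S.card ≤ s := by
    have h1 : S ⊆ (Finset.Icc 1 s).image (fun k => p + k) := by
      intro q hq
      rw [Finset.mem_image]
      have := hle q hq
      have h2 := (hS q hq).1
      exact ⟨q - p, by rw [Finset.mem_Icc]; omega, by omega⟩
    have h2 := (Finset.card_le_card h1).trans Finset.card_image_le
    rwa [Nat.card_Icc, Nat.add_sub_cancel] at h2
  have h1 : ∑ q ∈ S, ((q : ℝ) - p) ≤ ∑ _q ∈ S, (s : ℝ) := by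
    refine Finset.sum_le_sum fun q hq => ?_
    have h2 := hle q hq
    have h3 := (hS q hq).1
    have h4 : q ≤ s + p := by omega
    have h5 : (q : ℝ) ≤ s + p := by exact_mod_cast h4
    linarith
  rw [Finset.sum_const, nsmul_eq_mul] at h1
  have h2 : (S.card : ℝ) * s ≤ s * s := by
    refine mul_le_mul_of_nonneg_right ?_ (Nat.cast_nonneg _)
    exact_mod_cast hcard
  have h3 : (s : ℝ) * s ≤ Real.sqrt p := by
    rw [Real.le_sqrt (mul_nonneg (Nat.cast_nonneg _) (Nat.cast_nonneg _)) (Nat.cast_nonneg p)]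
    have h4 : s * s ≤ Nat.sqrt p := Nat.sqrt_le _
    have h5 : Nat.sqrt p * Nat.sqrt p ≤ p := Nat.sqrt_le _
    have h6 : (s * s) ^ 2 ≤ p := by
      calc (s * s) ^ 2 = (s * s) * (s * s) := by ring
        _ ≤ Nat.sqrt p * Nat.sqrt p := Nat.mul_le_mul h4 h4
        _ ≤ p := h5
    exact_mod_cast h6
  linarith

lemma w_anti {p m : ℕ} (hp : 3 ≤ p) (hpm : p ≤ m) : w m ≤ w p := by
  have hp' : (3 : ℝ) ≤ p := by exact_mod_cast hp
  have hpm' : (p : ℝ) ≤ m := by exact_mod_cast hpm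
  have he : Real.exp 1 < 3 := by
    have := Real.exp_one_lt_d9
    linarith
  exact Real.log_div_self_antitoneOn (show (p : ℝ) ∈ {x | Real.exp 1 ≤ x} from (by linarith :
    Real.exp 1 ≤ (p : ℝ))) (show (m : ℝ) ∈ {x | Real.exp 1 ≤ x} from (by linarith :
    Real.exp 1 ≤ (m : ℝ))) hpm'

/-- eventual size conditions -/
lemma size_cond {κ C3 : ℝ} (hκ : 0 < κ) (hC3 : 0 < C3) : ∀ᶠ p : ℕ in atTop,
    4 * C3 * (Real.log p) ^ 2 * (4 * C3 * (Real.log p) ^ 2) ^ 3 ≤ (p : ℝ) ∧
    (Real.log p) ^ 2 ≤ κ ^ 2 * p ∧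
    2 * C3 * (Real.log p) ^ 2 ≤ (p : ℝ) := by
  have h1 : ∀ (k : ℕ) (c : ℝ), 0 < c → ∀ᶠ p : ℕ in atTop, c * (Real.log p) ^ k ≤ (p : ℝ) := by
    intro k c hc
    have h2 := (Real.isLittleO_pow_log_id_atTop (n := k)).bound (show (0 : ℝ) < 1 / c by positivity)
    have h3 : ∀ᶠ x : ℝ in atTop, c * (Real.log x) ^ k ≤ x := by
      filter_upwards [h2, eventually_ge_atTop 1] with x hx hx1
      rw [Real.norm_of_nonneg (by have := Real.log_nonneg hx1; positivity), id,
        Real.norm_of_nonneg (by linarith), one_div_mul_eq_div, le_div_iff₀ hc] at hx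
      linarith
    exact tendsto_natCast_atTop_atTop.eventually h3
  filter_upwards [h1 8 ((4 * C3) ^ 4) (by positivity), h1 2 (1 / κ ^ 2) (by positivity),
    h1 2 (2 * C3) (by positivity)] with p a1 a2 a3
  refine ⟨?_, ?_, a3⟩
  · refine le_trans (le_of_eq ?_) a1
    ring
  · rw [one_div_mul_eq_div, div_le_iff₀ (by positivity)] at a2
    linarith

end Pool.Agent.Helper46K9.CL
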