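import Mathlib
import Pool.Agent.Helper46K9.CL.Gs

set_option autoImplicit false

/-!
# The sum over near triples
-/

namespace Pool.Agent.Helper46K9.CL

open Filter Topology Finset

lemma sum_w_le : ∃ C : ℝ, 0 ≤ C ∧ ∀ P N : ℕ, 1 ≤ N → ∑ q ∈ A P N, w q ≤ Real.log N + C := by
  obtain ⟨C, hC⟩ := Pool.Agent.Helper601.Mertens.mertens_log
  have hC0 : 0 ≤ C := (abs_nonneg _).trans (hC 1 le_rfl)
  refine ⟨C, hC0, fun P N hN => ?_⟩
  have h1 := (abs_le.1 (hC N hN)).2
  have h2 : ∑ q ∈ A P N, w q ≤ ∑ q ∈ (Finset.Icc 1 N).filter Nat.Prime, Real.log q / (q : ℝ) := by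
    refine Finset.sum_le_sum_of_subset_of_nonneg ?_ fun q _ _ => w_nonneg q
    intro q hq
    unfold A at hq
    rw [Finset.mem_filter] at hq ⊢
    exact ⟨hq.1, hq.2.1⟩
  linarith

lemma mem_A {P N q : ℕ} : q ∈ A P N ↔ q ≤ N ∧ q.Prime ∧ P ≤ q := by
  unfold A
  rw [Finset.mem_filter, Finset.mem_Icc]
  constructor
  · rintro ⟨⟨_, h1⟩, h2, h3⟩
    exact ⟨h1, h2, h3⟩
  · rintro ⟨h1, h2, h3⟩
    exact ⟨⟨h2.one_lt.le, h1⟩, h2, h3⟩

lemma mem_NS {κ : ℝ} {P q p : ℕ} : p ∈ NS κ P q ↔ p < q ∧ p.Prime ∧ P ≤ p ∧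
    κ * (q / Real.log q) < p := by
  unfold NS
  rw [Finset.mem_filter, Finset.mem_range]

/-- the inner sum for a pair -/
lemma inner_sum {κ K C3 : ℝ} (hκ : 0 < κ) (hK : 0 ≤ K) (hC3 : 0 < C3) (P : ℕ) (T : ℕ → ℕ → ℕ → ℝ)
    (h1 : ∀ p m q : ℕ, P ≤ p → p < m → m < q → (q : ℝ) ≤ (p : ℝ) ^ 2 →
      C3 * (Real.log q * Real.log (Real.log q)) ≤ (q : ℝ) - p →
      T p m q ≤ K * (w p * w m * (Real.log q / ((q : ℝ) - p))))
    (h2 : ∀ p m q : ℕ, P ≤ p → p < m → m < q → T p m q ≤ K * (w p * w q)) :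
    ∃ K5 : ℝ, 0 ≤ K5 ∧ ∃ P' : ℕ, P ≤ P' ∧ 3 ≤ P' ∧ ∀ P'' ≥ P', ∀ q p : ℕ, p ∈ NS κ P'' q →
      ∑ m ∈ (NS κ P'' q).filter (fun m => p < m), T p m q ≤
        2 * K * (w q * (∑ m ∈ NS κ P'' q, w m) * w p) +
        (if p < q ∧ q < 2 * p then (K5 * w p ^ 2 + if (q - p) ^ 4 < p then ((q : ℝ) - p) * (K * w p ^ 2)
          else 0) else 0) := by
  obtain ⟨C0, hC0, hct⟩ := short_count
  obtain ⟨P1, hP1⟩ := eventually_atTop.1 ((size_cond hκ hC3).and ((lnt'.eventually_ge_atTop 1).and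
    (llnt.eventually_ge_atTop 0)))
  refine ⟨8 * C0 * K, by positivity, max P (max 3 P1), le_max_left _ _,
    (le_max_left _ _).trans (le_max_right _ _), fun P'' hP'' q p hp => ?_⟩
  obtain ⟨hpq, hpp, hPp, hκp⟩ := mem_NS.1 hp
  have hPp1 : P ≤ p := (le_max_left _ _).trans (hP''.trans hPp)
  have hp3 : 3 ≤ p := (le_max_left _ _).trans ((le_max_right _ _).trans (hP''.trans hPp))
  have hpP1 : P1 ≤ p := (le_max_right _ _).trans ((le_max_right _ _).trans (hP''.trans hPp))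
  obtain ⟨⟨s1, -, -⟩, l1, -⟩ := hP1 p hpP1
  obtain ⟨⟨-, s2, s3⟩, l2, l3⟩ := hP1 q (hpP1.trans hpq.le)
  have hp3' : (3 : ℝ) ≤ p := by exact_mod_cast hp3
  have hp0 : (0 : ℝ) < p := by linarith
  have hpq' : (p : ℝ) + 1 ≤ q := by exact_mod_cast hpq
  have hq0 : (0 : ℝ) < q := by linarith
  have hd0 : 0 < (q : ℝ) - p := by linarith
  have hwp := w_nonneg p
  have hwq := w_nonneg q
  have hlq0 : 0 < Real.log q := by linarith
  have hlp0 : 0 < Real.log p := by linarith
  have hll : Real.log (Real.log q) ≤ Real.log q := by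
    have := Real.log_le_sub_one_of_pos hlq0
    linarith
  have hlll : Real.log q * Real.log (Real.log q) ≤ (Real.log q) ^ 2 := by
    rw [sq]
    exact mul_le_mul_of_nonneg_left hll hlq0.le
  set Sm := (NS κ P'' q).filter (fun m => p < m) with hSm
  have hmem : ∀ m ∈ Sm, m.Prime ∧ p < m ∧ m < q := by
    intro m hm
    rw [hSm, Finset.mem_filter] at hm
    obtain ⟨a1, a2, a3, a4⟩ := mem_NS.1 hm.1
    exact ⟨a2, hm.2, a1⟩
  have hwsum : ∑ m ∈ Sm, w m ≤ ∑ m ∈ NS κ P'' q, w m :=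
    Finset.sum_le_sum_of_subset_of_nonneg (Finset.filter_subset _ _) fun m _ _ => w_nonneg m
  have hws0 : 0 ≤ ∑ m ∈ Sm, w m := Finset.sum_nonneg fun m _ => w_nonneg m
  have hfirst0 : 0 ≤ 2 * K * (w q * (∑ m ∈ NS κ P'' q, w m) * w p) := by
    have := hws0.trans hwsum
    positivity
  rcases Nat.lt_or_ge q (2 * p) with hq2 | hq2
  · rw [if_pos ⟨hpq, hq2⟩]
    have hlq2 : Real.log q ≤ 2 * Real.log p := by
      calc Real.log q ≤ Real.log ((p : ℝ) * p) := by
            refine Real.log_le_log hq0 ?_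
            have : (q : ℝ) ≤ 2 * p := by exact_mod_cast hq2.le
            nlinarith
        _ = _ := by rw [Real.log_mul hp0.ne' hp0.ne']; ring
    by_cases hc : (q - p) ^ 4 < p
    · rw [if_pos hc]
      have h3 : ∑ m ∈ Sm, T p m q ≤ ∑ _m ∈ Sm, K * w p ^ 2 := by
        refine Finset.sum_le_sum fun m hm => ?_
        obtain ⟨a1, a2, a3⟩ := hmem m hm
        refine (h2 p m q hPp1 a2 a3).trans ?_
        refine mul_le_mul_of_nonneg_left ?_ hK
        rw [sq]
        exact mul_le_mul_of_nonneg_left (w_anti hp3 hpq.le) hwp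
      rw [Finset.sum_const, nsmul_eq_mul] at h3
      have h4 : (Sm.card : ℝ) ≤ (q : ℝ) - p := by
        have h5 : Sm ⊆ Finset.Ioo p q := fun m hm => by
          obtain ⟨a1, a2, a3⟩ := hmem m hm
          rw [Finset.mem_Ioo]
          exact ⟨a2, a3⟩
        have h6 := Finset.card_le_card h5
        rw [Nat.card_Ioo] at h6
        have h7 : Sm.card + p ≤ q := by omega
        have h8 : (Sm.card : ℝ) + p ≤ q := by exact_mod_cast h7
        linarith
      have h5 : (Sm.card : ℝ) * (K * w p ^ 2) ≤ ((q : ℝ) - p) * (K * w p ^ 2) :=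
        mul_le_mul_of_nonneg_right h4 (by positivity)
      have h6 : 0 ≤ 8 * C0 * K * w p ^ 2 := by positivity
      linarith
    · rw [if_neg hc, add_zero]
      have hc' : p ≤ (q - p) ^ 4 := not_lt.1 hc
      have hcr : (p : ℝ) ≤ ((q : ℝ) - p) ^ 4 := by
        have h5 : ((p : ℕ) : ℝ) ≤ (((q - p) ^ 4 : ℕ) : ℝ) := by exact_mod_cast hc'
        rw [Nat.cast_pow, Nat.cast_sub hpq.le] at h5
        exact h5
      have hgap : 4 * C3 * (Real.log p) ^ 2 ≤ (q : ℝ) - p := by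
        by_contra hlt
        rw [not_le] at hlt
        have h6 : ((q : ℝ) - p) ^ 4 < (4 * C3 * (Real.log p) ^ 2) ^ 4 :=
          pow_lt_pow_left₀ hlt hd0.le (by norm_num)
        have e : (4 * C3 * (Real.log p) ^ 2) ^ 4 =
          4 * C3 * (Real.log p) ^ 2 * (4 * C3 * (Real.log p) ^ 2) ^ 3 := by ring
        rw [e] at h6
        linarith
      have hgap2 : C3 * (Real.log q * Real.log (Real.log q)) ≤ (q : ℝ) - p := by
        refine le_trans ?_ hgap
        have h6 : (Real.log q) ^ 2 ≤ (2 * Real.log p) ^ 2 := pow_le_pow_left₀ hlq0.le hlq2 2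
        calc C3 * (Real.log q * Real.log (Real.log q)) ≤ C3 * (2 * Real.log p) ^ 2 :=
              mul_le_mul_of_nonneg_left (hlll.trans h6) hC3.le
          _ = _ := by ring
      have hqp2 : (q : ℝ) ≤ (p : ℝ) ^ 2 := by
        have : (q : ℝ) ≤ 2 * p := by exact_mod_cast hq2.le
        nlinarith
      have hpq2 : p + 2 ≤ q := by
        by_contra hlt
        have h6 : q - p = 1 := by omega
        rw [h6] at hc'
        omega
      have hcard := hct p q hpq2 Sm fun m hm => by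
        obtain ⟨a1, a2, a3⟩ := hmem m hm
        exact ⟨a1, a2.le, a3⟩
      have hlogd : Real.log p / 4 ≤ Real.log ((q : ℝ) - p) := by
        have h6 := Real.log_le_log hp0 hcr
        rw [Real.log_pow] at h6
        push_cast at h6
        linarith
      have h3 : ∑ m ∈ Sm, T p m q ≤ ∑ _m ∈ Sm, K * (w p ^ 2 * (2 * Real.log p / ((q : ℝ) - p))) := by
        refine Finset.sum_le_sum fun m hm => ?_
        obtain ⟨a1, a2, a3⟩ := hmem m hm
        refine (h1 p m q hPp1 a2 a3 hqp2 hgap2).trans ?_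
        refine mul_le_mul_of_nonneg_left ?_ hK
        refine mul_le_mul ?_ ?_ (by positivity) (by positivity)
        · rw [sq]
          exact mul_le_mul_of_nonneg_left (w_anti hp3 a2.le) hwp
        · exact div_le_div_of_nonneg_right hlq2 hd0.le
      rw [Finset.sum_const, nsmul_eq_mul] at h3
      have h5 : (Sm.card : ℝ) ≤ 4 * C0 * ((q : ℝ) - p) / Real.log p := by
        refine hcard.trans ?_
        rw [div_le_div_iff₀ (by linarith) hlp0]
        have h6 : 0 ≤ C0 * ((q : ℝ) - p) := by positivity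
        nlinarith
      have h6 : (Sm.card : ℝ) * (K * (w p ^ 2 * (2 * Real.log p / ((q : ℝ) - p)))) ≤
          4 * C0 * ((q : ℝ) - p) / Real.log p * (K * (w p ^ 2 * (2 * Real.log p / ((q : ℝ) - p)))) :=
        mul_le_mul_of_nonneg_right h5 (by positivity)
      have e : 4 * C0 * ((q : ℝ) - p) / Real.log p *
          (K * (w p ^ 2 * (2 * Real.log p / ((q : ℝ) - p)))) = 8 * C0 * K * w p ^ 2 := by
        field_simp
        ring
      rw [e] at h6
      linarith
  · rw [if_neg (by omega), add_zero]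
    have hq2' : 2 * (p : ℝ) ≤ q := by exact_mod_cast hq2
    have hqp2 : (q : ℝ) ≤ (p : ℝ) ^ 2 := by
      have h3 : κ * q < p * Real.log q := by
        rw [← mul_div_assoc, div_lt_iff₀ hlq0] at hκp
        exact hκp
      have h4 : (κ * q) ^ 2 ≤ (p * Real.log q) ^ 2 := pow_le_pow_left₀ (by positivity) h3.le 2
      have h5 : (p * Real.log q) ^ 2 ≤ (p : ℝ) ^ 2 * (κ ^ 2 * q) := by
        rw [mul_pow]
        exact mul_le_mul_of_nonneg_left s2 (by positivity)
      have h6 : (κ ^ 2 * q) * q ≤ (κ ^ 2 * q) * (p : ℝ) ^ 2 := by nlinarith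
      exact le_of_mul_le_mul_left h6 (by positivity)
    have hgap2 : C3 * (Real.log q * Real.log (Real.log q)) ≤ (q : ℝ) - p := by
      have h6 : C3 * (Real.log q * Real.log (Real.log q)) ≤ C3 * (Real.log q) ^ 2 :=
        mul_le_mul_of_nonneg_left hlll hC3.le
      linarith
    have h3 : ∑ m ∈ Sm, T p m q ≤ ∑ m ∈ Sm, 2 * K * (w q * w p) * w m := by
      refine Finset.sum_le_sum fun m hm => ?_
      obtain ⟨a1, a2, a3⟩ := hmem m hm
      refine (h1 p m q hPp1 a2 a3 hqp2 hgap2).trans ?_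
      have h4 : Real.log q / ((q : ℝ) - p) ≤ 2 * w q := by
        unfold w
        rw [mul_div_assoc', div_le_div_iff₀ hd0 hq0]
        nlinarith
      have hwm := w_nonneg m
      calc K * (w p * w m * (Real.log q / ((q : ℝ) - p))) ≤ K * (w p * w m * (2 * w q)) :=
            mul_le_mul_of_nonneg_left (mul_le_mul_of_nonneg_left h4 (by positivity)) hK
        _ = _ := by ring
    rw [← Finset.mul_sum] at h3
    refine h3.trans ?_
    calc 2 * K * (w q * w p) * ∑ m ∈ Sm, w m ≤ 2 * K * (w q * w p) * ∑ m ∈ NS κ P'' q, w m :=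
          mul_le_mul_of_nonneg_left hwsum (by positivity)
      _ = _ := by ring

/-- the weights of the near primes -/
lemma near_w {κ : ℝ} (hκ : 0 < κ) : ∃ C : ℝ, 0 < C ∧ ∀ᶠ q : ℕ in atTop, ∀ P : ℕ,
    ∑ m ∈ NS κ P q, w m ≤ C * (1 + Real.log (Real.log q)) := by
  obtain ⟨C, hC, h⟩ := Pool.Agent.W66S.mid_weights hκ
  refine ⟨C, hC, h.mono fun q hq P => hq _ fun p hp => ?_⟩
  obtain ⟨a1, a2, a3, a4⟩ := mem_NS.1 hp
  refine ⟨a2, a1.le, ?_⟩
  rw [mul_div_assoc]
  exact a4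

theorem triple_sum {κ K C3 : ℝ} (hκ : 0 < κ) (hK : 0 ≤ K) (hC3 : 0 < C3) (P : ℕ) (T : ℕ → ℕ → ℕ → ℝ)
    (h1 : ∀ p m q : ℕ, P ≤ p → p < m → m < q → (q : ℝ) ≤ (p : ℝ) ^ 2 →
      C3 * (Real.log q * Real.log (Real.log q)) ≤ (q : ℝ) - p →
      T p m q ≤ K * (w p * w m * (Real.log q / ((q : ℝ) - p))))
    (h2 : ∀ p m q : ℕ, P ≤ p → p < m → m < q → T p m q ≤ K * (w p * w q)) :
    ∃ K' : ℝ, 0 ≤ K' ∧ ∃ P' : ℕ, P ≤ P' ∧ ∀ P'' ≥ P', ∀ N ≥ P',
      ∑ q ∈ A P'' N, ∑ p ∈ NS κ P'' q, ∑ m ∈ (NS κ P'' q).filter (fun m => p < m), T p m q ≤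
        K' * (Real.log N * (Real.log (Real.log N)) ^ 2) := by
  obtain ⟨K5, hK5, P1, hPP1, hP13, hin⟩ := inner_sum hκ hK hC3 P T h1 h2
  obtain ⟨C1, hC1, hnw⟩ := near_w hκ
  obtain ⟨C2, hC2, hcp⟩ := Pool.Agent.W66S.count_primes
  obtain ⟨Cm, hCm, hsw⟩ := sum_w_le
  obtain ⟨P2, hP2⟩ := eventually_atTop.1 (hnw.and ((lnt'.eventually_ge_atTop 1).and
    (llnt.eventually_ge_atTop 1)))
  refine ⟨2 * K * (2 * C1) ^ 2 * (1 + Cm) + (2 * C2 * K5 + 2 * K) * (1 + Cm), by positivity,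
    max P1 P2, hPP1.trans (le_max_left _ _), fun P'' hP'' N hN => ?_⟩
  obtain ⟨-, lN, llN⟩ := hP2 N ((le_max_right _ _).trans hN)
  have hN1 : 1 ≤ N := by
    have := (le_max_left _ _).trans hN
    omega
  have hswN : ∑ q ∈ A P'' N, w q ≤ (1 + Cm) * Real.log N := by
    refine (hsw P'' N hN1).trans ?_
    nlinarith
  set bb : ℕ → ℕ → ℝ := fun p q => if p < q ∧ q < 2 * p then (K5 * w p ^ 2 +
    if (q - p) ^ 4 < p then ((q : ℝ) - p) * (K * w p ^ 2) else 0) else 0 with hbb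
  have hbb0 : ∀ p q, 0 ≤ bb p q := by
    intro p q
    simp only [hbb]
    split_ifs with a1 a2
    · have : (p : ℝ) ≤ q := by exact_mod_cast a1.1.le
      have h3 : 0 ≤ (q : ℝ) - p := by linarith
      positivity
    · positivity
    · exact le_rfl
  -- pointwise
  have hpt : ∀ q ∈ A P'' N, ∑ p ∈ NS κ P'' q, ∑ m ∈ (NS κ P'' q).filter (fun m => p < m), T p m q ≤
      2 * K * (2 * C1 * Real.log (Real.log N)) ^ 2 * w q + ∑ p ∈ A P'' N, bb p q := by
    intro q hq
    obtain ⟨a1, a2, a3⟩ := mem_A.1 hq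
    have hqP2 : P2 ≤ q := (le_max_right _ _).trans (hP''.trans a3)
    obtain ⟨b1, b2, b3⟩ := hP2 q hqP2
    set lam := ∑ m ∈ NS κ P'' q, w m with hlam
    have hlam0 : 0 ≤ lam := Finset.sum_nonneg fun m _ => w_nonneg m
    have hlamle : lam ≤ 2 * C1 * Real.log (Real.log N) := by
      refine (b1 P'').trans ?_
      have h3 : Real.log (Real.log q) ≤ Real.log (Real.log N) := by
        refine Real.log_le_log (by linarith) ?_
        refine Real.log_le_log ?_ (by exact_mod_cast a1)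
        exact_mod_cast a2.pos
      nlinarith
    have h3 : ∑ p ∈ NS κ P'' q, ∑ m ∈ (NS κ P'' q).filter (fun m => p < m), T p m q ≤
        ∑ p ∈ NS κ P'' q, (2 * K * (w q * lam * w p) + bb p q) :=
      Finset.sum_le_sum fun p hp => hin P'' ((le_max_left _ _).trans hP'') q p hp
    rw [Finset.sum_add_distrib] at h3
    have h4 : ∑ p ∈ NS κ P'' q, 2 * K * (w q * lam * w p) = 2 * K * lam ^ 2 * w q := by
      have e : ∀ p ∈ NS κ P'' q, 2 * K * (w q * lam * w p) = 2 * K * w q * lam * w p :=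
        fun p _ => by ring
      rw [Finset.sum_congr rfl e, ← Finset.mul_sum, ← hlam]
      ring
    have h5 : ∑ p ∈ NS κ P'' q, bb p q ≤ ∑ p ∈ A P'' N, bb p q := by
      refine Finset.sum_le_sum_of_subset_of_nonneg ?_ fun p _ _ => hbb0 p q
      intro p hp
      obtain ⟨c1, c2, c3, c4⟩ := mem_NS.1 hp
      exact mem_A.2 ⟨c1.le.trans a1, c2, c3⟩
    have h6 : 2 * K * lam ^ 2 * w q ≤ 2 * K * (2 * C1 * Real.log (Real.log N)) ^ 2 * w q := by
      refine mul_le_mul_of_nonneg_right ?_ (w_nonneg q)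
      exact mul_le_mul_of_nonneg_left (pow_le_pow_left₀ hlam0 hlamle 2) (by positivity)
    rw [h4] at h3
    linarith
  refine (Finset.sum_le_sum hpt).trans ?_
  rw [Finset.sum_add_distrib, ← Finset.mul_sum, Finset.sum_comm]
  have hrow : ∀ p ∈ A P'' N, ∑ q ∈ A P'' N, bb p q ≤ (2 * C2 * K5 + 2 * K) * w p := by
    intro p hp
    obtain ⟨a1, a2, a3⟩ := mem_A.1 hp
    have hp3 : 3 ≤ p := hP13.trans ((le_max_left _ _).trans (hP''.trans a3))
    have hpP2 : P2 ≤ p := (le_max_right _ _).trans (hP''.trans a3)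
    obtain ⟨-, b2, -⟩ := hP2 p hpP2
    have hp3' : (3 : ℝ) ≤ p := by exact_mod_cast hp3
    have hp0 : (0 : ℝ) < p := by linarith
    have hwp := w_nonneg p
    simp only [hbb]
    rw [← Finset.sum_filter, Finset.sum_add_distrib, ← Finset.sum_filter, Finset.sum_const,
      nsmul_eq_mul, ← Finset.sum_mul]
    have h3 : (((A P'' N).filter (fun q => p < q ∧ q < 2 * p)).card : ℝ) ≤
        C2 * ((2 * p : ℕ) : ℝ) / Real.log ((2 * p : ℕ) : ℝ) := by
      refine hcp (2 * p) (by omega) _ fun q hq => ?_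
      rw [Finset.mem_filter] at hq
      exact ⟨(mem_A.1 hq.1).2.1, hq.2.2⟩
    have h4 : (((A P'' N).filter (fun q => p < q ∧ q < 2 * p)).card : ℝ) ≤
        2 * C2 * (p / Real.log p) := by
      refine h3.trans ?_
      push_cast
      have h5 : Real.log p ≤ Real.log (2 * p) := Real.log_le_log hp0 (by linarith)
      calc C2 * (2 * p) / Real.log (2 * p) ≤ C2 * (2 * p) / Real.log p :=
            div_le_div_of_nonneg_left (by positivity) (by linarith) h5
        _ = _ := by ring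
    have h5 := close_sum p (by omega) (((A P'' N).filter (fun q => p < q ∧ q < 2 * p)).filter
      (fun q => (q - p) ^ 4 < p)) (by
        intro q hq
        rw [Finset.mem_filter, Finset.mem_filter] at hq
        exact ⟨hq.1.2.1, hq.2⟩)
    have h6 : 2 * C2 * (p / Real.log p) * (K5 * w p ^ 2) = 2 * C2 * K5 * w p := by
      unfold w
      field_simp
    have h7 : Real.sqrt p * (K * w p ^ 2) ≤ 2 * K * w p := by
      have h8 : Real.sqrt p * w p ≤ 2 := by
        unfold w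
        have h9 : Real.log (Real.sqrt p) ≤ Real.sqrt p - 1 :=
          Real.log_le_sub_one_of_pos (Real.sqrt_pos.2 hp0)
        rw [Real.log_sqrt hp0.le] at h9
        rw [← mul_div_assoc, div_le_iff₀ hp0]
        have h10 : Real.sqrt p * Real.sqrt p = p := Real.mul_self_sqrt hp0.le
        have h11 := Real.sqrt_nonneg p
        nlinarith
      calc Real.sqrt p * (K * w p ^ 2) = (Real.sqrt p * w p) * (K * w p) := by ring
        _ ≤ 2 * (K * w p) := mul_le_mul_of_nonneg_right h8 (by positivity)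
        _ = _ := by ring
    have h8 := mul_le_mul_of_nonneg_right h4 (show 0 ≤ K5 * w p ^ 2 by positivity)
    have h9 := mul_le_mul_of_nonneg_right h5 (show 0 ≤ K * w p ^ 2 by positivity)
    rw [h6] at h8
    linarith
  have hrows := Finset.sum_le_sum hrow
  rw [← Finset.mul_sum] at hrows
  have h12 : 2 * K * (2 * C1 * Real.log (Real.log N)) ^ 2 * ∑ q ∈ A P'' N, w q ≤
      2 * K * (2 * C1 * Real.log (Real.log N)) ^ 2 * ((1 + Cm) * Real.log N) :=
    mul_le_mul_of_nonneg_left hswN (by positivity)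
  have h13 : (2 * C2 * K5 + 2 * K) * ∑ q ∈ A P'' N, w q ≤
      (2 * C2 * K5 + 2 * K) * ((1 + Cm) * Real.log N) :=
    mul_le_mul_of_nonneg_left hswN (by positivity)
  have h14 : (2 * C2 * K5 + 2 * K) * ((1 + Cm) * Real.log N) ≤
      (2 * C2 * K5 + 2 * K) * (1 + Cm) * (Real.log N * (Real.log (Real.log N)) ^ 2) := by
    have h15 : Real.log N ≤ Real.log N * (Real.log (Real.log N)) ^ 2 :=
      le_mul_of_one_le_right (by linarith) (one_le_pow₀ llN)
    rw [← mul_assoc]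
    exact mul_le_mul_of_nonneg_left h15 (by positivity)
  have e : 2 * K * (2 * C1 * Real.log (Real.log N)) ^ 2 * ((1 + Cm) * Real.log N) =
      2 * K * (2 * C1) ^ 2 * (1 + Cm) * (Real.log N * (Real.log (Real.log N)) ^ 2) := by ring
  rw [e] at h12
  linarith

end Pool.Agent.Helper46K9.CL
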