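import Mathlib
import Pool.Agent.Helper46K9.CL.F
import Pool.Agent.H447R2.ML.P2

set_option autoImplicit false

/-!
# An upper bound for triple correlations
-/

namespace Pool.Agent.Helper46K9.CL

open MeasureTheory Filter Topology
open Pool.Agent.H305R2 (ff NN LL gg measurable_ff measurable_gg ff_nonneg ff_le_one LL_cont LL_nonneg
  LL_le_one abs_gg_le_one measurable_NN)
open Pool.Agent.W66 (mono_var NN_mono NN_le ff_diff LL_lip ii_of_bdd far_abs)

lemma int_fin {μ : Measure (ℝ × ℝ)} [IsFiniteMeasure μ] {F : ℝ × ℝ → ℝ} (hF : Measurable F) {B : ℝ}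
    (h : ∀ z, |F z| ≤ B) : Integrable F μ :=
  Integrable.of_bound hF.aestronglyMeasurable B (Filter.Eventually.of_forall h)

lemma int_fin1 {μ : Measure ℝ} [IsFiniteMeasure μ] {F : ℝ → ℝ} (hF : Measurable F) {B : ℝ}
    (h : ∀ z, |F z| ≤ B) : Integrable F μ :=
  Integrable.of_bound hF.aestronglyMeasurable B (Filter.Eventually.of_forall h)

lemma conv_trick {f g : ℝ → ℝ} (hf : Measurable f) (hg : Measurable g) (hf0 : ∀ x, 0 ≤ f x)
    (hf1 : ∀ x, f x ≤ 1) (hg0 : ∀ x, 0 ≤ g x) (hg1 : ∀ x, g x ≤ 1) {α β δ R : ℝ} (hδ : 0 < δ)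
    (h1 : ∀ x ∈ Set.Ioc α β, δ * f x ≤ ∫ s in Set.Ioc (-δ) δ, f (x + s))
    (h2 : ∀ w ∈ Set.Ioc (α - δ) (β + δ), ∫ s in Set.Ioc (-δ) δ, g (w - s) ≤ δ * R) :
    ∫ x in Set.Ioc α β, f x * g x ≤ R * ∫ x in Set.Ioc (α - δ) (β + δ), f x := by
  have hfa : ∀ x, |f x| ≤ 1 := fun x => by rw [abs_of_nonneg (hf0 x)]; exact hf1 x
  have hga : ∀ x, |g x| ≤ 1 := fun x => by rw [abs_of_nonneg (hg0 x)]; exact hg1 x
  have hfg : ∀ x y, |f x * g y| ≤ 1 := fun x y => by
    rw [abs_mul]
    exact mul_le_one₀ (hfa x) (abs_nonneg _) (hga y)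
  have hm1 : Measurable fun z : ℝ × ℝ => f (z.1 + z.2) * g z.1 :=
    (hf.comp (by fun_prop)).mul (hg.comp measurable_fst)
  have hm2 : Measurable fun z : ℝ × ℝ => f z.1 * g (z.1 - z.2) :=
    (hf.comp measurable_fst).mul (hg.comp (by fun_prop))
  have i1 : Integrable (fun z : ℝ × ℝ => f (z.1 + z.2) * g z.1)
      ((volume.restrict (Set.Ioc α β)).prod (volume.restrict (Set.Ioc (-δ) δ))) :=
    int_fin hm1 fun z => hfg _ _
  have i2 : Integrable (fun z : ℝ × ℝ => f z.1 * g (z.1 - z.2))
      ((volume.restrict (Set.Ioc (α - δ) (β + δ))).prod (volume.restrict (Set.Ioc (-δ) δ))) :=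
    int_fin hm2 fun z => hfg _ _
  have a1 : δ * ∫ x in Set.Ioc α β, f x * g x ≤
      ∫ x in Set.Ioc α β, ∫ s in Set.Ioc (-δ) δ, f (x + s) * g x := by
    rw [← integral_const_mul]
    refine setIntegral_mono_on ?_ i1.integral_prod_left measurableSet_Ioc ?_
    · exact (int_fin1 (hf.mul hg) (B := 1) fun z => hfg _ _).const_mul δ
    · intro x hx
      rw [integral_mul_const, ← mul_assoc]
      exact mul_le_mul_of_nonneg_right (h1 x hx) (hg0 x)
  have a2 : ∫ x in Set.Ioc α β, ∫ s in Set.Ioc (-δ) δ, f (x + s) * g x =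
      ∫ s in Set.Ioc (-δ) δ, ∫ x in Set.Ioc α β, f (x + s) * g x :=
    integral_integral_swap (f := fun x s => f (x + s) * g x) i1
  have a3 : ∫ s in Set.Ioc (-δ) δ, ∫ x in Set.Ioc α β, f (x + s) * g x ≤
      ∫ s in Set.Ioc (-δ) δ, ∫ w in Set.Ioc (α - δ) (β + δ), f w * g (w - s) := by
    refine setIntegral_mono_on i1.integral_prod_right i2.integral_prod_right measurableSet_Ioc ?_
    intro s hs
    rcases le_total α β with hab | hab
    · have e1 : ∫ x in Set.Ioc α β, f (x + s) * g x =
          ∫ w in Set.Ioc (s + α) (s + β), f w * g (w - s) := by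
        rw [← slice_add (fun w => f w * g (w - s)) s hab]
        refine integral_congr_ae (Filter.Eventually.of_forall fun x => ?_)
        simp only [add_comm s x, add_sub_cancel_right]
      rw [e1]
      refine setIntegral_mono_set ?_ ?_ ?_
      · exact int_fin1 (hf.mul (hg.comp (by fun_prop))) (B := 1) fun z => hfg _ _
      · exact Filter.Eventually.of_forall fun x => mul_nonneg (hf0 _) (hg0 _)
      · exact (Set.Ioc_subset_Ioc (by linarith [hs.1]) (by linarith [hs.2])).eventuallyLE
    · rw [Set.Ioc_eq_empty (by linarith : ¬ α < β), Measure.restrict_empty, integral_zero_measure]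
      exact integral_nonneg fun x => mul_nonneg (hf0 _) (hg0 _)
  have a4 : ∫ s in Set.Ioc (-δ) δ, ∫ w in Set.Ioc (α - δ) (β + δ), f w * g (w - s) =
      ∫ w in Set.Ioc (α - δ) (β + δ), ∫ s in Set.Ioc (-δ) δ, f w * g (w - s) :=
    (integral_integral_swap (f := fun w s => f w * g (w - s)) i2).symm
  have a5 : ∫ w in Set.Ioc (α - δ) (β + δ), ∫ s in Set.Ioc (-δ) δ, f w * g (w - s) ≤
      δ * (R * ∫ x in Set.Ioc (α - δ) (β + δ), f x) := by
    rw [← mul_assoc, ← integral_const_mul]
    refine setIntegral_mono_on i2.integral_prod_left ?_ measurableSet_Ioc ?_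
    · exact (int_fin1 hf hfa).const_mul _
    · intro w hw
      rw [integral_const_mul, mul_comm (f w)]
      exact mul_le_mul_of_nonneg_right (h2 w hw) (hf0 w)
  have a6 : δ * ∫ x in Set.Ioc α β, f x * g x ≤ δ * (R * ∫ x in Set.Ioc (α - δ) (β + δ), f x) :=
    a1.trans (a2.le.trans (a3.trans (a4.le.trans a5)))
  exact le_of_mul_le_mul_left a6 hδ

lemma slice_sub (f : ℝ → ℝ) {a : ℝ} (ha : 0 < a) (u : ℝ) {α β : ℝ} (h : α ≤ β) :
    ∫ x in Set.Ioc α β, f (u - a * x) = a⁻¹ * ∫ v in Set.Ioc (u - a * β) (u - a * α), f v := by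
  rw [← intervalIntegral.integral_of_le h, ← intervalIntegral.integral_of_le (by nlinarith)]
  have h3 := intervalIntegral.integral_comp_sub_mul (a := α) (b := β) f ha.ne' u
  rw [smul_eq_mul] at h3
  exact h3

/-- a hit comes with a hit interval -/
lemma cell {p : ℕ} {v V h : ℝ} (hv0 : 0 < v) (hv : v ≤ V) (hh : 0 < h) (hhV : 4 * h ≤ Real.exp (-V)) :
    h * ff p v ≤ ∫ s in Set.Ioc (-h) h, ff p (v + s) := by
  have hmeas : Measurable fun s => ff p (v + s) := (measurable_ff p).comp (measurable_const_add v)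
  set m := NN v with hm
  have hm1 : 1 ≤ m := by
    have h1 : 1 < Real.exp v := Real.one_lt_exp_iff.2 hv0
    have h2 : 1 < ⌈Real.exp v⌉₊ := by
      rw [Nat.lt_ceil]
      exact_mod_cast h1
    rw [hm]
    unfold NN
    omega
  have hcell := (Pool.Agent.H305R2.mem_Ioc_log hm1 (t := v)).2 hm.symm
  have hm0 : (0 : ℝ) < m := by exact_mod_cast hm1
  have hm1' : (1 : ℝ) ≤ m := by exact_mod_cast hm1
  have hmV : (m : ℝ) < Real.exp V := by
    have h1 : Real.exp (Real.log m) < Real.exp V := Real.exp_lt_exp.2 (hcell.1.trans_le hv)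
    rwa [Real.exp_log hm0] at h1
  have h2h : 2 * h ≤ Real.log ((m + 1 : ℕ) : ℝ) - Real.log m := by
    have h1 : 1 - ((((m + 1 : ℕ) : ℝ)) / m)⁻¹ ≤ Real.log (((m + 1 : ℕ) : ℝ) / m) :=
      Real.one_sub_inv_le_log_of_pos (by positivity)
    rw [Real.log_div (by positivity) hm0.ne'] at h1
    have e2 : 1 - ((((m + 1 : ℕ) : ℝ)) / m)⁻¹ = 1 / (m + 1) := by
      push_cast
      field_simp
      ring
    rw [e2] at h1
    refine le_trans ?_ h1
    rw [le_div_iff₀ (by linarith)]
    have h3 : 4 * h * m ≤ 1 := by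
      have h4 : 4 * h * m ≤ Real.exp (-V) * Real.exp V :=
        mul_le_mul hhV hmV.le hm0.le (Real.exp_pos _).le
      rwa [← Real.exp_add, neg_add_cancel, Real.exp_zero] at h4
    nlinarith
  have hval : ∀ t ∈ Set.Ioc (Real.log m) (Real.log ((m + 1 : ℕ) : ℝ)), ff p t = ff p v := by
    intro t ht
    have h1 := (Pool.Agent.H305R2.mem_Ioc_log hm1 (t := t)).1 ht
    unfold ff
    rw [h1, ← hm]
  have hint : IntegrableOn (fun s => ff p (v + s)) (Set.Ioc (-h) h) := int_fin1 hmeas
    (B := 1) fun s => abs_ff_le_one p _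
  rcases lt_or_ge (Real.log m) (v - h) with hc | hc
  · have h1 : ∫ s in Set.Ioc (-h) 0, ff p (v + s) ≤ ∫ s in Set.Ioc (-h) h, ff p (v + s) :=
      setIntegral_mono_set hint (Filter.Eventually.of_forall fun s => ff_nonneg p _)
        (Set.Ioc_subset_Ioc_right hh.le).eventuallyLE
    have h2 : ∫ s in Set.Ioc (-h) 0, ff p (v + s) = ∫ _s in Set.Ioc (-h) 0, ff p v :=
      setIntegral_congr_fun measurableSet_Ioc fun s hs =>
        hval _ ⟨by linarith [hs.1], by linarith [hs.2, hcell.2]⟩
    rw [h2, setIntegral_const, Real.volume_real_Ioc_of_le (by linarith), smul_eq_mul] at h1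
    have e : (0 - -h) * ff p v = h * ff p v := by ring
    rw [e] at h1
    exact h1
  · have h1 : ∫ s in Set.Ioc 0 h, ff p (v + s) ≤ ∫ s in Set.Ioc (-h) h, ff p (v + s) :=
      setIntegral_mono_set hint (Filter.Eventually.of_forall fun s => ff_nonneg p _)
        (Set.Ioc_subset_Ioc_left (by linarith)).eventuallyLE
    have h2 : ∫ s in Set.Ioc 0 h, ff p (v + s) = ∫ _s in Set.Ioc 0 h, ff p v :=
      setIntegral_congr_fun measurableSet_Ioc fun s hs =>
        hval _ ⟨by linarith [hs.1, hcell.1], by linarith [hs.2]⟩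
    rw [h2, setIntegral_const, Real.volume_real_Ioc_of_le hh.le, smul_eq_mul, sub_zero] at h1
    exact h1

/-- the upper bound for triples -/
theorem triple_box {x0 x1 y0 y1 : ℝ} (hx0 : 0 < x0) (hx : x0 ≤ x1) (hy : y0 ≤ y1) :
    ∃ K C3 : ℝ, 0 < K ∧ 0 < C3 ∧ ∃ P : ℕ, 3 ≤ P ∧ ∀ p q r : ℕ, P ≤ p → p < q → q < r →
      (r : ℝ) ≤ (p : ℝ) ^ 2 → C3 * (Real.log r * Real.log (Real.log r)) ≤ (r : ℝ) - p →
      ∫ z in Bx x0 x1 y0 y1, ff q (q * z.1 + z.2) * (ff p (p * z.1 + z.2) * ff r (r * z.1 + z.2)) ≤
        K * (Real.log p / p * (Real.log q / q) * (Real.log r / ((r : ℝ) - p))) := by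
  obtain ⟨K2, hK2, hb⟩ := Pool.Agent.H305R2.bounds (c := x0 / 2) (by positivity)
  obtain ⟨K1, hK1, hsh⟩ := Pool.Agent.H447R2.ML.short_interval
  have e2 : ∀ᶠ q : ℕ in atTop, |y0| + 2 ≤ x0 / 2 * (q : ℝ) :=
    (tendsto_natCast_atTop_atTop.const_mul_atTop (show 0 < x0 / 2 by positivity)).eventually_ge_atTop _
  have e3 : ∀ᶠ q : ℕ in atTop, 2 / (x0 / 2) ≤ (q : ℝ) / Real.log q :=
    ratio_tendsto.eventually_ge_atTop _
  have e4 : ∀ᶠ q : ℕ in atTop, 1 ≤ Real.log (Real.log q) :=
    (Real.tendsto_log_atTop.comp lnt).eventually_ge_atTop _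
  have e5 : ∀ᶠ q : ℕ in atTop, 2 ≤ Real.log q := lnt.eventually_ge_atTop _
  obtain ⟨P2, hP2⟩ := eventually_atTop.1 (hb.and (hsh.and (e2.and (e3.and (e4.and e5)))))
  set X := x1 - x0 with hX
  set D := y1 - y0 with hD
  have hX0 : 0 ≤ X := by rw [hX]; linarith
  have hD0 : 0 ≤ D := by rw [hD]; linarith
  set K := K2 * (X + D + 1) * (K2 * (D + 3)) * (4 * K1 / x0) with hK
  refine ⟨K, 64 / x0, by positivity, by positivity, max 3 P2, le_max_left _ _,
    fun p q r hpP hpq hqr hrp hgap => ?_⟩
  have hqP : max 3 P2 ≤ q := hpP.trans hpq.le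
  have hrP : max 3 P2 ≤ r := hqP.trans hqr.le
  obtain ⟨⟨-, hbp, -, -⟩, -, f2, f3, -, f5⟩ := hP2 p ((le_max_right _ _).trans hpP)
  obtain ⟨⟨-, hbq, -, -⟩, -, f2q, -, -, -⟩ := hP2 q ((le_max_right _ _).trans hqP)
  obtain ⟨-, hshr, -, -, f4r, f5r⟩ := hP2 r ((le_max_right _ _).trans hrP)
  have hp3 : 3 ≤ p := (le_max_left _ _).trans hpP
  have hp3' : (3 : ℝ) ≤ p := by exact_mod_cast hp3
  have hpq' : (p : ℝ) + 1 ≤ q := by exact_mod_cast hpq
  have hqr' : (q : ℝ) + 1 ≤ r := by exact_mod_cast hqr
  have hp0 : (0 : ℝ) < p := by linarith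
  have hq0 : (0 : ℝ) < q := by linarith
  have hr0 : (0 : ℝ) < r := by linarith
  have hn0 := neg_abs_le y0
  set a := (q : ℝ) - p with ha
  set b := (r : ℝ) - q with hb'
  have ha1 : 1 ≤ a := by rw [ha]; linarith
  have hb1 : 1 ≤ b := by rw [hb']; linarith
  have ha0 : 0 < a := by linarith
  have hb0 : 0 < b := by linarith
  have hab : a + b = (r : ℝ) - p := by rw [ha, hb']; ring
  have hrp0 : 0 < (r : ℝ) - p := by linarith
  have hlp : 0 < Real.log p := by linarith
  have hlr : 0 < Real.log r := by linarith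
  have hlq : 0 ≤ Real.log q := Real.log_natCast_nonneg q
  have hgap2 : 64 * (Real.log r * Real.log (Real.log r)) ≤ ((r : ℝ) - p) * x0 := by
    rw [div_mul_eq_mul_div, div_le_iff₀ hx0] at hgap
    exact hgap
  have hgap3 : 64 * Real.log r ≤ ((r : ℝ) - p) * x0 := by
    have : Real.log r ≤ Real.log r * Real.log (Real.log r) := le_mul_of_one_le_right hlr.le f4r
    linarith
  have hexp : Real.exp (-(p * x0 + y0)) ≤ 1 / (p : ℝ) ^ 2 := by
    rw [← Real.exp_log (show 0 < 1 / (p : ℝ) ^ 2 by positivity), Real.exp_le_exp, one_div, Real.log_inv,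
      Real.log_pow]
    rw [div_le_div_iff₀ (by positivity) hlp] at f3
    push_cast
    linarith
  have hFm : Measurable fun z : ℝ × ℝ => ff p (p * z.1 + z.2) * ff r (r * z.1 + z.2) :=
    ((measurable_ff p).comp (m_lev p)).mul ((measurable_ff r).comp (m_lev r))
  have hFb : ∀ z ∈ Bx x0 x1 y0 y1, |ff p (p * z.1 + z.2) * ff r (r * z.1 + z.2)| ≤ 1 := by
    intro z _
    rw [abs_mul]
    exact mul_le_one₀ (abs_ff_le_one _ _) (abs_nonneg _) (abs_ff_le_one _ _)
  set R1 := 4 * K1 * Real.log r / (((r : ℝ) - p) * x0) with hR1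
  have hR10 : 0 ≤ R1 := by positivity
  set R := R1 * (K2 * ((D + 3) / q) * (Real.log p / p)) with hR
  have hR0 : 0 ≤ R := by positivity
  have h3 := shear_bound (x0 := x0) (x1 := x1) (y0 := y0) (y1 := y1) (p := q) (by omega)
    (measurable_ff q) (abs_ff_le_one q) hFm hFb (R := R) hR0 (by
      intro u α β hα hαβ hβ hu1 hu0
      have h5 : β - α ≤ D / q := by
        rw [le_div_iff₀ hq0]
        rw [hD]
        linarith
      have e6 : ∀ x : ℝ, (p : ℝ) * x + (u - q * x) = u - a * x := fun x => by rw [ha]; ring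
      have e7 : ∀ x : ℝ, (r : ℝ) * x + (u - q * x) = u + b * x := fun x => by rw [hb']; ring
      simp only [e6, e7]
      set V := u - a * α with hV
      set h0 := Real.exp (-V) / 4 with hh0
      have hh0pos : 0 < h0 := by positivity
      set δ := h0 / a with hδ
      have hδ0 : 0 < δ := by positivity
      have haδ : a * δ = h0 := by rw [hδ]; field_simp
      have hqα : (q : ℝ) * α ≤ q * β := mul_le_mul_of_nonneg_left hαβ hq0.le
      have hpα : (p : ℝ) * x0 ≤ p * α := mul_le_mul_of_nonneg_left hα hp0.le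
      have hpβ : (p : ℝ) * α ≤ p * β := mul_le_mul_of_nonneg_left hαβ hp0.le
      have hVlow : p * x0 + y0 ≤ V := by
        have : V = u - q * α + p * α := by rw [hV, ha]; ring
        rw [this]
        linarith
      have hexpV : Real.exp (-V) ≤ 1 / (p : ℝ) ^ 2 :=
        (Real.exp_le_exp.2 (by linarith)).trans hexp
      have hrexp : (r : ℝ) * Real.exp (-V) ≤ 1 := by
        have h6 : (p : ℝ) ^ 2 * Real.exp (-V) ≤ 1 := by
          rw [le_div_iff₀ (by positivity)] at hexpV
          linarith
        exact (mul_le_mul_of_nonneg_right hrp (Real.exp_pos _).le).trans h6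
      have hbδ : b * δ ≤ 1 / 4 := by
        have h6 : δ ≤ h0 := by
          rw [hδ]
          exact div_le_self hh0pos.le ha1
        have h7 : b * δ ≤ r * h0 := mul_le_mul (by rw [hb']; linarith) h6 hδ0.le hr0.le
        have h8 : (r : ℝ) * h0 = r * Real.exp (-V) / 4 := by rw [hh0]; ring
        linarith
      have hct := conv_trick (f := fun x => ff p (u - a * x)) (g := fun x => ff r (u + b * x))
        ((measurable_ff p).comp (by fun_prop)) ((measurable_ff r).comp (by fun_prop))
        (fun x => ff_nonneg _ _) (fun x => ff_le_one _ _) (fun x => ff_nonneg _ _)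
        (fun x => ff_le_one _ _) (α := α) (β := β) (δ := δ) (R := R1) hδ0
        (by
          intro x hx'
          have h6 : a * α ≤ a * x := mul_le_mul_of_nonneg_left hx'.1.le ha0.le
          have h6b : (q : ℝ) * x ≤ q * β := mul_le_mul_of_nonneg_left hx'.2 hq0.le
          have h6c : (p : ℝ) * α ≤ p * x := mul_le_mul_of_nonneg_left hx'.1.le hp0.le
          have h7 : 0 < u - a * x := by
            have : u - a * x = u - q * x + p * x := by rw [ha]; ring
            rw [this]
            linarith [abs_nonneg y0]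
          have h8 := cell (p := p) (v := u - a * x) (V := V) (h := h0) h7 (by rw [hV]; linarith)
            hh0pos (by rw [hh0]; linarith)
          have e8 : ∫ s in Set.Ioc (-δ) δ, ff p (u - a * (x + s)) =
              a⁻¹ * ∫ s in Set.Ioc (-h0) h0, ff p (u - a * x + s) := by
            have e9 : ∀ s, u - a * (x + s) = (u - a * x) - a * s := fun s => by ring
            simp only [e9]
            rw [slice_sub (ff p) ha0 (u - a * x) (by linarith), slice_add (ff p) (u - a * x)
              (by linarith)]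
            congr 2
            rw [haδ, mul_neg, haδ]
            ring_nf
          rw [e8]
          calc δ * ff p (u - a * x) = a⁻¹ * (h0 * ff p (u - a * x)) := by rw [hδ]; ring
            _ ≤ _ := mul_le_mul_of_nonneg_left h8 (inv_pos.2 ha0).le)
        (by
          intro w hw
          have e8 : ∀ s, u + b * (w - s) = (u + b * w) - b * s := fun s => by ring
          simp only [e8]
          rw [slice_sub (ff r) hb0 (u + b * w) (by linarith)]
          set c := u + b * w with hc
          have h6 : 0 < 2 * (b * δ) := by positivity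
          have h7 : Real.log (2 * (b * δ)) = Real.log (b / (2 * a)) - V := by
            have e9 : 2 * (b * δ) = b / (2 * a) * Real.exp (-V) := by
              rw [hδ, hh0]
              field_simp
              ring
            rw [e9, Real.log_mul (by positivity) (Real.exp_pos _).ne', Real.log_exp]
            ring
          have h8 : -Real.log (2 * r) ≤ Real.log (b / (2 * a)) := by
            rw [← Real.log_inv]
            refine Real.log_le_log (by positivity) ?_
            rw [inv_eq_one_div]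
            refine div_le_div₀ hb0.le hb1 (by positivity) ?_
            rw [ha]
            linarith
          have h9 : Real.log (2 * r) ≤ 1 + Real.log r := by
            rw [Real.log_mul (by norm_num) hr0.ne']
            have := Real.log_two_lt_d9
            linarith
          have h10 : (a + b) * x0 ≤ (a + b) * α := mul_le_mul_of_nonneg_left hα (by linarith)
          have h11 : b * (α - δ) ≤ b * w := mul_le_mul_of_nonneg_left hw.1.le hb0.le
          have hE : ((r : ℝ) - p) * x0 / 2 ≤ c - b * δ + Real.log (2 * (b * δ)) := by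
            rw [h7, hc, hV]
            rw [hab] at h10
            have e10 : (((r : ℝ) - p) * α) = a * α + b * α := by rw [← hab]; ring
            rw [e10] at h10
            have e11 : b * (α - δ) = b * α - b * δ := by ring
            rw [e11] at h11
            linarith
          have hs := hshr (c - b * δ) (2 * (b * δ)) h6 (by linarith) (by linarith)
          have e12 : c - b * δ + 2 * (b * δ) = c - b * -δ := by ring
          rw [e12] at hs
          refine (mul_le_mul_of_nonneg_left hs (inv_pos.2 hb0).le).trans ?_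
          have h13 : Real.log r / (c - b * δ + Real.log (2 * (b * δ))) ≤
              Real.log r / (((r : ℝ) - p) * x0 / 2) :=
            div_le_div_of_nonneg_left hlr.le (by positivity) hE
          calc b⁻¹ * (K1 * (2 * (b * δ)) * (Real.log r / (c - b * δ + Real.log (2 * (b * δ))))) ≤
              b⁻¹ * (K1 * (2 * (b * δ)) * (Real.log r / (((r : ℝ) - p) * x0 / 2))) := by
                refine mul_le_mul_of_nonneg_left ?_ (inv_pos.2 hb0).le
                exact mul_le_mul_of_nonneg_left h13 (by positivity)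
            _ = δ * R1 := by
                rw [hR1]
                field_simp
                ring)
      rw [abs_of_nonneg (integral_nonneg fun x => mul_nonneg (ff_nonneg _ _) (ff_nonneg _ _))]
      refine hct.trans ?_
      rw [hR]
      refine mul_le_mul_of_nonneg_left ?_ hR10
      rw [slice_sub (ff p) ha0 u (by linarith)]
      have e13 : a * (β + δ) = a * β + h0 := by rw [mul_add, haδ]
      have e14 : a * (α - δ) = a * α - h0 := by rw [mul_sub, haδ]
      rw [e13, e14]
      have h14 : h0 ≤ 1 / 4 := by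
        rw [hh0]
        have : Real.exp (-V) ≤ 1 := hexpV.trans (by
          rw [div_le_one (by positivity)]
          exact one_le_pow₀ (by linarith))
        linarith
      have h15 : u - a * β = u - q * β + p * β := by rw [ha]; ring
      have h16 : a * α ≤ a * β := mul_le_mul_of_nonneg_left hαβ ha0.le
      have h17 := hbp (u - (a * β + h0)) (u - (a * α - h0)) (by linarith) (by linarith)
      refine (mul_le_mul_of_nonneg_left h17 (inv_pos.2 ha0).le).trans ?_
      have h18 : 2 * (h0 / a) ≤ 1 / q := by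
        have h19 : Real.exp (-V) ≤ 1 / r := by
          rw [le_div_iff₀ hr0]
          linarith
        have h20 : 1 / (r : ℝ) ≤ 1 / q := one_div_le_one_div_of_le hq0 (by linarith)
        have h21 : h0 / a ≤ h0 := div_le_self hh0pos.le ha1
        rw [hh0] at h21 ⊢
        linarith
      have h22 : 1 / (a * p) ≤ 2 / q := by
        rw [div_le_div_iff₀ (by positivity) hq0]
        have e15 : (q : ℝ) = a + p := by rw [ha]; ring
        rw [e15]
        have e16 : 0 ≤ (a - 1) * ((p : ℝ) - 1) := mul_nonneg (by linarith) (by linarith)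
        have e17 : 1 * 1 ≤ a * (p : ℝ) := mul_le_mul ha1 (by linarith) zero_le_one ha0.le
        linarith
      calc a⁻¹ * (K2 * (u - (a * α - h0) - (u - (a * β + h0)) + 1 / p) * (Real.log p / p)) =
          K2 * ((β - α) + 2 * (h0 / a) + 1 / (a * p)) * (Real.log p / p) := by
            field_simp
            ring
        _ ≤ K2 * ((D + 3) / q) * (Real.log p / p) := by
            refine mul_le_mul_of_nonneg_right (mul_le_mul_of_nonneg_left ?_ hK2.le) (by positivity)
            calc β - α + 2 * (h0 / a) + 1 / (a * p) ≤ D / q + 1 / q + 2 / q := by linarith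
              _ = (D + 3) / q := by ring)
  refine (le_abs_self _).trans (h3.trans ?_)
  have h6 : ∫ u in Set.Icc (q * x0 + y0) (q * x1 + y1), |ff q u| ≤ K2 * (X + D + 1) * Real.log q := by
    rw [integral_Icc_eq_integral_Ioc]
    simp only [abs_of_nonneg (ff_nonneg q _)]
    have hqx := mul_le_mul_of_nonneg_left hx hq0.le
    refine (hbq _ _ (by linarith) (by linarith)).trans ?_
    have e6 : (q : ℝ) * x1 + y1 - (q * x0 + y0) = q * X + D := by rw [hX, hD]; ring
    rw [e6]
    have h7 : (q : ℝ) * X + D + 1 / q ≤ q * (X + D + 1) := by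
      have h8 : 1 / (q : ℝ) ≤ 1 := by rw [div_le_one hq0]; linarith
      have h9 : D ≤ q * D := le_mul_of_one_le_left hD0 (by linarith)
      linarith
    calc K2 * (q * X + D + 1 / q) * (Real.log q / q) ≤ K2 * (q * (X + D + 1)) * (Real.log q / q) := by
          refine mul_le_mul_of_nonneg_right (mul_le_mul_of_nonneg_left h7 hK2.le) (by positivity)
      _ = K2 * (X + D + 1) * Real.log q := by field_simp
  refine (mul_le_mul_of_nonneg_right h6 hR0).trans (le_of_eq ?_)
  rw [hR, hR1, hK]
  field_simp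

end Pool.Agent.Helper46K9.CL
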