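import Mathlib
import Pool.Agent.Helper46K9.CL.T
import Pool.Agent.Helper46K9.CL.H

set_option autoImplicit false

/-!
# The second moment of the near levels, weighted by the top level
-/

namespace Pool.Agent.Helper46K9.CL

open MeasureTheory Filter Topology
open Pool.Agent.H305R2 (ff NN LL gg measurable_ff measurable_gg ff_nonneg ff_le_one LL_cont LL_nonneg
  LL_le_one abs_gg_le_one measurable_NN)

lemma sq_sum (S : Finset ℕ) (f : ℕ → ℝ) (hf : ∀ p ∈ S, f p * f p = f p) :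
    (∑ p ∈ S, f p) ^ 2 = ∑ p ∈ S, f p + 2 * ∑ p ∈ S, ∑ m ∈ S.filter (fun m => p < m), f p * f m := by
  have e1 : (∑ p ∈ S, f p) ^ 2 = ∑ p ∈ S, ∑ m ∈ S, f p * f m := by
    rw [sq, Finset.sum_mul_sum]
  have e2 : ∀ p ∈ S, ∑ m ∈ S, f p * f m = ∑ m ∈ S, (if p < m then f p * f m else 0) +
      ∑ m ∈ S, (if m < p then f p * f m else 0) + f p := by
    intro p hp
    have e3 : f p = ∑ m ∈ S, (if p = m then f p * f m else 0) := by
      rw [Finset.sum_ite_eq, if_pos hp, hf p hp]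
    have e5 : ∑ m ∈ S, f p * f m = ∑ m ∈ S, (if p < m then f p * f m else 0) +
      ∑ m ∈ S, (if m < p then f p * f m else 0) + ∑ m ∈ S, (if p = m then f p * f m else 0) := by
      rw [← Finset.sum_add_distrib, ← Finset.sum_add_distrib]
      refine Finset.sum_congr rfl fun m _ => ?_
      rcases lt_trichotomy p m with h | h | h
      · rw [if_pos h, if_neg h.not_gt, if_neg h.ne]; ring
      · rw [if_neg h.not_lt, if_neg h.not_gt, if_pos h]; ring
      · rw [if_neg h.not_gt, if_pos h, if_neg h.ne']; ring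
    rw [e5, ← e3]
  have e4 : ∑ p ∈ S, ∑ m ∈ S, (if m < p then f p * f m else 0) =
      ∑ p ∈ S, ∑ m ∈ S, (if p < m then f p * f m else 0) := by
    rw [Finset.sum_comm]
    refine Finset.sum_congr rfl fun p _ => Finset.sum_congr rfl fun m _ => ?_
    split_ifs <;> ring
  rw [e1, Finset.sum_congr rfl e2, Finset.sum_add_distrib, Finset.sum_add_distrib, e4]
  simp only [Finset.sum_filter]
  ring

variable {x0 x1 y0 y1 : ℝ}

lemma ff_idem (p : ℕ) (u : ℝ) : ff p u * ff p u = ff p u := by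
  unfold ff
  split_ifs <;> norm_num

lemma int_Bx {F : ℝ × ℝ → ℝ} (hF : Measurable F) {B : ℝ} (h : ∀ z, |F z| ≤ B) :
    IntegrableOn F (Bx x0 x1 y0 y1) :=
  int_of_bdd (measurableSet_Bx _ _ _ _) (volume_Bx_lt_top _ _ _ _) hF fun z _ => h z

lemma m_ff (p : ℕ) : Measurable fun z : ℝ × ℝ => ff p (p * z.1 + z.2) := (measurable_ff p).comp (m_lev p)

lemma i_ff (p : ℕ) : IntegrableOn (fun z : ℝ × ℝ => ff p (p * z.1 + z.2)) (Bx x0 x1 y0 y1) :=
  int_Bx (m_ff p) (B := 1) fun z => abs_ff_le_one _ _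

lemma i_ff2 (p q : ℕ) : IntegrableOn (fun z : ℝ × ℝ => ff p (p * z.1 + z.2) * ff q (q * z.1 + z.2))
    (Bx x0 x1 y0 y1) :=
  int_Bx ((m_ff p).mul (m_ff q)) (B := 1) fun z => by
    rw [abs_mul]
    exact mul_le_one₀ (abs_ff_le_one _ _) (abs_nonneg _) (abs_ff_le_one _ _)

lemma i_ff3 (p q r : ℕ) : IntegrableOn (fun z : ℝ × ℝ => ff p (p * z.1 + z.2) *
    (ff q (q * z.1 + z.2) * ff r (r * z.1 + z.2))) (Bx x0 x1 y0 y1) :=
  int_Bx ((m_ff p).mul ((m_ff q).mul (m_ff r))) (B := 1) fun z => by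
    rw [abs_mul, abs_mul]
    exact mul_le_one₀ (abs_ff_le_one _ _) (by positivity)
      (mul_le_one₀ (abs_ff_le_one _ _) (abs_nonneg _) (abs_ff_le_one _ _))

lemma abs_gg_le' (q : ℕ) (u : ℝ) : |gg q u| ≤ ff q u + LL q u := by
  unfold gg
  rw [abs_le]
  constructor <;> linarith [ff_nonneg q u, LL_nonneg q u]

lemma num9 {K lam W V : ℝ} (hK : 0 < K) (hl : 0 ≤ lam) (hW : 0 ≤ W) (hV : 0 ≤ V) :
    (1 + 2 * (K * lam) ^ 2) * (K * W) + V * (K * W * (1 + 2 * (K * lam) ^ 2)) +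
      2 * (K * (lam * W)) + 2 * (K * W) * (K * lam + 2 * (K * lam ^ 2)) ≤
      (K * (1 + 2 * K ^ 2) * (1 + V) + 2 * K + 2 * K * (K + 2 * K)) * (1 + lam) ^ 2 * W := by
  have g1 : 1 + 2 * (K * lam) ^ 2 ≤ (1 + 2 * K ^ 2) * (1 + lam) ^ 2 := by
    have : 0 ≤ 2 * K ^ 2 * (1 + 2 * lam) + 2 * lam + lam ^ 2 := by positivity
    nlinarith
  have g2 : lam ≤ (1 + lam) ^ 2 := by nlinarith
  have g3 : lam ^ 2 ≤ (1 + lam) ^ 2 := by nlinarith
  have m1 := mul_le_mul_of_nonneg_left g1 (show 0 ≤ K * W * (1 + V) by positivity)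
  have m2 := mul_le_mul_of_nonneg_left g2 (show 0 ≤ 2 * K * W + 2 * K * W * K by positivity)
  have m3 := mul_le_mul_of_nonneg_left g3 (show 0 ≤ 2 * K * W * (2 * K) by positivity)
  linarith

lemma sq_sub_le {G F L R : ℝ} (h : G = F - L) (hL : 0 ≤ L) (hR : L ≤ R) :
    G ^ 2 ≤ 2 * F ^ 2 + 2 * R ^ 2 := by
  have h6 : L ^ 2 ≤ R ^ 2 := pow_le_pow_left₀ hL hR 2
  rw [h]
  nlinarith [sq_nonneg (F + L)]

lemma lam_le {C a b : ℝ} (hC : 0 < C) (h : a ≤ b) (hb : 1 ≤ b) : C * (1 + a) ≤ 2 * C * b := by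
  nlinarith

lemma lam_le2 {C a b : ℝ} (h : a ≤ 2 * C * b) (hb : 1 ≤ b) : 1 + a ≤ (1 + 2 * C) * b := by
  linarith

theorem near_moment (hx0 : 0 < x0) (hx : x0 ≤ x1) (hy : y0 ≤ y1) {κ : ℝ} (hκ : 0 < κ) :
    ∃ K' : ℝ, 0 ≤ K' ∧ ∃ P' : ℕ, 3 ≤ P' ∧ ∀ P'' ≥ P', ∀ N ≥ P',
      ∑ q ∈ A P'' N, ∫ z in Bx x0 x1 y0 y1, |gg q (q * z.1 + z.2)| *
        (1 + (G (NS κ P'' q) z.1 z.2) ^ 2) ≤ K' * (Real.log N * (Real.log (Real.log N)) ^ 2) := by
  obtain ⟨K, hK, P1, hP13, hup⟩ := up_box hx0 hx hy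
  obtain ⟨Kt, C3, hKt, hC3, P2, hP23, htr⟩ := triple_box hx0 hx hy
  set B := Bx x0 x1 y0 y1 with hB
  have hBm : MeasurableSet B := measurableSet_Bx _ _ _ _
  set T : ℕ → ℕ → ℕ → ℝ := fun p m q => ∫ z in B, ff m (m * z.1 + z.2) *
    (ff p (p * z.1 + z.2) * ff q (q * z.1 + z.2)) with hT
  obtain ⟨K3, hK3, P3, hP3, hts⟩ := triple_sum (K := max K Kt) hκ (le_max_of_le_left hK.le) hC3
    (max P1 P2) T
    (by
      intro p m q hp hpm hmq hqp hgap
      have h := htr p m q ((le_max_right _ _).trans hp) hpm hmq hqp hgap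
      refine h.trans ?_
      have hpq : (p : ℝ) < q := by exact_mod_cast hpm.trans hmq
      have hlq : 0 ≤ Real.log q := Real.log_natCast_nonneg q
      have h3 : 0 ≤ Real.log q / ((q : ℝ) - p) := div_nonneg hlq (by linarith)
      exact mul_le_mul_of_nonneg_right (le_max_right _ _)
        (mul_nonneg (mul_nonneg (w_nonneg p) (w_nonneg m)) h3))
    (by
      intro p m q hp hpm hmq
      have h := (hup q (by
        have := (le_max_left _ _).trans hp
        omega)).2.2 p ((le_max_left _ _).trans hp) (hpm.trans hmq)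
      have h2 : T p m q ≤ ∫ z in B, ff p (p * z.1 + z.2) * ff q (q * z.1 + z.2) := by
        refine setIntegral_mono (i_ff3 m p q) (i_ff2 p q) fun z => ?_
        exact mul_le_of_le_one_left (mul_nonneg (ff_nonneg _ _) (ff_nonneg _ _)) (ff_le_one _ _)
      refine h2.trans (h.trans ?_)
      exact mul_le_mul_of_nonneg_right (le_max_left _ _) (mul_nonneg (w_nonneg p) (w_nonneg q)))
  obtain ⟨C1, hC1, hnw⟩ := near_w hκ
  obtain ⟨Cm, hCm, hsw⟩ := sum_w_le
  obtain ⟨P4, hP4⟩ := eventually_atTop.1 (hnw.and ((lnt'.eventually_ge_atTop 1).and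
    (llnt.eventually_ge_atTop 1)))
  set V := (volume B).toReal with hV
  have hV0 : 0 ≤ V := ENNReal.toReal_nonneg
  -- the constant of the elementary part
  set K6 := K * (1 + 2 * K ^ 2) * (1 + V) + 2 * K + 2 * K * (K + 2 * K) with hK6
  have hK60 : 0 ≤ K6 := by positivity
  refine ⟨K6 * (1 + 2 * C1) ^ 2 * (1 + Cm) + 4 * K3, by positivity, max P3 P4,
    ((hP13.trans (le_max_left _ _)).trans hP3).trans (le_max_left _ _), fun P'' hP'' N hN => ?_⟩
  obtain ⟨-, lN, llN⟩ := hP4 N ((le_max_right _ _).trans hN)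
  have hP1'' : P1 ≤ P'' := (le_max_left _ _).trans (hP3.trans ((le_max_left _ _).trans hP''))
  have hN1 : 1 ≤ N := by
    have h1 := hP13.trans ((le_max_left _ _).trans (hP3.trans ((le_max_left _ _).trans hN)))
    omega
  have hswN : ∑ q ∈ A P'' N, w q ≤ (1 + Cm) * Real.log N := by
    refine (hsw P'' N hN1).trans ?_
    nlinarith
  have hpt : ∀ q ∈ A P'' N, ∫ z in B, |gg q (q * z.1 + z.2)| * (1 + (G (NS κ P'' q) z.1 z.2) ^ 2) ≤
      K6 * ((1 + 2 * C1) * Real.log (Real.log N)) ^ 2 * w q +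
      4 * ∑ p ∈ NS κ P'' q, ∑ m ∈ (NS κ P'' q).filter (fun m => p < m), T p m q := by
    intro q hq
    obtain ⟨a1, a2, a3⟩ := mem_A.1 hq
    have hqP4 : P4 ≤ q := (le_max_right _ _).trans (hP''.trans a3)
    obtain ⟨b1, b2, b3⟩ := hP4 q hqP4
    obtain ⟨c1, c2, c3⟩ := hup q (hP1''.trans a3)
    set S := NS κ P'' q with hS
    set lam := ∑ m ∈ S, w m with hlam
    have hlam0 : 0 ≤ lam := Finset.sum_nonneg fun m _ => w_nonneg m
    have hlamle : lam ≤ 2 * C1 * Real.log (Real.log N) := by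
      refine (b1 P'').trans ?_
      have h3 : Real.log (Real.log q) ≤ Real.log (Real.log N) := by
        refine Real.log_le_log (by linarith) ?_
        refine Real.log_le_log ?_ (by exact_mod_cast a1)
        exact_mod_cast a2.pos
      exact lam_le hC1 h3 llN
    have hwq := w_nonneg q
    -- notation for the pieces
    set Fs : ℝ × ℝ → ℝ := fun z => ∑ p ∈ S, ff p (p * z.1 + z.2) with hFs
    have hGz : ∀ z ∈ B, (G S z.1 z.2) ^ 2 ≤ 2 * (Fs z) ^ 2 + 2 * (K * lam) ^ 2 := by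
      intro z hz
      have e1 : G S z.1 z.2 = Fs z - ∑ p ∈ S, LL p (p * z.1 + z.2) := by
        simp only [G, hFs, gg, ← Finset.sum_sub_distrib]
      have h4 : 0 ≤ ∑ p ∈ S, LL p (p * z.1 + z.2) := Finset.sum_nonneg fun p _ => LL_nonneg _ _
      have h5 : ∑ p ∈ S, LL p (p * z.1 + z.2) ≤ K * lam := by
        rw [hlam, Finset.mul_sum]
        refine Finset.sum_le_sum fun p hp => ?_
        exact (hup p (hP1''.trans (mem_NS.1 hp).2.2.1)).1 z hz
      exact sq_sub_le e1 h4 h5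
    have hFsq : ∀ z, (Fs z) ^ 2 = ∑ p ∈ S, ff p (p * z.1 + z.2) +
        2 * ∑ p ∈ S, ∑ m ∈ S.filter (fun m => p < m), ff p (p * z.1 + z.2) * ff m (m * z.1 + z.2) :=
      fun z => sq_sum S (fun p => ff p (p * z.1 + z.2)) fun p _ => ff_idem p _
    have hbound : ∀ z ∈ B, |gg q (q * z.1 + z.2)| * (1 + (G S z.1 z.2) ^ 2) ≤
        (1 + 2 * (K * lam) ^ 2) * ff q (q * z.1 + z.2) + K * w q * (1 + 2 * (K * lam) ^ 2) +
        2 * (∑ p ∈ S, ff p (p * z.1 + z.2) * ff q (q * z.1 + z.2) +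
          2 * ∑ p ∈ S, ∑ m ∈ S.filter (fun m => p < m), ff m (m * z.1 + z.2) *
            (ff p (p * z.1 + z.2) * ff q (q * z.1 + z.2))) +
        2 * (K * w q) * (∑ p ∈ S, ff p (p * z.1 + z.2) +
          2 * ∑ p ∈ S, ∑ m ∈ S.filter (fun m => p < m),
            ff p (p * z.1 + z.2) * ff m (m * z.1 + z.2)) := by
      intro z hz
      have h4 : |gg q (q * z.1 + z.2)| ≤ ff q (q * z.1 + z.2) + K * w q :=
        (abs_gg_le' q _).trans (add_le_add le_rfl (c1 z hz))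
      have h5 := hGz z hz
      have h6 : |gg q (q * z.1 + z.2)| * (1 + (G S z.1 z.2) ^ 2) ≤
          (ff q (q * z.1 + z.2) + K * w q) * (1 + (2 * (Fs z) ^ 2 + 2 * (K * lam) ^ 2)) :=
        mul_le_mul h4 (by linarith) (by positivity) (by
          have := ff_nonneg q (q * z.1 + z.2)
          positivity)
      refine h6.trans (le_of_eq ?_)
      have e5 : ∑ p ∈ S, ff p (p * z.1 + z.2) * ff q (q * z.1 + z.2) =
          ff q (q * z.1 + z.2) * ∑ p ∈ S, ff p (p * z.1 + z.2) := by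
        rw [← Finset.sum_mul, mul_comm]
      have e6 : ∑ p ∈ S, ∑ m ∈ S.filter (fun m => p < m), ff m (m * z.1 + z.2) *
            (ff p (p * z.1 + z.2) * ff q (q * z.1 + z.2)) = ff q (q * z.1 + z.2) *
          ∑ p ∈ S, ∑ m ∈ S.filter (fun m => p < m), ff p (p * z.1 + z.2) * ff m (m * z.1 + z.2) := by
        rw [Finset.mul_sum]
        refine Finset.sum_congr rfl fun p _ => ?_
        rw [Finset.mul_sum]
        exact Finset.sum_congr rfl fun m _ => by ring
      rw [e5, e6, hFsq z]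
      ring
    have i1 := i_ff (x0 := x0) (x1 := x1) (y0 := y0) (y1 := y1) q
    have i2 : IntegrableOn (fun _ : ℝ × ℝ => K * w q * (1 + 2 * (K * lam) ^ 2)) B :=
      int_Bx measurable_const (B := |K * w q * (1 + 2 * (K * lam) ^ 2)|) fun z => le_rfl
    have i3 : IntegrableOn (fun z : ℝ × ℝ => ∑ p ∈ S, ff p (p * z.1 + z.2) * ff q (q * z.1 + z.2)) B :=
      integrable_finsetSum _ fun p _ => i_ff2 p q
    have i4 : IntegrableOn (fun z : ℝ × ℝ => ∑ p ∈ S, ∑ m ∈ S.filter (fun m => p < m),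
        ff m (m * z.1 + z.2) * (ff p (p * z.1 + z.2) * ff q (q * z.1 + z.2))) B :=
      integrable_finsetSum _ fun p _ => integrable_finsetSum _ fun m _ => i_ff3 m p q
    have i5 : IntegrableOn (fun z : ℝ × ℝ => ∑ p ∈ S, ff p (p * z.1 + z.2)) B :=
      integrable_finsetSum _ fun p _ => i_ff p
    have i6 : IntegrableOn (fun z : ℝ × ℝ => ∑ p ∈ S, ∑ m ∈ S.filter (fun m => p < m),
        ff p (p * z.1 + z.2) * ff m (m * z.1 + z.2)) B :=
      integrable_finsetSum _ fun p _ => integrable_finsetSum _ fun m _ => i_ff2 p m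
    have i0 : IntegrableOn (fun z : ℝ × ℝ => |gg q (q * z.1 + z.2)| * (1 + (G S z.1 z.2) ^ 2)) B := by
      refine int_Bx ?_ (B := 1 + (S.card : ℝ) ^ 2) fun z => ?_
      · exact (((measurable_gg q).comp (m_lev q)).abs).mul (((measurable_G S).pow_const 2).const_add 1)
      · rw [abs_mul, abs_abs, abs_of_nonneg (by positivity : 0 ≤ 1 + (G S z.1 z.2) ^ 2)]
        have h4 := abs_gg_le_one q (q * z.1 + z.2)
        have h5 := abs_G_le S z.1 z.2
        have h6 : (G S z.1 z.2) ^ 2 ≤ (S.card : ℝ) ^ 2 := by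
          rw [← sq_abs]
          exact pow_le_pow_left₀ (abs_nonneg _) h5 2
        calc |gg q (q * z.1 + z.2)| * (1 + (G S z.1 z.2) ^ 2) ≤ 1 * (1 + (G S z.1 z.2) ^ 2) :=
              mul_le_mul_of_nonneg_right h4 (by positivity)
          _ ≤ _ := by linarith
    have j1 : IntegrableOn (fun z : ℝ × ℝ => (1 + 2 * (K * lam) ^ 2) * ff q (q * z.1 + z.2)) B :=
      i1.const_mul _
    have j3 : IntegrableOn (fun z : ℝ × ℝ => 2 * (∑ p ∈ S, ff p (p * z.1 + z.2) * ff q (q * z.1 + z.2) +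
          2 * ∑ p ∈ S, ∑ m ∈ S.filter (fun m => p < m), ff m (m * z.1 + z.2) *
            (ff p (p * z.1 + z.2) * ff q (q * z.1 + z.2)))) B :=
      (i3.add (i4.const_mul 2)).const_mul 2
    have j4 : IntegrableOn (fun z : ℝ × ℝ => 2 * (K * w q) * (∑ p ∈ S, ff p (p * z.1 + z.2) +
          2 * ∑ p ∈ S, ∑ m ∈ S.filter (fun m => p < m),
            ff p (p * z.1 + z.2) * ff m (m * z.1 + z.2))) B :=
      (i5.add (i6.const_mul 2)).const_mul _
    have hI := setIntegral_mono_on i0 (((j1.add i2).add j3).add j4) hBm hbound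
    have n1 : ∫ z in B, (1 + 2 * (K * lam) ^ 2) * ff q (q * z.1 + z.2) =
        (1 + 2 * (K * lam) ^ 2) * ∫ z in B, ff q (q * z.1 + z.2) := integral_const_mul _ _
    have n2 : ∫ _z in B, K * w q * (1 + 2 * (K * lam) ^ 2) = V * (K * w q * (1 + 2 * (K * lam) ^ 2)) := by
      rw [setIntegral_const, smul_eq_mul]
      rfl
    have n3 : ∫ z in B, 2 * (∑ p ∈ S, ff p (p * z.1 + z.2) * ff q (q * z.1 + z.2) +
          2 * ∑ p ∈ S, ∑ m ∈ S.filter (fun m => p < m), ff m (m * z.1 + z.2) *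
            (ff p (p * z.1 + z.2) * ff q (q * z.1 + z.2))) =
        2 * ((∑ p ∈ S, ∫ z in B, ff p (p * z.1 + z.2) * ff q (q * z.1 + z.2)) +
          2 * ∑ p ∈ S, ∑ m ∈ S.filter (fun m => p < m), T p m q) := by
      rw [integral_const_mul, integral_add i3 (i4.const_mul 2), integral_const_mul,
        integral_finsetSum _ (fun p _ => i_ff2 p q),
        integral_finsetSum _ (fun p _ => integrable_finsetSum _ fun m _ => i_ff3 m p q)]
      have e7 : ∀ p ∈ S, ∫ z in B, ∑ m ∈ S.filter (fun m => p < m), ff m (m * z.1 + z.2) *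
        (ff p (p * z.1 + z.2) * ff q (q * z.1 + z.2)) =
        ∑ m ∈ S.filter (fun m => p < m), T p m q := fun p _ => by
        rw [integral_finsetSum _ fun m _ => i_ff3 m p q]
      rw [Finset.sum_congr rfl e7]
    have n4 : ∫ z in B, 2 * (K * w q) * (∑ p ∈ S, ff p (p * z.1 + z.2) +
          2 * ∑ p ∈ S, ∑ m ∈ S.filter (fun m => p < m),
            ff p (p * z.1 + z.2) * ff m (m * z.1 + z.2)) =
        2 * (K * w q) * ((∑ p ∈ S, ∫ z in B, ff p (p * z.1 + z.2)) +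
          2 * ∑ p ∈ S, ∑ m ∈ S.filter (fun m => p < m),
            ∫ z in B, ff p (p * z.1 + z.2) * ff m (m * z.1 + z.2)) := by
      rw [integral_const_mul, integral_add i5 (i6.const_mul 2), integral_const_mul,
        integral_finsetSum _ (fun p _ => i_ff p),
        integral_finsetSum _ (fun p _ => integrable_finsetSum _ fun m _ => i_ff2 p m)]
      have e8 : ∀ p ∈ S, ∫ z in B, ∑ m ∈ S.filter (fun m => p < m), ff p (p * z.1 + z.2) *
        ff m (m * z.1 + z.2) = ∑ m ∈ S.filter (fun m => p < m),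
        ∫ z in B, ff p (p * z.1 + z.2) * ff m (m * z.1 + z.2) := fun p _ => by
        rw [integral_finsetSum _ fun m _ => i_ff2 p m]
      rw [Finset.sum_congr rfl e8]
    rw [integral_add' ((j1.add i2).add j3) j4, integral_add' (j1.add i2) j3, integral_add' j1 i2,
      n1, n2, n3, n4] at hI
    have k1 : ∑ p ∈ S, ∫ z in B, ff p (p * z.1 + z.2) * ff q (q * z.1 + z.2) ≤ K * (lam * w q) := by
      rw [hlam, Finset.sum_mul, Finset.mul_sum]
      refine Finset.sum_le_sum fun p hp => ?_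
      obtain ⟨d1, d2, d3, d4⟩ := mem_NS.1 hp
      exact c3 p (hP1''.trans d3) d1
    have k2 : ∑ p ∈ S, ∫ z in B, ff p (p * z.1 + z.2) ≤ K * lam := by
      rw [hlam, Finset.mul_sum]
      refine Finset.sum_le_sum fun p hp => ?_
      exact (hup p (hP1''.trans (mem_NS.1 hp).2.2.1)).2.1
    have k3 : ∑ p ∈ S, ∑ m ∈ S.filter (fun m => p < m),
        ∫ z in B, ff p (p * z.1 + z.2) * ff m (m * z.1 + z.2) ≤ K * lam ^ 2 := by
      have h8 : ∑ p ∈ S, ∑ m ∈ S.filter (fun m => p < m),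
          ∫ z in B, ff p (p * z.1 + z.2) * ff m (m * z.1 + z.2) ≤
          ∑ p ∈ S, ∑ m ∈ S, K * (w p * w m) := by
        refine Finset.sum_le_sum fun p hp => ?_
        refine (Finset.sum_le_sum (g := fun m => K * (w p * w m)) fun m hm => ?_).trans
          (Finset.sum_le_sum_of_subset_of_nonneg (Finset.filter_subset _ _) fun m _ _ =>
            mul_nonneg hK.le (mul_nonneg (w_nonneg p) (w_nonneg m)))
        rw [Finset.mem_filter] at hm
        exact (hup m (hP1''.trans (mem_NS.1 hm.1).2.2.1)).2.2 p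
          (hP1''.trans (mem_NS.1 hp).2.2.1) hm.2
      refine h8.trans (le_of_eq ?_)
      rw [hlam, sq, Finset.sum_mul_sum, Finset.mul_sum]
      exact Finset.sum_congr rfl fun p _ => by rw [Finset.mul_sum]
    set T3 := ∑ p ∈ S, ∑ m ∈ S.filter (fun m => p < m), T p m q with hT3
    have l1 := mul_le_mul_of_nonneg_left c2 (show 0 ≤ 1 + 2 * (K * lam) ^ 2 by positivity)
    have l4 := mul_le_mul_of_nonneg_left (add_le_add k2 (mul_le_mul_of_nonneg_left k3
      (show (0 : ℝ) ≤ 2 by norm_num))) (show 0 ≤ 2 * (K * w q) by positivity)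
    have hc2 : Real.log q / (q : ℝ) = w q := rfl
    rw [hc2] at l1
    have hfin : ∫ z in B, |gg q (q * z.1 + z.2)| * (1 + (G S z.1 z.2) ^ 2) ≤
        K6 * (1 + lam) ^ 2 * w q + 4 * T3 := by
      have h9 : (1 + 2 * (K * lam) ^ 2) * (K * w q) + V * (K * w q * (1 + 2 * (K * lam) ^ 2)) +
          2 * (K * (lam * w q)) + 2 * (K * w q) * (K * lam + 2 * (K * lam ^ 2)) ≤
          K6 * (1 + lam) ^ 2 * w q := by
        exact num9 hK hlam0 hwq hV0
      linarith
    refine hfin.trans (add_le_add ?_ le_rfl)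
    refine mul_le_mul_of_nonneg_right ?_ hwq
    exact mul_le_mul_of_nonneg_left (pow_le_pow_left₀ (by positivity) (lam_le2 hlamle llN) 2) hK60
  refine (Finset.sum_le_sum hpt).trans ?_
  rw [Finset.sum_add_distrib, ← Finset.mul_sum, ← Finset.mul_sum]
  have h12 := mul_le_mul_of_nonneg_left hswN
    (show 0 ≤ K6 * ((1 + 2 * C1) * Real.log (Real.log N)) ^ 2 by positivity)
  have h13 := mul_le_mul_of_nonneg_left (hts P'' ((le_max_left _ _).trans hP'') N
    ((le_max_left _ _).trans hN)) (show (0 : ℝ) ≤ 4 by norm_num)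
  have e : K6 * ((1 + 2 * C1) * Real.log (Real.log N)) ^ 2 * ((1 + Cm) * Real.log N) =
      K6 * (1 + 2 * C1) ^ 2 * (1 + Cm) * (Real.log N * (Real.log (Real.log N)) ^ 2) := by ring
  rw [e] at h12
  linarith

end Pool.Agent.Helper46K9.CL
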