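import Mathlib

set_option autoImplicit false

/-!
# Expansion of the exponential of a sum
-/

namespace Pool.Agent.Helper46K9.CL

open MeasureTheory Filter Topology

lemma norm_eI (x : ℝ) : ‖Complex.exp ((x : ℂ) * Complex.I)‖ = 1 := Complex.norm_exp_ofReal_mul_I x

lemma e1b (x : ℝ) : ‖Complex.exp ((x : ℂ) * Complex.I) - 1‖ ≤ |x| := by
  have h := Real.norm_exp_I_mul_ofReal_sub_one_le (x := x)
  rwa [mul_comm Complex.I, Real.norm_eq_abs] at h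

lemma e2b (x : ℝ) : ‖Complex.exp ((x : ℂ) * Complex.I) - 1 - (x : ℂ) * Complex.I‖ ≤ 3 * x ^ 2 := by
  have hn : ‖(x : ℂ) * Complex.I‖ = |x| := by
    rw [norm_mul, Complex.norm_I, mul_one, Complex.norm_real, Real.norm_eq_abs]
  rcases le_total |x| 1 with h | h
  · have h1 := Complex.norm_exp_sub_one_sub_id_le (x := (x : ℂ) * Complex.I) (by rw [hn]; exact h)
    rw [hn, sq_abs] at h1
    nlinarith [sq_nonneg x]
  · have h1 : ‖Complex.exp ((x : ℂ) * Complex.I) - 1 - (x : ℂ) * Complex.I‖ ≤ |x| + |x| := by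
      refine (norm_sub_le _ _).trans ?_
      rw [hn]
      exact add_le_add (e1b x) le_rfl
    have h2 : |x| ≤ x ^ 2 := by
      rw [← sq_abs]
      nlinarith
    nlinarith [sq_nonneg x]

lemma e3b (x : ℝ) : ‖Complex.exp ((x : ℂ) * Complex.I) - 1 - (x : ℂ) * Complex.I + (x : ℂ) ^ 2 / 2‖ ≤
    4 * |x| ^ 3 := by
  have hn : ‖(x : ℂ) * Complex.I‖ = |x| := by
    rw [norm_mul, Complex.norm_I, mul_one, Complex.norm_real, Real.norm_eq_abs]
  have h0 := abs_nonneg x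
  have h3 : 0 ≤ |x| ^ 3 := by positivity
  rcases le_total |x| 1 with h | h
  · have h1 := Complex.exp_bound (x := (x : ℂ) * Complex.I) (by rw [hn]; exact h) (n := 3) (by norm_num)
    rw [hn] at h1
    have e : Complex.exp ((x : ℂ) * Complex.I) - ∑ m ∈ Finset.range 3,
        ((x : ℂ) * Complex.I) ^ m / (m.factorial : ℂ) =
        Complex.exp ((x : ℂ) * Complex.I) - 1 - (x : ℂ) * Complex.I + (x : ℂ) ^ 2 / 2 := by
      simp only [Finset.sum_range_succ, Finset.sum_range_zero, Nat.factorial]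
      push_cast
      linear_combination (-(x : ℂ) ^ 2 / 2) * Complex.I_sq
    rw [e] at h1
    refine h1.trans ?_
    norm_num [Nat.factorial]
    nlinarith
  · have h1 : ‖Complex.exp ((x : ℂ) * Complex.I) - 1 - (x : ℂ) * Complex.I + (x : ℂ) ^ 2 / 2‖ ≤
        |x| + |x| + |x| ^ 2 := by
      refine (norm_add_le _ _).trans (add_le_add ((norm_sub_le _ _).trans ?_) ?_)
      · rw [hn]
        exact add_le_add (e1b x) le_rfl
      · rw [norm_div, norm_pow, Complex.norm_real, Real.norm_eq_abs]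
        norm_num
        nlinarith [sq_nonneg x]
    have h2 : |x| ≤ |x| ^ 3 := by
      have : 1 ≤ |x| ^ 2 := one_le_pow₀ h
      nlinarith
    have h4 : |x| ^ 2 ≤ |x| ^ 3 := pow_le_pow_right₀ h (by norm_num)
    linarith

lemma expand {θ g Sn u L a : ℝ} (hg : g ^ 2 = g * (1 - 2 * L) + L - L ^ 2) (hg1 : |g| ≤ 1)
    (hL : 0 ≤ L) :
    ‖Complex.exp (((u + θ * Sn + θ * g : ℝ) : ℂ) * Complex.I) -
      (1 - (a : ℂ) / 2) * Complex.exp (((u + θ * Sn : ℝ) : ℂ) * Complex.I) -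
      ((θ * g : ℝ) * Complex.I - (θ ^ 2 * Sn * g : ℝ) - (θ ^ 2 * g / 2 : ℝ)) *
        Complex.exp ((u : ℂ) * Complex.I)‖ ≤
      5 * (|θ| ^ 3 * (|g| * (1 + Sn ^ 2))) + θ ^ 2 * (|g| * L) + θ ^ 2 * L ^ 2 + |θ ^ 2 * L - a| := by
  set E0 := Complex.exp ((u : ℂ) * Complex.I) with hE0
  set E1 := Complex.exp (((θ * Sn : ℝ) : ℂ) * Complex.I) with hE1
  set EA := Complex.exp (((θ * g : ℝ) : ℂ) * Complex.I) with hEA
  have n0 : ‖E0‖ = 1 := norm_eI u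
  have n1 : ‖E1‖ = 1 := norm_eI _
  have s1 : Complex.exp (((u + θ * Sn : ℝ) : ℂ) * Complex.I) = E0 * E1 := by
    rw [hE0, hE1, ← Complex.exp_add]
    congr 1
    push_cast
    ring
  have s2 : Complex.exp (((u + θ * Sn + θ * g : ℝ) : ℂ) * Complex.I) = E0 * E1 * EA := by
    rw [hE0, hE1, hEA, ← Complex.exp_add, ← Complex.exp_add]
    congr 1
    push_cast
    ring
  have hgC : (g : ℂ) ^ 2 = (g : ℂ) * (1 - 2 * (L : ℂ)) + (L : ℂ) - (L : ℂ) ^ 2 := by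
    exact_mod_cast congrArg (fun x : ℝ => (x : ℂ)) hg
  set r3 := EA - 1 - ((θ * g : ℝ) : ℂ) * Complex.I + ((θ * g : ℝ) : ℂ) ^ 2 / 2 with hr3
  set r2 := E1 - 1 - ((θ * Sn : ℝ) : ℂ) * Complex.I with hr2
  have b3 : ‖r3‖ ≤ 4 * |θ * g| ^ 3 := e3b _
  have b2 : ‖r2‖ ≤ 3 * (θ * Sn) ^ 2 := e2b _
  have b1 : ‖E1 - 1‖ ≤ |θ * Sn| := e1b _
  have key : Complex.exp (((u + θ * Sn + θ * g : ℝ) : ℂ) * Complex.I) -
      (1 - (a : ℂ) / 2) * Complex.exp (((u + θ * Sn : ℝ) : ℂ) * Complex.I) -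
      ((θ * g : ℝ) * Complex.I - (θ ^ 2 * Sn * g : ℝ) - (θ ^ 2 * g / 2 : ℝ)) * E0 =
      E0 * (E1 * r3 + ((θ * g : ℝ) : ℂ) * Complex.I * r2 - ((θ ^ 2 * g / 2 : ℝ) : ℂ) * (E1 - 1) +
        ((θ ^ 2 * g * L : ℝ) : ℂ) * E1 + ((θ ^ 2 * L ^ 2 / 2 : ℝ) : ℂ) * E1 -
        (((θ ^ 2 * L - a) / 2 : ℝ) : ℂ) * E1) := by
    rw [s1, s2, hr3, hr2]
    push_cast
    linear_combination (-(E0 * E1 * (θ : ℂ) ^ 2 / 2)) * hgC + (E0 * (θ : ℂ) ^ 2 * g * Sn) * Complex.I_sq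
  rw [key, norm_mul, n0, one_mul]
  have t1 : ‖E1 * r3‖ ≤ 4 * (|θ| ^ 3 * |g|) := by
    rw [norm_mul, n1, one_mul]
    refine b3.trans ?_
    rw [abs_mul, mul_pow]
    have : |g| ^ 3 ≤ |g| := pow_le_of_le_one (abs_nonneg _) hg1 (by norm_num)
    have h2 := mul_le_mul_of_nonneg_left this (show 0 ≤ |θ| ^ 3 by positivity)
    linarith
  have t2 : ‖((θ * g : ℝ) : ℂ) * Complex.I * r2‖ ≤ 3 * (|θ| ^ 3 * |g| * Sn ^ 2) := by
    rw [norm_mul, norm_mul, Complex.norm_I, mul_one, Complex.norm_real, Real.norm_eq_abs, abs_mul]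
    refine (mul_le_mul_of_nonneg_left b2 (by positivity)).trans (le_of_eq ?_)
    rw [mul_pow, ← sq_abs θ]
    ring
  have t3 : ‖((θ ^ 2 * g / 2 : ℝ) : ℂ) * (E1 - 1)‖ ≤ 1 / 2 * (|θ| ^ 3 * |g| * (1 + Sn ^ 2)) := by
    rw [norm_mul, Complex.norm_real, Real.norm_eq_abs, abs_div, abs_mul, abs_two,
      abs_of_nonneg (sq_nonneg θ)]
    refine (mul_le_mul_of_nonneg_left b1 (by positivity)).trans ?_
    rw [abs_mul, ← sq_abs θ]
    have h1 : |Sn| ≤ 1 + Sn ^ 2 := by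
      rw [← sq_abs Sn]
      nlinarith [abs_nonneg Sn, sq_nonneg (|Sn| - 1)]
    have h2 := mul_le_mul_of_nonneg_left h1 (show 0 ≤ 1 / 2 * (|θ| ^ 3 * |g|) by positivity)
    calc |θ| ^ 2 * |g| / 2 * (|θ| * |Sn|) = 1 / 2 * (|θ| ^ 3 * |g|) * |Sn| := by ring
      _ ≤ _ := h2
      _ = _ := by ring
  have t4 : ‖((θ ^ 2 * g * L : ℝ) : ℂ) * E1‖ ≤ θ ^ 2 * (|g| * L) := by
    rw [norm_mul, n1, mul_one, Complex.norm_real, Real.norm_eq_abs, abs_mul, abs_mul,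
      abs_of_nonneg (sq_nonneg θ), abs_of_nonneg hL]
    exact le_of_eq (by ring)
  have t5 : ‖((θ ^ 2 * L ^ 2 / 2 : ℝ) : ℂ) * E1‖ ≤ θ ^ 2 * L ^ 2 := by
    rw [norm_mul, n1, mul_one, Complex.norm_real, Real.norm_eq_abs, abs_of_nonneg (by positivity)]
    have : 0 ≤ θ ^ 2 * L ^ 2 := by positivity
    linarith
  have t6 : ‖(((θ ^ 2 * L - a) / 2 : ℝ) : ℂ) * E1‖ ≤ |θ ^ 2 * L - a| := by
    rw [norm_mul, n1, mul_one, Complex.norm_real, Real.norm_eq_abs, abs_div, abs_two]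
    have := abs_nonneg (θ ^ 2 * L - a)
    linarith
  have t0 : 0 ≤ |θ| ^ 3 * |g| := by positivity
  have t00 : 0 ≤ |θ| ^ 3 * |g| * Sn ^ 2 := by positivity
  refine (norm_sub_le _ _).trans ?_
  have u1 := norm_add_le (E1 * r3 + ((θ * g : ℝ) : ℂ) * Complex.I * r2 -
    ((θ ^ 2 * g / 2 : ℝ) : ℂ) * (E1 - 1) + ((θ ^ 2 * g * L : ℝ) : ℂ) * E1)
    (((θ ^ 2 * L ^ 2 / 2 : ℝ) : ℂ) * E1)
  have u2 := norm_add_le (E1 * r3 + ((θ * g : ℝ) : ℂ) * Complex.I * r2 -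
    ((θ ^ 2 * g / 2 : ℝ) : ℂ) * (E1 - 1)) (((θ ^ 2 * g * L : ℝ) : ℂ) * E1)
  have u3 := norm_sub_le (E1 * r3 + ((θ * g : ℝ) : ℂ) * Complex.I * r2)
    (((θ ^ 2 * g / 2 : ℝ) : ℂ) * (E1 - 1))
  have u4 := norm_add_le (E1 * r3) (((θ * g : ℝ) : ℂ) * Complex.I * r2)
  nlinarith

/-- an integral against a phase -/
lemma norm_int_exp {α : Type} [MeasurableSpace α] {μ : Measure α} {h φ : α → ℝ}
    (h1 : Integrable (fun z => h z * Real.cos (φ z)) μ)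
    (h2 : Integrable (fun z => h z * Real.sin (φ z)) μ) :
    ‖∫ z, (h z : ℂ) * Complex.exp ((φ z : ℂ) * Complex.I) ∂μ‖ ≤
      |∫ z, h z * Real.cos (φ z) ∂μ| + |∫ z, h z * Real.sin (φ z) ∂μ| := by
  have e : ∀ z, (h z : ℂ) * Complex.exp ((φ z : ℂ) * Complex.I) =
      ((h z * Real.cos (φ z) : ℝ) : ℂ) + ((h z * Real.sin (φ z) : ℝ) : ℂ) * Complex.I := by
    intro z
    rw [Complex.exp_mul_I]
    push_cast
    ring
  simp_rw [e]
  rw [integral_add h1.ofReal (h2.ofReal.mul_const _), integral_mul_const, integral_complex_ofReal,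
    integral_complex_ofReal]
  refine (norm_add_le _ _).trans (add_le_add ?_ ?_)
  · exact le_of_eq (Complex.norm_real _)
  · rw [norm_mul, Complex.norm_I, mul_one]
    exact le_of_eq (Complex.norm_real _)

end Pool.Agent.Helper46K9.CL
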