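import Mathlib
import Pool.Agent.Helper46K9.CL.N
import Pool.Agent.Helper46K9.CL.X
import Pool.Agent.TH888.R.MeanU

set_option autoImplicit false

/-!
# One step of the replacement argument
-/

namespace Pool.Agent.Helper46K9.CL

open MeasureTheory Filter Topology
open Pool.Agent.H305R2 (ff NN LL gg measurable_ff measurable_gg ff_nonneg ff_le_one LL_cont LL_nonneg
  LL_le_one abs_gg_le_one measurable_NN)

lemma sqrt_lip {x0 a b : ℝ} (hx0 : 0 < x0) (ha : x0 ≤ a) (hb : x0 ≤ b) :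
    |Real.sqrt a - Real.sqrt b| ≤ 1 / Real.sqrt x0 * |a - b| := by
  have h0 : 0 < Real.sqrt x0 := Real.sqrt_pos.2 hx0
  have h1 : Real.sqrt x0 ≤ Real.sqrt a := Real.sqrt_le_sqrt ha
  have h2 : Real.sqrt x0 ≤ Real.sqrt b := Real.sqrt_le_sqrt hb
  have e : a - b = (Real.sqrt a - Real.sqrt b) * (Real.sqrt a + Real.sqrt b) := by
    have h3 := Real.mul_self_sqrt (hx0.le.trans ha)
    have h4 := Real.mul_self_sqrt (hx0.le.trans hb)
    linear_combination -h3 + h4
  rw [one_div_mul_eq_div, le_div_iff₀ h0, e, abs_mul, abs_of_nonneg (show 0 ≤ Real.sqrt a + Real.sqrt b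
    by positivity)]
  exact mul_le_mul_of_nonneg_left (by linarith) (abs_nonneg _)

/-- the admissible data -/
lemma adm {x0 x1 : ℝ} (hx0 : 0 < x0) (hx : x0 ≤ x1) {c : ℝ} (hc : 0 ≤ c) : ∃ C : ℝ, 0 ≤ C ∧
    ∀ s : ℝ, |s| ≤ c → ∀ τ : ℝ → ℝ, Measurable τ → (∀ a, |τ a| ≤ 1) → (∀ a b, |τ a - τ b| ≤ |a - b|) →
      Adm x0 x1 C (fun x => Real.sqrt x / Real.sqrt x1) (fun x => s * Real.sqrt x) τ ∧
      Adm x0 x1 C (fun x => x / x1) (fun x => s * Real.sqrt x) τ := by
  have hx1 : 0 < x1 := lt_of_lt_of_le hx0 hx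
  have h0 : 0 < Real.sqrt x0 := Real.sqrt_pos.2 hx0
  have h1 : 0 < Real.sqrt x1 := Real.sqrt_pos.2 hx1
  set C := c * (Real.sqrt x1 + 1 / Real.sqrt x0) + 1 / (Real.sqrt x0 * Real.sqrt x1) + 1 / x1 with hC
  have a1 : 0 ≤ c * Real.sqrt x1 := by positivity
  have a2 : 0 ≤ c * (1 / Real.sqrt x0) := by positivity
  have a3 : 0 ≤ 1 / (Real.sqrt x0 * Real.sqrt x1) := by positivity
  have a4 : 0 ≤ 1 / x1 := by positivity
  have hC0 : 0 ≤ C := by positivity
  refine ⟨C, hC0, fun s hs τ hτ hτ1 hτ2 => ?_⟩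
  have bθ : ∀ x ∈ Set.Icc x0 x1, |s * Real.sqrt x| ≤ C := by
    intro x hx'
    rw [abs_mul, abs_of_nonneg (Real.sqrt_nonneg x)]
    refine (mul_le_mul hs (Real.sqrt_le_sqrt hx'.2) (Real.sqrt_nonneg _) hc).trans ?_
    rw [hC]
    linarith
  have lθ : ∀ x ∈ Set.Icc x0 x1, ∀ x' ∈ Set.Icc x0 x1, |s * Real.sqrt x - s * Real.sqrt x'| ≤
      C * |x - x'| := by
    intro x hx' x' hx''
    rw [← mul_sub, abs_mul]
    refine (mul_le_mul hs (sqrt_lip hx0 hx'.1 hx''.1) (abs_nonneg _) hc).trans ?_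
    rw [← mul_assoc]
    refine mul_le_mul_of_nonneg_right ?_ (abs_nonneg _)
    rw [hC]
    linarith
  have mθ : Measurable fun x : ℝ => s * Real.sqrt x := (Real.continuous_sqrt.measurable).const_mul s
  constructor
  · refine ⟨hC0, Real.continuous_sqrt.measurable.div_const _, mθ, hτ, ?_, bθ, ?_, lθ, hτ1, hτ2⟩
    · intro x hx'
      rw [abs_of_nonneg (by positivity), div_le_one h1]
      exact Real.sqrt_le_sqrt hx'.2
    · intro x hx' x' hx''
      rw [← sub_div, abs_div, abs_of_pos h1, div_le_iff₀ h1]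
      refine (sqrt_lip hx0 hx'.1 hx''.1).trans ?_
      have e : 1 / Real.sqrt x0 * |x - x'| =
          1 / (Real.sqrt x0 * Real.sqrt x1) * |x - x'| * Real.sqrt x1 := by field_simp
      rw [e]
      refine mul_le_mul_of_nonneg_right (mul_le_mul_of_nonneg_right ?_ (abs_nonneg _)) h1.le
      rw [hC]
      linarith
  · refine ⟨hC0, measurable_id.div_const _, mθ, hτ, ?_, bθ, ?_, lθ, hτ1, hτ2⟩
    · intro x hx'
      rw [abs_of_nonneg (div_nonneg (by linarith [hx'.1]) hx1.le), div_le_one hx1]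
      exact hx'.2
    · intro x hx' x' hx''
      rw [← sub_div, abs_div, abs_of_pos hx1, div_eq_mul_one_div, mul_comm]
      refine mul_le_mul_of_nonneg_right ?_ (abs_nonneg _)
      rw [hC]
      linarith

lemma harm (q : ℕ) (hq : 1 ≤ q) (S : Finset ℕ) (hS : ∀ p ∈ S, 1 ≤ p ∧ p < q) :
    ∑ p ∈ S, (1 / (p : ℝ) + 1 / ((q : ℝ) - p)) ≤ 2 * (1 + Real.log q) := by
  have hh : ∑ k ∈ Finset.Icc 1 q, 1 / (k : ℝ) ≤ 1 + Real.log q := by
    have h1 := harmonic_le_one_add_log q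
    rw [harmonic_eq_sum_Icc] at h1
    push_cast at h1
    simpa [one_div] using h1
  have h1 : ∑ p ∈ S, 1 / (p : ℝ) ≤ ∑ k ∈ Finset.Icc 1 q, 1 / (k : ℝ) := by
    refine Finset.sum_le_sum_of_subset_of_nonneg ?_ fun _ _ _ => by positivity
    intro p hp
    obtain ⟨a1, a2⟩ := hS p hp
    rw [Finset.mem_Icc]
    exact ⟨a1, a2.le⟩
  have h2 : ∑ p ∈ S, 1 / ((q : ℝ) - p) ≤ ∑ k ∈ Finset.Icc 1 q, 1 / (k : ℝ) := by
    have e : ∑ p ∈ S, 1 / ((q : ℝ) - p) = ∑ k ∈ S.image (fun p => q - p), 1 / (k : ℝ) := by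
      rw [Finset.sum_image]
      · refine Finset.sum_congr rfl fun p hp => ?_
        rw [Nat.cast_sub (hS p hp).2.le]
      · intro a ha b hb hab
        have h3 := (hS a ha).2
        have h4 := (hS b hb).2
        simp only at hab
        omega
    rw [e]
    refine Finset.sum_le_sum_of_subset_of_nonneg ?_ fun _ _ _ => by positivity
    intro k hk
    rw [Finset.mem_image] at hk
    obtain ⟨p, hp, hpk⟩ := hk
    obtain ⟨a1, a2⟩ := hS p hp
    rw [Finset.mem_Icc]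
    omega
  rw [Finset.sum_add_distrib]
  linarith

/-- the phase at the levels of `S` -/
noncomputable def Ph (s : ℝ) (S : Finset ℕ) (z : ℝ × ℝ) : ℂ :=
  Complex.exp (((s * Real.sqrt z.1 * G S z.1 z.2 : ℝ) : ℂ) * Complex.I)

lemma m_ph (s : ℝ) (S : Finset ℕ) : Measurable fun z : ℝ × ℝ => s * Real.sqrt z.1 * G S z.1 z.2 :=
  (((Real.continuous_sqrt.measurable).comp measurable_fst).const_mul s).mul (measurable_G S)

lemma m_Ph (s : ℝ) (S : Finset ℕ) : Measurable (Ph s S) :=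
  Complex.measurable_exp.comp ((Complex.measurable_ofReal.comp (m_ph s S)).mul_const _)

lemma norm_Ph (s : ℝ) (S : Finset ℕ) (z : ℝ × ℝ) : ‖Ph s S z‖ = 1 := norm_eI _

/-- the far primes -/
noncomputable def FS (κ : ℝ) (P q : ℕ) : Finset ℕ :=
  (Finset.range q).filter (fun p => p.Prime ∧ P ≤ p ∧ (p : ℝ) ≤ κ * (q / Real.log q))

lemma G_split (κ : ℝ) (P q : ℕ) (hq : 1 ≤ q) (x y : ℝ) :
    G (A P (q - 1)) x y = G (FS κ P q) x y + G (NS κ P q) x y := by
  have hd : Disjoint (FS κ P q) (NS κ P q) := by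
    rw [Finset.disjoint_left]
    intro p h1 h2
    unfold FS at h1
    rw [Finset.mem_filter] at h1
    exact absurd (mem_NS.1 h2).2.2.2 (not_lt.2 h1.2.2.2)
  have he : A P (q - 1) = FS κ P q ∪ NS κ P q := by
    ext p
    rw [Finset.mem_union, mem_A, mem_NS]
    unfold FS
    rw [Finset.mem_filter, Finset.mem_range]
    constructor
    · rintro ⟨h1, h2, h3⟩
      rcases le_or_gt (p : ℝ) (κ * (q / Real.log q)) with h | h
      · exact Or.inl ⟨by omega, h2, h3, h⟩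
      · exact Or.inr ⟨by omega, h2, h3, h⟩
    · rintro (⟨h1, h2, h3, -⟩ | ⟨h1, h2, h3, -⟩)
      · exact ⟨by omega, h2, h3⟩
      · exact ⟨by omega, h2, h3⟩
  unfold G
  rw [he, Finset.sum_union hd]

lemma G_insert {P q : ℕ} (hq : q.Prime) (hPq : P ≤ q) (x y : ℝ) :
    G (A P q) x y = G (A P (q - 1)) x y + gg q (q * x + y) := by
  have h1 := hq.one_lt
  have he : A P q = insert q (A P (q - 1)) := by
    ext p
    rw [Finset.mem_insert, mem_A, mem_A]
    constructor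
    · rintro ⟨a1, a2, a3⟩
      rcases Nat.lt_or_ge p q with h | h
      · exact Or.inr ⟨by omega, a2, a3⟩
      · exact Or.inl (by omega)
    · rintro (h | ⟨a1, a2, a3⟩)
      · rw [h]
        exact ⟨le_rfl, hq, hPq⟩
      · exact ⟨by omega, a2, a3⟩
  have hn : q ∉ A P (q - 1) := by
    rw [mem_A]
    omega
  unfold G
  rw [he, Finset.sum_insert hn, add_comm]

lemma A_not {P q : ℕ} (hq : ¬ (q.Prime ∧ P ≤ q)) : A P q = A P (q - 1) := by
  ext p
  rw [mem_A, mem_A]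
  constructor
  · rintro ⟨a1, a2, a3⟩
    refine ⟨?_, a2, a3⟩
    by_contra h
    have : p = q := by omega
    rw [this] at a2 a3
    exact hq ⟨a2, a3⟩
  · rintro ⟨a1, a2, a3⟩
    exact ⟨by omega, a2, a3⟩

lemma cos_lip (a b : ℝ) : |Real.cos a - Real.cos b| ≤ |a - b| := by
  have h := e1b (a - b)
  have e : Complex.exp ((a : ℂ) * Complex.I) - Complex.exp ((b : ℂ) * Complex.I) =
      Complex.exp ((b : ℂ) * Complex.I) * (Complex.exp (((a - b : ℝ) : ℂ) * Complex.I) - 1) := by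
    rw [mul_sub, mul_one, ← Complex.exp_add]
    congr 2
    push_cast
    ring
  have h1 : ‖Complex.exp ((a : ℂ) * Complex.I) - Complex.exp ((b : ℂ) * Complex.I)‖ ≤ |a - b| := by
    rw [e, norm_mul, norm_eI, one_mul]
    exact h
  have h2 := Complex.abs_re_le_norm (Complex.exp ((a : ℂ) * Complex.I) - Complex.exp ((b : ℂ) * Complex.I))
  rw [Complex.sub_re, Complex.exp_ofReal_mul_I_re, Complex.exp_ofReal_mul_I_re] at h2
  exact h2.trans h1

lemma sin_lip (a b : ℝ) : |Real.sin a - Real.sin b| ≤ |a - b| := by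
  have h := cos_lip (Real.pi / 2 - a) (Real.pi / 2 - b)
  rw [Real.cos_pi_div_two_sub, Real.cos_pi_div_two_sub] at h
  refine h.trans (le_of_eq ?_)
  rw [show Real.pi / 2 - a - (Real.pi / 2 - b) = -(a - b) by ring, abs_neg]

end Pool.Agent.Helper46K9.CL
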