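import Mathlib
import Pool.Agent.Helper46K9.CL.L

set_option autoImplicit false

/-!
# One step of the replacement argument
-/

namespace Pool.Agent.Helper46K9.CL

open MeasureTheory Filter Topology
open Pool.Agent.H305R2 (ff NN LL gg measurable_ff measurable_gg ff_nonneg ff_le_one LL_cont LL_nonneg
  LL_le_one abs_gg_le_one measurable_NN)

lemma gg_sq (q : ℕ) (u : ℝ) : gg q u ^ 2 = gg q u * (1 - 2 * LL q u) + LL q u - LL q u ^ 2 := by
  have h := ff_idem q u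
  unfold gg
  linear_combination h

lemma w_sq_le (q : ℕ) (hq : 1 ≤ q) : w q ^ 2 ≤ 4 * (1 / q) := by
  have hq0 : (0 : ℝ) < q := by exact_mod_cast hq
  have h9 : Real.log (Real.sqrt q) ≤ Real.sqrt q - 1 :=
    Real.log_le_sub_one_of_pos (Real.sqrt_pos.2 hq0)
  rw [Real.log_sqrt hq0.le] at h9
  have h10 : Real.log q ≤ 2 * Real.sqrt q := by linarith
  have h11 : 0 ≤ Real.log q := Real.log_natCast_nonneg q
  have h12 : (Real.log q) ^ 2 ≤ (2 * Real.sqrt q) ^ 2 := pow_le_pow_left₀ h11 h10 2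
  rw [mul_pow, Real.sq_sqrt hq0.le] at h12
  unfold w
  rw [div_pow, div_le_iff₀ (by positivity)]
  have e : 4 * (1 / (q : ℝ)) * (q : ℝ) ^ 2 = 4 * q := by field_simp
  rw [e]
  linarith

/-- integrals of bounded functions against a phase on a box -/
lemma phase_int {B : Set (ℝ × ℝ)} (hBm : MeasurableSet B) (hBf : volume B < ⊤) {h : ℝ × ℝ → ℝ}
    (hm : Measurable h) {M R : ℝ} (hb : ∀ z ∈ B, |h z| ≤ M) (s : ℝ) (S : Finset ℕ)
    (hτ : ∀ τ : ℝ → ℝ, Measurable τ → (∀ a, |τ a| ≤ 1) → (∀ a b, |τ a - τ b| ≤ |a - b|) →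
      |∫ z in B, h z * τ (s * Real.sqrt z.1 * G S z.1 z.2)| ≤ R) :
    ‖∫ z in B, (h z : ℂ) * Ph s S z‖ ≤ 2 * R := by
  have hi : ∀ τ : ℝ → ℝ, Measurable τ → (∀ a, |τ a| ≤ 1) →
      IntegrableOn (fun z => h z * τ (s * Real.sqrt z.1 * G S z.1 z.2)) B := by
    intro τ h1 h2
    refine int_of_bdd hBm hBf (hm.mul (h1.comp (m_ph s S))) (B := M) fun z hz => ?_
    rw [abs_mul]
    exact (mul_le_of_le_one_right (abs_nonneg _) (h2 _)).trans (hb z hz)
  have h1 := norm_int_exp (μ := volume.restrict B) (h := h)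
    (φ := fun z => s * Real.sqrt z.1 * G S z.1 z.2)
    (hi Real.cos Real.measurable_cos Real.abs_cos_le_one)
    (hi Real.sin Real.measurable_sin Real.abs_sin_le_one)
  have h2 := hτ Real.cos Real.measurable_cos Real.abs_cos_le_one cos_lip
  have h3 := hτ Real.sin Real.measurable_sin Real.abs_sin_le_one sin_lip
  unfold Ph
  linarith

lemma int_c {B : Set (ℝ × ℝ)} (hBm : MeasurableSet B) (hBf : volume B < ⊤) {F : ℝ × ℝ → ℂ}
    (hF : Measurable F) {M : ℝ} (hb : ∀ z ∈ B, ‖F z‖ ≤ M) : IntegrableOn F B := by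
  refine Measure.integrableOn_of_bounded hBf.ne hF.aestronglyMeasurable (M := M) ?_
  filter_upwards [self_mem_ae_restrict hBm] with z hz
  exact hb z hz

lemma isub3 {α : Type} [MeasurableSpace α] {μ : Measure α} {X Y Z : α → ℂ} (c : ℂ)
    (hX : Integrable X μ) (hY : Integrable Y μ) (hZ : Integrable Z μ) :
    ∫ z, (X z - c * Y z - Z z) ∂μ = (∫ z, X z ∂μ) - c * (∫ z, Y z ∂μ) - ∫ z, Z z ∂μ := by
  have h1 : Integrable (fun z => X z - c * Y z) μ := hX.sub (hY.const_mul c)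
  rw [integral_sub h1 hZ, integral_sub hX (hY.const_mul c), integral_const_mul]

lemma isub3' {α : Type} [MeasurableSpace α] {μ : Measure α} {X Y Z : α → ℂ} (c : ℂ)
    (hX : Integrable X μ) (hY : Integrable Y μ) (hZ : Integrable Z μ) :
    ∫ z, (X z * c - Y z - Z z / 2) ∂μ = (∫ z, X z ∂μ) * c - (∫ z, Y z ∂μ) - (∫ z, Z z ∂μ) / 2 := by
  have h1 : Integrable (fun z => X z * c - Y z) μ := (hX.mul_const c).sub hY
  rw [integral_sub h1 (hZ.div_const 2), integral_sub (hX.mul_const c) hY, integral_mul_const,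
    integral_div]

lemma iadd3 {α : Type} [MeasurableSpace α] {μ : Measure α} [IsFiniteMeasure μ] {X Y : α → ℝ} (a b c : ℝ)
    (hX : Integrable X μ) (hY : Integrable Y μ) :
    ∫ z, (a * X z + b * Y z + c) ∂μ = a * (∫ z, X z ∂μ) + b * (∫ z, Y z ∂μ) + μ.real Set.univ * c := by
  have h1 : Integrable (fun z => a * X z + b * Y z) μ := (hX.const_mul a).add (hY.const_mul b)
  rw [integral_add h1 (integrable_const c), integral_add (hX.const_mul a) (hY.const_mul b),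
    integral_const_mul, integral_const_mul, integral_const, smul_eq_mul]

theorem one_step {x0 x1 y0 y1 : ℝ} (hx0 : 0 < x0) (hx : x0 ≤ x1) (hy : y0 ≤ y1) {c : ℝ} (hc : 0 ≤ c) :
    ∃ κ K : ℝ, 0 < κ ∧ 0 ≤ K ∧ ∃ P0 : ℕ, 3 ≤ P0 ∧ ∀ P ≥ P0, ∀ q : ℕ, P ≤ q → q.Prime → ∀ s : ℝ, |s| ≤ c →
      ‖(∫ z in Bx x0 x1 y0 y1, Ph s (A P q) z) -
        (1 - ((s ^ 2 * Real.exp Real.eulerMascheroniConstant * w q : ℝ) : ℂ) / 2) *
          ∫ z in Bx x0 x1 y0 y1, Ph s (A P (q - 1)) z‖ ≤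
        K * (|s| * (w q / q) + s ^ 2 * (1 / q) + |s| ^ 3 * ∫ z in Bx x0 x1 y0 y1,
          |gg q (q * z.1 + z.2)| * (1 + (G (NS κ P q) z.1 z.2) ^ 2)) := by
  obtain ⟨C, hC0, hadm⟩ := adm hx0 hx hc
  obtain ⟨κ, K1, hκ, hK1, P1, hP13, h1⟩ := one_box (y0 := y0) (y1 := y1) hx0 hx hy hC0
  obtain ⟨K2, hK2, P2, hP23, h2⟩ := up_box hx0 hx hy
  obtain ⟨K3, hK3, hrate⟩ := Pool.Agent.TH888.R.LL_rate_t (a := x0) hx0 (max |y0| |y1|)
  have hlog3 : ∀ᶠ q : ℕ in atTop, (Real.log q) ^ 2 * (1 + Real.log q) ≤ (q : ℝ) := by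
    have h2 := (Real.isLittleO_pow_log_id_atTop (n := 3)).bound (show (0 : ℝ) < 1 / 2 by norm_num)
    have h3 : ∀ᶠ x : ℝ in atTop, (Real.log x) ^ 2 * (1 + Real.log x) ≤ x := by
      filter_upwards [h2, eventually_ge_atTop (Real.exp 1)] with x hx hx1
      have hx0 : 0 < x := (Real.exp_pos 1).trans_le hx1
      have hl : 1 ≤ Real.log x := (Real.le_log_iff_exp_le hx0).2 hx1
      rw [Real.norm_of_nonneg (by positivity), id, Real.norm_of_nonneg hx0.le] at hx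
      have h4 : (Real.log x) ^ 2 * 1 ≤ (Real.log x) ^ 2 * Real.log x :=
        mul_le_mul_of_nonneg_left hl (by positivity)
      have e : (Real.log x) ^ 3 = (Real.log x) ^ 2 * Real.log x := by ring
      rw [e] at hx
      linarith
    exact tendsto_natCast_atTop_atTop.eventually h3
  obtain ⟨P3, hP3⟩ := eventually_atTop.1 (hrate.and hlog3)
  have hx1 : 0 < x1 := lt_of_lt_of_le hx0 hx
  set B := Bx x0 x1 y0 y1 with hB
  have hBm : MeasurableSet B := measurableSet_Bx _ _ _ _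
  have hBf : volume B < ⊤ := volume_Bx_lt_top _ _ _ _
  set V := (volume B).toReal with hV
  have hV0 : 0 ≤ V := ENNReal.toReal_nonneg
  set r := Real.sqrt x1 with hr
  have hr0 : 0 < r := Real.sqrt_pos.2 hx1
  have hrr : r ^ 2 = x1 := Real.sq_sqrt hx1.le
  set eg := Real.exp Real.eulerMascheroniConstant with heg
  set K := 5 * r ^ 3 + 2 * r * K1 + x1 * K1 + 4 * x1 * K1 + 4 * x1 * K2 ^ 2 * (1 + V) +
    4 * V * x1 * K2 ^ 2 + V * x1 * K3 with hK
  refine ⟨κ, K, hκ, by positivity, max P1 (max P2 P3), hP13.trans (le_max_left _ _),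
    fun P hP q hPq hqp s hs => ?_⟩
  have hPP1 : P1 ≤ P := (le_max_left _ _).trans hP
  have hPP2 : P2 ≤ P := (le_max_left _ _).trans ((le_max_right _ _).trans hP)
  have hPP3 : P3 ≤ P := (le_max_right _ _).trans ((le_max_right _ _).trans hP)
  have hq3 : 3 ≤ q := hP13.trans (hPP1.trans hPq)
  have hq3' : (3 : ℝ) ≤ q := by exact_mod_cast hq3
  have hq0 : (0 : ℝ) < q := by linarith
  have hlq : 0 ≤ Real.log q := Real.log_natCast_nonneg q
  obtain ⟨hrq, hl3⟩ := hP3 q (hPP3.trans hPq)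
  obtain ⟨c1, c2, -⟩ := h2 q (hPP2.trans hPq)
  have hwq := w_nonneg q
  set S1 := FS κ P q with hS1
  set S2 := NS κ P q with hS2
  have hS1κ : ∀ p ∈ S1, (p : ℝ) ≤ κ * (q / Real.log q) := by
    intro p hp
    rw [hS1, FS, Finset.mem_filter] at hp
    exact hp.2.2.2
  have hwq2 : Real.log q / (q : ℝ) ^ 2 = w q / q := by
    unfold w
    field_simp
  -- pieces
  set L : ℝ × ℝ → ℝ := fun z => LL q (q * z.1 + z.2) with hL
  set g : ℝ × ℝ → ℝ := fun z => gg q (q * z.1 + z.2) with hg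
  have hLm : Measurable L := (LL_cont q).measurable.comp (m_lev q)
  have hgm : Measurable g := (measurable_gg q).comp (m_lev q)
  have hg1 : ∀ z, |g z| ≤ 1 := fun z => abs_gg_le_one q _
  have hxB : ∀ z ∈ B, z.1 ∈ Set.Icc x0 x1 := fun z hz => (Set.mem_prod.1 hz).1
  have hsq : ∀ z ∈ B, Real.sqrt z.1 ≤ r := fun z hz => Real.sqrt_le_sqrt (hxB z hz).2
  have m1 : Measurable fun z : ℝ × ℝ => s * Real.sqrt z.1 * g z :=
    (((Real.continuous_sqrt.measurable).comp measurable_fst).const_mul s).mul hgm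
  have m2 : Measurable fun z : ℝ × ℝ => s ^ 2 * z.1 * g z := (measurable_fst.const_mul (s ^ 2)).mul hgm
  have m3 : ∀ k : ℝ × ℝ → ℝ, Measurable k → Measurable fun z : ℝ × ℝ => s ^ 2 * z.1 * k z * g z :=
    fun k hk => ((measurable_fst.const_mul (s ^ 2)).mul hk).mul hgm
  -- first order
  have E1 : ‖∫ z in B, ((s * Real.sqrt z.1 * g z : ℝ) : ℂ) * Ph s S1 z‖ ≤
      2 * (|s| * r * (K1 * (w q / q))) := by
    refine phase_int (h := fun z : ℝ × ℝ => s * Real.sqrt z.1 * g z) hBm hBf m1 (M := |s| * r) ?_ s S1 ?_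
    · intro z hz
      rw [abs_mul, abs_mul, abs_of_nonneg (Real.sqrt_nonneg _)]
      calc |s| * Real.sqrt z.1 * |g z| ≤ |s| * r * 1 :=
            mul_le_mul (mul_le_mul_of_nonneg_left (hsq z hz) (abs_nonneg _)) (hg1 z) (abs_nonneg _)
              (by positivity)
        _ = _ := mul_one _
    · intro τ t1 t2 t3
      have h3 := (h1 q (hPP1.trans hPq) _ _ _ S1 (hadm s hs τ t1 t2 t3).1 hS1κ).1
      have e : ∀ z : ℝ × ℝ, s * Real.sqrt z.1 * g z * τ (s * Real.sqrt z.1 * G S1 z.1 z.2) =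
          (s * r) * (tf (fun x => Real.sqrt x / Real.sqrt x1) (fun x => s * Real.sqrt x) τ S1 z.1 z.2 *
            gg q (q * z.1 + z.2)) := by
        intro z
        simp only [tf, hg, ← hr]
        field_simp
      simp_rw [e]
      rw [integral_const_mul, abs_mul, abs_mul, abs_of_pos hr0]
      rw [hwq2] at h3
      exact mul_le_mul_of_nonneg_left h3 (by positivity)
  -- second order, diagonal
  have E2 : ‖∫ z in B, ((s ^ 2 * z.1 * g z : ℝ) : ℂ) * Ph s S1 z‖ ≤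
      2 * (s ^ 2 * x1 * (K1 * (w q / q))) := by
    refine phase_int (h := fun z : ℝ × ℝ => s ^ 2 * z.1 * g z) hBm hBf m2 (M := s ^ 2 * x1) ?_ s S1 ?_
    · intro z hz
      have h4 := hxB z hz
      rw [abs_mul, abs_of_nonneg (mul_nonneg (sq_nonneg s) (hx0.le.trans h4.1))]
      calc s ^ 2 * z.1 * |g z| ≤ s ^ 2 * x1 * 1 :=
            mul_le_mul (mul_le_mul_of_nonneg_left h4.2 (sq_nonneg s)) (hg1 z) (abs_nonneg _)
              (by positivity)
        _ = _ := mul_one _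
    · intro τ t1 t2 t3
      have h3 := (h1 q (hPP1.trans hPq) _ _ _ S1 (hadm s hs τ t1 t2 t3).2 hS1κ).1
      have e : ∀ z : ℝ × ℝ, s ^ 2 * z.1 * g z * τ (s * Real.sqrt z.1 * G S1 z.1 z.2) =
          (s ^ 2 * x1) * (tf (fun x => x / x1) (fun x => s * Real.sqrt x) τ S1 z.1 z.2 *
            gg q (q * z.1 + z.2)) := by
        intro z
        simp only [tf, hg]
        field_simp
      simp_rw [e]
      rw [integral_const_mul, abs_mul, abs_of_nonneg (show 0 ≤ s ^ 2 * x1 by positivity)]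
      rw [hwq2] at h3
      exact mul_le_mul_of_nonneg_left h3 (by positivity)
  -- second order, off the diagonal
  have E3p : ∀ p ∈ S2, ‖∫ z in B, ((s ^ 2 * z.1 * gg p (p * z.1 + z.2) * g z : ℝ) : ℂ) * Ph s S1 z‖ ≤
      2 * (s ^ 2 * x1 * (K1 * (Real.log q * (w q / q) * (1 / p + 1 / ((q : ℝ) - p))))) := by
    intro p hp
    obtain ⟨d1, d2, d3, d4⟩ := mem_NS.1 hp
    have hpq' : (p : ℝ) + 1 ≤ q := by exact_mod_cast d1
    have hp0 : (0 : ℝ) < p := by exact_mod_cast d2.pos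
    refine phase_int (h := fun z : ℝ × ℝ => s ^ 2 * z.1 * gg p (p * z.1 + z.2) * g z) hBm hBf
      (m3 _ ((measurable_gg p).comp (m_lev p))) (M := s ^ 2 * x1) ?_ s S1 ?_
    · intro z hz
      have h4 := hxB z hz
      rw [abs_mul, abs_mul, abs_of_nonneg (mul_nonneg (sq_nonneg s) (hx0.le.trans h4.1))]
      calc s ^ 2 * z.1 * |gg p (p * z.1 + z.2)| * |g z| ≤ s ^ 2 * x1 * 1 * 1 :=
            mul_le_mul (mul_le_mul (mul_le_mul_of_nonneg_left h4.2 (sq_nonneg s)) (abs_gg_le_one _ _)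
              (abs_nonneg _) (by positivity)) (hg1 z) (abs_nonneg _) (by positivity)
        _ = _ := by ring
    · intro τ t1 t2 t3
      have h3 := (h1 q (hPP1.trans hPq) _ _ _ S1 (hadm s hs τ t1 t2 t3).2 hS1κ).2 p (hPP1.trans d3) d1
      have e : ∀ z : ℝ × ℝ, s ^ 2 * z.1 * gg p (p * z.1 + z.2) * g z *
          τ (s * Real.sqrt z.1 * G S1 z.1 z.2) =
          (s ^ 2 * x1) * (gg p (p * z.1 + z.2) * (tf (fun x => x / x1) (fun x => s * Real.sqrt x) τ S1
            z.1 z.2 * gg q (q * z.1 + z.2))) := by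
        intro z
        simp only [tf, hg]
        field_simp
      simp_rw [e]
      rw [integral_const_mul, abs_mul, abs_of_nonneg (show 0 ≤ s ^ 2 * x1 by positivity)]
      rw [hwq2] at h3
      refine mul_le_mul_of_nonneg_left (h3.trans ?_) (by positivity)
      refine mul_le_mul_of_nonneg_left ?_ hK1.le
      have h5 : 0 ≤ 1 / (p : ℝ) + 1 / ((q : ℝ) - p) := by
        have : 0 ≤ 1 / ((q : ℝ) - p) := one_div_nonneg.2 (by linarith)
        positivity
      refine mul_le_mul_of_nonneg_right ?_ h5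
      exact mul_le_mul_of_nonneg_right (Real.log_le_log hp0 (by linarith)) (by positivity)
  have i3 : ∀ p ∈ S2, IntegrableOn (fun z => ((s ^ 2 * z.1 * gg p (p * z.1 + z.2) * g z : ℝ) : ℂ) *
      Ph s S1 z) B := by
    intro p _
    refine int_c hBm hBf ((Complex.measurable_ofReal.comp (m3 _ ((measurable_gg p).comp
      (m_lev p)))).mul (m_Ph s S1)) (M := s ^ 2 * x1) fun z hz => ?_
    have h4 := hxB z hz
    rw [norm_mul, norm_Ph, mul_one, Complex.norm_real, Real.norm_eq_abs]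
    rw [abs_mul, abs_mul, abs_of_nonneg (mul_nonneg (sq_nonneg s) (hx0.le.trans h4.1))]
    calc s ^ 2 * z.1 * |gg p (p * z.1 + z.2)| * |g z| ≤ s ^ 2 * x1 * 1 * 1 :=
          mul_le_mul (mul_le_mul (mul_le_mul_of_nonneg_left h4.2 (sq_nonneg s)) (abs_gg_le_one _ _)
            (abs_nonneg _) (by positivity)) (hg1 z) (abs_nonneg _) (by positivity)
      _ = _ := by ring
  have E3 : ‖∫ z in B, ((s ^ 2 * z.1 * G S2 z.1 z.2 * g z : ℝ) : ℂ) * Ph s S1 z‖ ≤
      4 * x1 * K1 * (s ^ 2 * (1 / q)) := by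
    have e : ∀ z : ℝ × ℝ, ((s ^ 2 * z.1 * G S2 z.1 z.2 * g z : ℝ) : ℂ) * Ph s S1 z =
        ∑ p ∈ S2, ((s ^ 2 * z.1 * gg p (p * z.1 + z.2) * g z : ℝ) : ℂ) * Ph s S1 z := by
      intro z
      rw [← Finset.sum_mul]
      congr 1
      rw [← Complex.ofReal_sum]
      congr 1
      unfold G
      rw [Finset.mul_sum, Finset.sum_mul]
    simp_rw [e]
    rw [integral_finsetSum _ i3]
    refine (norm_sum_le _ _).trans ((Finset.sum_le_sum E3p).trans ?_)
    have e2 : ∀ p ∈ S2, 2 * (s ^ 2 * x1 * (K1 * (Real.log q * (w q / q) *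
        (1 / p + 1 / ((q : ℝ) - p))))) =
        2 * s ^ 2 * x1 * K1 * (Real.log q * (w q / q)) * (1 / (p : ℝ) + 1 / ((q : ℝ) - p)) :=
      fun p _ => by ring
    rw [Finset.sum_congr rfl e2, ← Finset.mul_sum]
    have h5 := harm q (by omega) S2 fun p hp => by
      obtain ⟨d1, d2, d3, d4⟩ := mem_NS.1 hp
      exact ⟨d2.pos, d1⟩
    refine (mul_le_mul_of_nonneg_left h5 (by positivity)).trans ?_
    have h6 : Real.log q * (w q / q) * (1 + Real.log q) ≤ 1 / q := by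
      unfold w
      rw [le_div_iff₀ hq0]
      have e3 : Real.log q * (Real.log q / q / q) * (1 + Real.log q) * q =
          (Real.log q) ^ 2 * (1 + Real.log q) / q := by field_simp
      rw [e3, div_le_one hq0]
      exact hl3
    calc 2 * s ^ 2 * x1 * K1 * (Real.log q * (w q / q)) * (2 * (1 + Real.log q)) =
        4 * x1 * K1 * s ^ 2 * (Real.log q * (w q / q) * (1 + Real.log q)) := by ring
      _ ≤ 4 * x1 * K1 * s ^ 2 * (1 / q) := mul_le_mul_of_nonneg_left h6 (by positivity)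
      _ = _ := by ring
  -- the pointwise expansion
  set a := s ^ 2 * eg * w q with ha
  set Z : ℝ × ℝ → ℂ := fun z => ((s * Real.sqrt z.1 * g z : ℝ) : ℂ) * Ph s S1 z * Complex.I -
    ((s ^ 2 * z.1 * G S2 z.1 z.2 * g z : ℝ) : ℂ) * Ph s S1 z -
    ((s ^ 2 * z.1 * g z : ℝ) : ℂ) * Ph s S1 z / 2 with hZ
  set bnd : ℝ × ℝ → ℝ := fun z => 5 * (|s| * r) ^ 3 * (|g z| * (1 + (G S2 z.1 z.2) ^ 2)) +
    s ^ 2 * x1 * K2 * w q * |g z| + (s ^ 2 * x1 * K2 ^ 2 * w q ^ 2 + s ^ 2 * x1 * (K3 / q)) with hbnd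
  have hpt : ∀ z ∈ B, ‖Ph s (A P q) z - (1 - (a : ℂ) / 2) * Ph s (A P (q - 1)) z - Z z‖ ≤ bnd z := by
    intro z hz
    have h4 := hxB z hz
    have hz0 : 0 < z.1 := lt_of_lt_of_le hx0 h4.1
    have hyz := (Set.mem_prod.1 hz).2
    have h5 := expand (θ := s * Real.sqrt z.1) (g := g z) (Sn := G S2 z.1 z.2)
      (u := s * Real.sqrt z.1 * G S1 z.1 z.2) (L := L z) (a := a) (gg_sq q _) (hg1 z) (LL_nonneg q _)
    have hθ2 : (s * Real.sqrt z.1) ^ 2 = s ^ 2 * z.1 := by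
      rw [mul_pow, Real.sq_sqrt hz0.le]
    have e1 : Ph s (A P q) z = Complex.exp (((s * Real.sqrt z.1 * G S1 z.1 z.2 +
        s * Real.sqrt z.1 * G S2 z.1 z.2 + s * Real.sqrt z.1 * g z : ℝ) : ℂ) * Complex.I) := by
      unfold Ph
      rw [G_insert hqp hPq, G_split κ P q (by omega)]
      congr 3
      simp only [hg]
      ring
    have e2 : Ph s (A P (q - 1)) z = Complex.exp (((s * Real.sqrt z.1 * G S1 z.1 z.2 +
        s * Real.sqrt z.1 * G S2 z.1 z.2 : ℝ) : ℂ) * Complex.I) := by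
      unfold Ph
      rw [G_split κ P q (by omega)]
      congr 3
      ring
    have e3 : Z z = ((s * Real.sqrt z.1 * g z : ℝ) * Complex.I -
        ((s * Real.sqrt z.1) ^ 2 * G S2 z.1 z.2 * g z : ℝ) -
        ((s * Real.sqrt z.1) ^ 2 * g z / 2 : ℝ)) *
        Complex.exp (((s * Real.sqrt z.1 * G S1 z.1 z.2 : ℝ) : ℂ) * Complex.I) := by
      rw [hθ2]
      simp only [hZ, Ph]
      push_cast
      ring
    rw [e1, e2, e3]
    refine h5.trans ?_
    have hg0 := abs_nonneg (g z)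
    have hθ : |s * Real.sqrt z.1| ≤ |s| * r := by
      rw [abs_mul, abs_of_nonneg (Real.sqrt_nonneg _)]
      exact mul_le_mul_of_nonneg_left (hsq z hz) (abs_nonneg _)
    have b1 : 5 * (|s * Real.sqrt z.1| ^ 3 * (|g z| * (1 + (G S2 z.1 z.2) ^ 2))) ≤
        5 * (|s| * r) ^ 3 * (|g z| * (1 + (G S2 z.1 z.2) ^ 2)) := by
      rw [mul_assoc]
      refine mul_le_mul_of_nonneg_left ?_ (by norm_num)
      exact mul_le_mul_of_nonneg_right (pow_le_pow_left₀ (abs_nonneg _) hθ 3) (by positivity)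
    have hθx : (s * Real.sqrt z.1) ^ 2 ≤ s ^ 2 * x1 := by
      rw [hθ2]
      exact mul_le_mul_of_nonneg_left h4.2 (sq_nonneg s)
    have hL0 : 0 ≤ L z := LL_nonneg q _
    have hL1 : L z ≤ K2 * w q := c1 z hz
    have b2 : (s * Real.sqrt z.1) ^ 2 * (|g z| * L z) ≤ s ^ 2 * x1 * K2 * w q * |g z| := by
      calc (s * Real.sqrt z.1) ^ 2 * (|g z| * L z) ≤ s ^ 2 * x1 * (|g z| * (K2 * w q)) :=
            mul_le_mul hθx (mul_le_mul_of_nonneg_left hL1 hg0) (by positivity) (by positivity)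
        _ = _ := by ring
    have b3 : (s * Real.sqrt z.1) ^ 2 * L z ^ 2 ≤ s ^ 2 * x1 * K2 ^ 2 * w q ^ 2 := by
      calc (s * Real.sqrt z.1) ^ 2 * L z ^ 2 ≤ s ^ 2 * x1 * (K2 * w q) ^ 2 :=
            mul_le_mul hθx (pow_le_pow_left₀ hL0 hL1 2) (by positivity) (by positivity)
        _ = _ := by ring
    have b4 : |(s * Real.sqrt z.1) ^ 2 * L z - a| ≤ s ^ 2 * x1 * (K3 / q) := by
      have h6 : |L z - eg / z.1 * w q| ≤ K3 / q := by
        refine hrq z.1 h4.1 (q * z.1 + z.2) ?_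
        rw [add_sub_cancel_left]
        rw [abs_le]
        constructor
        · have := neg_abs_le y0
          have h7 := le_max_left |y0| |y1|
          linarith [hyz.1]
        · have := le_abs_self y1
          have h7 := le_max_right |y0| |y1|
          linarith [hyz.2]
      have e4 : (s * Real.sqrt z.1) ^ 2 * L z - a = s ^ 2 * z.1 * (L z - eg / z.1 * w q) := by
        rw [hθ2, ha]
        field_simp
      rw [e4, abs_mul, abs_of_nonneg (by positivity)]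
      exact mul_le_mul (mul_le_mul_of_nonneg_left h4.2 (sq_nonneg s)) h6 (abs_nonneg _) (by positivity)
    simp only [hbnd]
    linarith
  -- integration
  set Aq := ∫ z in B, |gg q (q * z.1 + z.2)| * (1 + (G S2 z.1 z.2) ^ 2) with hAq
  have hAq0 : 0 ≤ Aq := integral_nonneg fun z => by positivity
  have hG2 : ∀ z : ℝ × ℝ, (G S2 z.1 z.2) ^ 2 ≤ (S2.card : ℝ) ^ 2 := by
    intro z
    rw [← sq_abs]
    exact pow_le_pow_left₀ (abs_nonneg _) (abs_G_le S2 z.1 z.2) 2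
  have iA : IntegrableOn (fun z => |g z| * (1 + (G S2 z.1 z.2) ^ 2)) B := by
    refine int_Bx (hgm.abs.mul (((measurable_G S2).pow_const 2).const_add 1))
      (B := 1 + (S2.card : ℝ) ^ 2) fun z => ?_
    rw [abs_mul, abs_abs, abs_of_nonneg (by positivity : 0 ≤ 1 + (G S2 z.1 z.2) ^ 2)]
    calc |g z| * (1 + (G S2 z.1 z.2) ^ 2) ≤ 1 * (1 + (G S2 z.1 z.2) ^ 2) :=
          mul_le_mul_of_nonneg_right (hg1 z) (by positivity)
      _ ≤ _ := by linarith [hG2 z]
  have ig : IntegrableOn (fun z => |g z|) B := int_Bx hgm.abs (B := 1) fun z => by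
    rw [abs_abs]
    exact hg1 z
  have ic : ∀ k : ℝ, IntegrableOn (fun _ : ℝ × ℝ => k) B := fun k =>
    int_Bx measurable_const (B := |k|) fun _ => le_rfl
  have iX : ∀ S : Finset ℕ, IntegrableOn (Ph s S) B := fun S =>
    int_c hBm hBf (m_Ph s S) (M := 1) fun z _ => (norm_Ph s S z).le
  have iz : ∀ (k : ℝ × ℝ → ℝ) (M : ℝ), Measurable k → (∀ z ∈ B, |k z| ≤ M) →
      IntegrableOn (fun z => (k z : ℂ) * Ph s S1 z) B := by
    intro k M hk hkM
    refine int_c hBm hBf ((Complex.measurable_ofReal.comp hk).mul (m_Ph s S1)) (M := M) fun z hz => ?_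
    rw [norm_mul, norm_Ph, mul_one, Complex.norm_real]
    exact hkM z hz
  have j1 := iz (fun z => s * Real.sqrt z.1 * g z) (|s| * r) m1 (by
    intro z hz
    rw [abs_mul, abs_mul, abs_of_nonneg (Real.sqrt_nonneg _)]
    calc |s| * Real.sqrt z.1 * |g z| ≤ |s| * r * 1 :=
          mul_le_mul (mul_le_mul_of_nonneg_left (hsq z hz) (abs_nonneg _)) (hg1 z) (abs_nonneg _)
            (by positivity)
      _ = _ := mul_one _)
  have j2 := iz (fun z => s ^ 2 * z.1 * g z) (s ^ 2 * x1) m2 (by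
    intro z hz
    have h4 := hxB z hz
    rw [abs_mul, abs_of_nonneg (mul_nonneg (sq_nonneg s) (hx0.le.trans h4.1))]
    calc s ^ 2 * z.1 * |g z| ≤ s ^ 2 * x1 * 1 :=
          mul_le_mul (mul_le_mul_of_nonneg_left h4.2 (sq_nonneg s)) (hg1 z) (abs_nonneg _)
            (by positivity)
      _ = _ := mul_one _)
  have j3 := iz (fun z => s ^ 2 * z.1 * G S2 z.1 z.2 * g z) (s ^ 2 * x1 * S2.card)
    (m3 _ (measurable_G S2)) (by
    intro z hz
    have h4 := hxB z hz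
    rw [abs_mul, abs_mul, abs_of_nonneg (mul_nonneg (sq_nonneg s) (hx0.le.trans h4.1))]
    calc s ^ 2 * z.1 * |G S2 z.1 z.2| * |g z| ≤ s ^ 2 * x1 * S2.card * 1 :=
          mul_le_mul (mul_le_mul (mul_le_mul_of_nonneg_left h4.2 (sq_nonneg s)) (abs_G_le _ _ _)
            (abs_nonneg _) (by positivity)) (hg1 z) (abs_nonneg _) (by positivity)
      _ = _ := by ring)
  have jZ : IntegrableOn Z B := ((j1.mul_const Complex.I).sub j3).sub (j2.div_const 2)
  have e5 : ∫ z in B, (Ph s (A P q) z - (1 - (a : ℂ) / 2) * Ph s (A P (q - 1)) z - Z z) =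
      (∫ z in B, Ph s (A P q) z) - (1 - (a : ℂ) / 2) * (∫ z in B, Ph s (A P (q - 1)) z) -
        ∫ z in B, Z z := isub3 _ (iX _) (iX _) jZ
  have e6 : ∫ z in B, Z z = (∫ z in B, ((s * Real.sqrt z.1 * g z : ℝ) : ℂ) * Ph s S1 z) * Complex.I -
      (∫ z in B, ((s ^ 2 * z.1 * G S2 z.1 z.2 * g z : ℝ) : ℂ) * Ph s S1 z) -
      (∫ z in B, ((s ^ 2 * z.1 * g z : ℝ) : ℂ) * Ph s S1 z) / 2 := by
    exact isub3' _ j1 j3 j2
  have hZn : ‖∫ z in B, Z z‖ ≤ 2 * (|s| * r * (K1 * (w q / q))) + 4 * x1 * K1 * (s ^ 2 * (1 / q)) +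
      s ^ 2 * x1 * (K1 * (w q / q)) := by
    rw [e6]
    refine (norm_sub_le _ _).trans (add_le_add ((norm_sub_le _ _).trans (add_le_add ?_ E3)) ?_)
    · rw [norm_mul, Complex.norm_I, mul_one]
      exact E1
    · rw [norm_div, show ‖(2 : ℂ)‖ = 2 by norm_num]
      linarith
  have ibnd : IntegrableOn bnd B := ((iA.const_mul _).add (ig.const_mul _)).add (ic _)
  have hbi : ∫ z in B, bnd z = 5 * (|s| * r) ^ 3 * Aq + s ^ 2 * x1 * K2 * w q * (∫ z in B, |g z|) +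
      V * (s ^ 2 * x1 * K2 ^ 2 * w q ^ 2 + s ^ 2 * x1 * (K3 / q)) := by
    have hfin : IsFiniteMeasure (volume.restrict B) := ⟨by
      rw [Measure.restrict_apply_univ]
      exact hBf⟩
    have h3 := iadd3 (μ := volume.restrict B) (5 * (|s| * r) ^ 3) (s ^ 2 * x1 * K2 * w q)
      (s ^ 2 * x1 * K2 ^ 2 * w q ^ 2 + s ^ 2 * x1 * (K3 / q)) iA ig
    rw [measureReal_restrict_apply_univ] at h3
    exact h3
  have hgi : ∫ z in B, |g z| ≤ K2 * w q * (1 + V) := by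
    have h3 : ∫ z in B, |g z| ≤ ∫ z in B, (ff q (q * z.1 + z.2) + K2 * w q) := by
      refine setIntegral_mono_on ig ((i_ff q).add (ic _)) hBm fun z hz => ?_
      exact (abs_gg_le' q _).trans (add_le_add le_rfl (c1 z hz))
    rw [integral_add (i_ff q) (ic _), setIntegral_const, smul_eq_mul] at h3
    have h4 : volume.real B = V := rfl
    rw [h4] at h3
    have h5 : ∫ z in B, ff q (q * z.1 + z.2) ≤ K2 * w q := c2
    linarith
  have hmain : ‖∫ z in B, (Ph s (A P q) z - (1 - (a : ℂ) / 2) * Ph s (A P (q - 1)) z - Z z)‖ ≤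
      ∫ z in B, bnd z := by
    refine norm_integral_le_of_norm_le ibnd ?_
    filter_upwards [self_mem_ae_restrict hBm] with z hz
    exact hpt z hz
  rw [e5, hbi] at hmain
  have htri : ‖(∫ z in B, Ph s (A P q) z) - (1 - (a : ℂ) / 2) * ∫ z in B, Ph s (A P (q - 1)) z‖ ≤
      ‖(∫ z in B, Ph s (A P q) z) - (1 - (a : ℂ) / 2) * (∫ z in B, Ph s (A P (q - 1)) z) -
        ∫ z in B, Z z‖ + ‖∫ z in B, Z z‖ := by
    have h3 := norm_add_le ((∫ z in B, Ph s (A P q) z) - (1 - (a : ℂ) / 2) *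
      (∫ z in B, Ph s (A P (q - 1)) z) - ∫ z in B, Z z) (∫ z in B, Z z)
    rwa [sub_add_cancel] at h3
  refine htri.trans ((add_le_add hmain hZn).trans ?_)
  have hq1 : 0 ≤ 1 / (q : ℝ) := by positivity
  have t1 : 0 ≤ |s| * (w q / q) := by positivity
  have t2 : 0 ≤ s ^ 2 * (1 / q) := by positivity
  have t3 : 0 ≤ |s| ^ 3 * Aq := by positivity
  have hw2 := w_sq_le q (by omega)
  have n1 : s ^ 2 * x1 * K2 * w q * (∫ z in B, |g z|) ≤ 4 * x1 * K2 ^ 2 * (1 + V) * (s ^ 2 * (1 / q)) := by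
    calc s ^ 2 * x1 * K2 * w q * (∫ z in B, |g z|) ≤ s ^ 2 * x1 * K2 * w q * (K2 * w q * (1 + V)) :=
          mul_le_mul_of_nonneg_left hgi (by positivity)
      _ = (x1 * K2 ^ 2 * (1 + V) * s ^ 2) * w q ^ 2 := by ring
      _ ≤ (x1 * K2 ^ 2 * (1 + V) * s ^ 2) * (4 * (1 / q)) :=
          mul_le_mul_of_nonneg_left hw2 (by positivity)
      _ = _ := by ring
  have n2 : V * (s ^ 2 * x1 * K2 ^ 2 * w q ^ 2 + s ^ 2 * x1 * (K3 / q)) ≤
      (4 * V * x1 * K2 ^ 2 + V * x1 * K3) * (s ^ 2 * (1 / q)) := by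
    calc V * (s ^ 2 * x1 * K2 ^ 2 * w q ^ 2 + s ^ 2 * x1 * (K3 / q)) =
        (V * s ^ 2 * x1 * K2 ^ 2) * w q ^ 2 + V * x1 * K3 * (s ^ 2 * (1 / q)) := by ring
      _ ≤ (V * s ^ 2 * x1 * K2 ^ 2) * (4 * (1 / q)) + V * x1 * K3 * (s ^ 2 * (1 / q)) :=
          add_le_add (mul_le_mul_of_nonneg_left hw2 (by positivity)) le_rfl
      _ = _ := by ring
  have n3 : s ^ 2 * x1 * (K1 * (w q / q)) ≤ x1 * K1 * (s ^ 2 * (1 / q)) := by
    have h3 : w q / q ≤ 1 / q := div_le_div_of_nonneg_right (w_le_one q) hq0.le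
    calc s ^ 2 * x1 * (K1 * (w q / q)) = (s ^ 2 * x1 * K1) * (w q / q) := by ring
      _ ≤ (s ^ 2 * x1 * K1) * (1 / q) := mul_le_mul_of_nonneg_left h3 (by positivity)
      _ = _ := by ring
  have n4 : 5 * (|s| * r) ^ 3 * Aq = 5 * r ^ 3 * (|s| ^ 3 * Aq) := by ring
  have n5 : 2 * (|s| * r * (K1 * (w q / q))) = 2 * r * K1 * (|s| * (w q / q)) := by ring
  have p1 : 0 ≤ 5 * r ^ 3 := by positivity
  have p2 : 0 ≤ 2 * r * K1 := by positivity
  have p3 : 0 ≤ x1 * K1 := by positivity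
  have p4 : 0 ≤ 4 * x1 * K2 ^ 2 * (1 + V) := by positivity
  have p5 : 0 ≤ 4 * V * x1 * K2 ^ 2 := by positivity
  have p6 : 0 ≤ V * x1 * K3 := by positivity
  have q1 : 5 * r ^ 3 * (|s| ^ 3 * Aq) ≤ K * (|s| ^ 3 * Aq) :=
    mul_le_mul_of_nonneg_right (by rw [hK]; linarith) t3
  have q2 : 2 * r * K1 * (|s| * (w q / q)) ≤ K * (|s| * (w q / q)) :=
    mul_le_mul_of_nonneg_right (by rw [hK]; linarith) t1
  have q3 : (x1 * K1 + 4 * x1 * K1 + 4 * x1 * K2 ^ 2 * (1 + V) + (4 * V * x1 * K2 ^ 2 + V * x1 * K3)) *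
      (s ^ 2 * (1 / q)) ≤ K * (s ^ 2 * (1 / q)) :=
    mul_le_mul_of_nonneg_right (by rw [hK]; linarith) t2
  rw [n4, n5]
  linarith

end Pool.Agent.Helper46K9.CL
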