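import Mathlib
import Pool.Agent.Helper46K9.CL.M1

set_option autoImplicit false

/-!
# The limit of the characteristic functions over a box
-/

namespace Pool.Agent.Helper46K9.CL

open MeasureTheory Filter Topology
open Pool.Agent.H305R2 (ff NN LL gg measurable_ff measurable_gg ff_nonneg ff_le_one LL_cont LL_nonneg
  LL_le_one abs_gg_le_one measurable_NN)

lemma A_insert {P q : ℕ} (hq : q.Prime) (hPq : P ≤ q) :
    A P q = insert q (A P (q - 1)) ∧ q ∉ A P (q - 1) := by
  have h1 := hq.one_lt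
  constructor
  · ext p
    rw [Finset.mem_insert, mem_A, mem_A]
    constructor
    · rintro ⟨a1, a2, a3⟩
      rcases Nat.lt_or_ge p q with h | h
      · exact Or.inr ⟨by omega, a2, a3⟩
      · exact Or.inl (by omega)
    · rintro (h | ⟨a1, a2, a3⟩)
      · rw [h]
        exact ⟨le_rfl, hq, hPq⟩
      · exact ⟨by omega, a2, a3⟩
  · rw [mem_A]
    omega

lemma exp_lin {b : ℝ} (h0 : 0 ≤ b) (h1 : b ≤ 1) : |1 - b - Real.exp (-b)| ≤ b ^ 2 := by
  have h := Real.abs_exp_sub_one_sub_id_le (x := -b) (by rw [abs_neg, abs_of_nonneg h0]; exact h1)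
  rw [neg_sq] at h
  rw [show 1 - b - Real.exp (-b) = -(Real.exp (-b) - 1 - -b) by ring, abs_neg]
  exact h

/-- the telescoping argument in the abstract -/
lemma telescope {P : ℕ} {I : ℕ → ℂ} {V : ℝ} (hV : 0 ≤ V) {b E : ℕ → ℝ}
    (h0 : I 0 = (V : ℂ)) (hnot : ∀ q, ¬ ((q + 1).Prime ∧ P ≤ q + 1) → I (q + 1) = I q)
    (hstep : ∀ q, (q + 1).Prime → P ≤ q + 1 → ‖I (q + 1) - (1 - (b (q + 1) : ℂ)) * I q‖ ≤ E (q + 1))
    (hb : ∀ q, 0 ≤ b q ∧ b q ≤ 1) (N : ℕ) :
    ‖I N - ((V * Real.exp (-∑ q ∈ A P N, b q) : ℝ) : ℂ)‖ ≤ ∑ q ∈ A P N, (E q + V * b q ^ 2) := by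
  induction N with
  | zero =>
    have hA : A P 0 = ∅ := by
      ext p
      rw [mem_A]
      constructor
      · rintro ⟨h1, h2, -⟩
        have := h2.one_lt
        omega
      · intro h
        simp at h
    rw [hA, h0]
    simp
  | succ q ih =>
    by_cases hq : (q + 1).Prime ∧ P ≤ q + 1
    · obtain ⟨hA, hn⟩ := A_insert hq.1 hq.2
      rw [Nat.add_sub_cancel] at hA hn
      rw [hA, Finset.sum_insert hn, Finset.sum_insert hn]
      set sb := ∑ x ∈ A P q, b x with hsb
      have hs0 : 0 ≤ sb := Finset.sum_nonneg fun x _ => (hb x).1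
      set β := b (q + 1) with hβ
      obtain ⟨b0, b1⟩ := hb (q + 1)
      have e : I (q + 1) - ((V * Real.exp (-(β + sb)) : ℝ) : ℂ) =
          (I (q + 1) - (1 - (β : ℂ)) * I q) +
          (1 - (β : ℂ)) * (I q - ((V * Real.exp (-sb) : ℝ) : ℂ)) +
          ((V * Real.exp (-sb) * (1 - β - Real.exp (-β)) : ℝ) : ℂ) := by
        have e1 : Real.exp (-(β + sb)) = Real.exp (-sb) * Real.exp (-β) := by
          rw [← Real.exp_add]
          congr 1
          ring
        rw [e1]
        push_cast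
        ring
      rw [e]
      refine (norm_add_le _ _).trans ?_
      have n1 := norm_add_le (I (q + 1) - (1 - (β : ℂ)) * I q)
        ((1 - (β : ℂ)) * (I q - ((V * Real.exp (-sb) : ℝ) : ℂ)))
      have n2 : ‖(1 - (β : ℂ)) * (I q - ((V * Real.exp (-sb) : ℝ) : ℂ))‖ ≤
          ∑ x ∈ A P q, (E x + V * b x ^ 2) := by
        rw [norm_mul]
        have h1 : ‖(1 - (β : ℂ))‖ ≤ 1 := by
          rw [show (1 - (β : ℂ)) = ((1 - β : ℝ) : ℂ) by push_cast; ring, Complex.norm_real,
            Real.norm_eq_abs, abs_le]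
          constructor <;> linarith
        exact (mul_le_of_le_one_left (norm_nonneg _) h1).trans ih
      have n3 : ‖((V * Real.exp (-sb) * (1 - β - Real.exp (-β)) : ℝ) : ℂ)‖ ≤ V * β ^ 2 := by
        rw [Complex.norm_real, Real.norm_eq_abs, abs_mul, abs_mul, abs_of_nonneg hV,
          abs_of_pos (Real.exp_pos _)]
        have h1 : Real.exp (-sb) ≤ 1 := Real.exp_le_one_iff.2 (by linarith)
        have h2 := exp_lin b0 b1
        calc V * Real.exp (-sb) * |1 - β - Real.exp (-β)| ≤ V * 1 * β ^ 2 :=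
              mul_le_mul (mul_le_mul_of_nonneg_left h1 hV) h2 (abs_nonneg _) (by positivity)
          _ = _ := by ring
      have n4 := hstep q hq.1 hq.2
      linarith
    · have hA : A P (q + 1) = A P q := by
        have := A_not hq
        rwa [Nat.add_sub_cancel] at this
      rw [hA, hnot q hq]
      exact ih

lemma sum_w_div : ∃ C : ℝ, 0 ≤ C ∧ ∀ P N : ℕ, ∑ q ∈ A P N, w q / q ≤ C := by
  have hs : Summable fun n : ℕ => 2 * (n : ℝ) ^ (-(3 / 2) : ℝ) :=
    (Real.summable_nat_rpow.2 (by norm_num)).mul_left 2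
  refine ⟨∑' n : ℕ, 2 * (n : ℝ) ^ (-(3 / 2) : ℝ), tsum_nonneg fun n => by positivity, fun P N => ?_⟩
  refine (Finset.sum_le_sum fun q hq => ?_).trans (hs.sum_le_tsum (A P N) fun n _ => by positivity)
  have hq1 : 1 ≤ q := (mem_A.1 hq).2.1.one_lt.le
  have hq0 : (0 : ℝ) < q := by exact_mod_cast hq1
  have h9 : Real.log (Real.sqrt q) ≤ Real.sqrt q - 1 :=
    Real.log_le_sub_one_of_pos (Real.sqrt_pos.2 hq0)
  rw [Real.log_sqrt hq0.le] at h9
  have h10 : Real.log q ≤ 2 * Real.sqrt q := by linarith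
  have e : 2 * (q : ℝ) ^ (-(3 / 2) : ℝ) = 2 * Real.sqrt q / q / q := by
    rw [Real.sqrt_eq_rpow, show (-(3 / 2) : ℝ) = 1 / 2 - 1 - 1 by norm_num, Real.rpow_sub_one hq0.ne',
      Real.rpow_sub_one hq0.ne']
    ring
  rw [e]
  unfold w
  exact div_le_div_of_nonneg_right (div_le_div_of_nonneg_right h10 hq0.le) hq0.le

lemma sum_inv : ∃ C : ℝ, 0 ≤ C ∧ ∀ P N : ℕ, 3 ≤ N → ∑ q ∈ A P N, (1 : ℝ) / q ≤ Real.log (Real.log N) + C := by
  obtain ⟨C, hC⟩ := Pool.Agent.Helper601.Mertens.mertens_inv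
  have hC0 : 0 ≤ C := (abs_nonneg _).trans (hC 3 le_rfl)
  refine ⟨C, hC0, fun P N hN => ?_⟩
  have h1 := (abs_le.1 (hC N hN)).2
  have h2 : ∑ q ∈ A P N, (1 : ℝ) / q ≤ ∑ q ∈ (Finset.Icc 1 N).filter Nat.Prime, (1 : ℝ) / q := by
    refine Finset.sum_le_sum_of_subset_of_nonneg ?_ fun q _ _ => by positivity
    intro q hq
    unfold A at hq
    rw [Finset.mem_filter] at hq ⊢
    exact ⟨hq.1, hq.2.1⟩
  linarith

/-- the scale -/
noncomputable def sc (t : ℝ) (N : ℕ) : ℝ :=
  t * Real.exp (-(Real.eulerMascheroniConstant / 2)) / Real.sqrt (Real.log N)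

lemma sc_sq {t : ℝ} {N : ℕ} (hN : 0 < Real.log N) :
    sc t N ^ 2 * Real.exp Real.eulerMascheroniConstant = t ^ 2 / Real.log N := by
  unfold sc
  rw [div_pow, mul_pow, Real.sq_sqrt hN.le, ← Real.exp_nat_mul, div_mul_eq_mul_div, mul_assoc,
    ← Real.exp_add]
  push_cast
  rw [show 2 * -(Real.eulerMascheroniConstant / 2) + Real.eulerMascheroniConstant = 0 by ring,
    Real.exp_zero, mul_one]

lemma sc_abs {t : ℝ} {N : ℕ} : |sc t N| = |t| * Real.exp (-(Real.eulerMascheroniConstant / 2)) *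
    (1 / Real.sqrt (Real.log N)) := by
  unfold sc
  rw [abs_div, abs_mul, abs_of_pos (Real.exp_pos _), abs_of_nonneg (Real.sqrt_nonneg _)]
  ring

lemma sum_w_sq (P N : ℕ) : ∑ q ∈ A P N, w q ^ 2 ≤ ∑ q ∈ A P N, w q := by
  refine Finset.sum_le_sum fun q _ => ?_
  have h1 := w_nonneg q
  have h2 := w_le_one q
  nlinarith

/-- the error bound tends to zero -/
lemma err_tendsto (K c C1 C2 C3 K2 V t : ℝ) : Tendsto (fun T : ℝ =>
    K * (c * (1 / Real.sqrt T) * C1 + c ^ 2 * (1 / T) * (Real.log T + C2) +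
      c ^ 3 * (1 / Real.sqrt T) ^ 3 * (K2 * (T * (Real.log T) ^ 2))) +
      V * ((t ^ 2 / T / 2) ^ 2 * (T + C3))) atTop (𝓝 0) := by
  have hs : Tendsto (fun T : ℝ => 1 / Real.sqrt T) atTop (𝓝 0) := by
    have := Real.tendsto_sqrt_atTop.inv_tendsto_atTop
    refine this.congr fun T => ?_
    simp [one_div]
  have h1 : Tendsto (fun T : ℝ => 1 / T) atTop (𝓝 0) := by
    refine tendsto_inv_atTop_zero.congr fun T => ?_
    simp [one_div]
  have h2 : Tendsto (fun T : ℝ => Real.log T / T) atTop (𝓝 0) := by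
    have := Real.tendsto_pow_log_div_mul_add_atTop 1 0 1 one_ne_zero
    simpa using this
  have h3 : Tendsto (fun T : ℝ => (Real.log T) ^ 2 / Real.sqrt T) atTop (𝓝 0) := by
    have h4 := (Real.tendsto_pow_log_div_mul_add_atTop 1 0 2 one_ne_zero).comp Real.tendsto_sqrt_atTop
    have h5 := h4.const_mul 4
    rw [mul_zero] at h5
    refine h5.congr' ?_
    filter_upwards [eventually_ge_atTop 0] with T hT
    simp only [Function.comp, one_mul, add_zero]
    rw [Real.log_sqrt hT]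
    ring
  have a1 : Tendsto (fun T : ℝ => c * (1 / Real.sqrt T) * C1) atTop (𝓝 0) := by
    simpa using (hs.const_mul c).mul_const C1
  have a2 : Tendsto (fun T : ℝ => c ^ 2 * (Real.log T / T + C2 * (1 / T))) atTop (𝓝 0) := by
    simpa using ((h2.add (h1.const_mul C2)).const_mul (c ^ 2))
  have a3 : Tendsto (fun T : ℝ => c ^ 3 * K2 * ((Real.log T) ^ 2 / Real.sqrt T)) atTop (𝓝 0) := by
    simpa using h3.const_mul (c ^ 3 * K2)
  have a4 : Tendsto (fun T : ℝ => t ^ 4 / 4 * (1 / T + C3 * (1 / T * (1 / T)))) atTop (𝓝 0) := by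
    simpa using ((h1.add ((h1.mul h1).const_mul C3)).const_mul (t ^ 4 / 4))
  have a5 := (((a1.add a2).add a3).const_mul K).add (a4.const_mul V)
  simp only [add_zero, mul_zero] at a5
  refine a5.congr' ?_
  filter_upwards [eventually_gt_atTop 0] with T hT
  have hr : 0 < Real.sqrt T := Real.sqrt_pos.2 hT
  have hrr : Real.sqrt T ^ 2 = T := Real.sq_sqrt hT.le
  have e1 : c ^ 2 * (Real.log T / T + C2 * (1 / T)) = c ^ 2 * (1 / T) * (Real.log T + C2) := by ring
  have e2 : c ^ 3 * K2 * ((Real.log T) ^ 2 / Real.sqrt T) =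
      c ^ 3 * (1 / Real.sqrt T) ^ 3 * (K2 * (T * (Real.log T) ^ 2)) := by
    have e3 : (1 / Real.sqrt T) ^ 3 * T = 1 / Real.sqrt T := by
      conv_lhs => rw [← hrr]
      rw [Real.sqrt_sq hr.le]
      field_simp
    calc c ^ 3 * K2 * ((Real.log T) ^ 2 / Real.sqrt T) =
        c ^ 3 * K2 * (Real.log T) ^ 2 * (1 / Real.sqrt T) := by ring
      _ = c ^ 3 * K2 * (Real.log T) ^ 2 * ((1 / Real.sqrt T) ^ 3 * T) := by rw [e3]
      _ = _ := by ring
  have e4 : t ^ 4 / 4 * (1 / T + C3 * (1 / T * (1 / T))) = (t ^ 2 / T / 2) ^ 2 * (T + C3) := by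
    field_simp
    ring
  rw [e1, e2, e4]

/-- the limit of the characteristic functions of the centred sums over a box -/
theorem box_limit {x0 x1 y0 y1 : ℝ} (hx0 : 0 < x0) (hx : x0 ≤ x1) (hy : y0 ≤ y1) (t : ℝ) :
    ∃ P0 : ℕ, ∀ P ≥ P0, Tendsto (fun N : ℕ => ∫ z in Bx x0 x1 y0 y1, Ph (sc t N) (A P N) z) atTop
      (𝓝 (((volume (Bx x0 x1 y0 y1)).toReal * Real.exp (-(t ^ 2 / 2)) : ℝ) : ℂ)) := by
  set c := |t| * Real.exp (-(Real.eulerMascheroniConstant / 2)) with hc
  have hc0 : 0 ≤ c := by positivity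
  obtain ⟨κ, K1, hκ, hK1, P1, hP13, h1⟩ := one_step (y0 := y0) (y1 := y1) hx0 hx hy hc0
  obtain ⟨K2, hK2, P2, hP23, h2⟩ := near_moment (y0 := y0) (y1 := y1) hx0 hx hy hκ
  obtain ⟨Ca, hCa, ha⟩ := sum_w_div
  obtain ⟨Cb, hCb, hb⟩ := sum_inv
  obtain ⟨Cc, hCc, hcc⟩ := sum_w_le
  obtain ⟨Cd, hCd, hd⟩ := sum_w
  set B := Bx x0 x1 y0 y1 with hB
  set V := (volume B).toReal with hV
  have hV0 : 0 ≤ V := ENNReal.toReal_nonneg
  refine ⟨max P1 P2, fun P hP => ?_⟩
  have hPP1 : P1 ≤ P := (le_max_left _ _).trans hP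
  have hPP2 : P2 ≤ P := (le_max_right _ _).trans hP
  -- the main bound
  have hmain : ∀ᶠ N : ℕ in atTop, ‖(∫ z in B, Ph (sc t N) (A P N) z) -
      ((V * Real.exp (-∑ q ∈ A P N, t ^ 2 / Real.log N * w q / 2) : ℝ) : ℂ)‖ ≤
      K1 * (c * (1 / Real.sqrt (Real.log N)) * Ca + c ^ 2 * (1 / Real.log N) *
        (Real.log (Real.log N) + Cb) + c ^ 3 * (1 / Real.sqrt (Real.log N)) ^ 3 *
          (K2 * (Real.log N * (Real.log (Real.log N)) ^ 2))) +
      V * ((t ^ 2 / Real.log N / 2) ^ 2 * (Real.log N + Cc)) := by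
    filter_upwards [lnt'.eventually_ge_atTop 1, lnt'.eventually_ge_atTop (t ^ 2),
      eventually_ge_atTop P, eventually_ge_atTop 3] with N l1 l2 hN hN3
    have hl0 : 0 < Real.log N := by linarith
    set s := sc t N with hs
    have hsc := sc_sq (t := t) hl0
    rw [← hs] at hsc
    have hr0 : 0 < Real.sqrt (Real.log N) := Real.sqrt_pos.2 hl0
    have hr1 : 1 ≤ Real.sqrt (Real.log N) := Real.one_le_sqrt.2 l1
    have hsabs : |s| = c * (1 / Real.sqrt (Real.log N)) := sc_abs
    have hsc' : |s| ≤ c := by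
      rw [hsabs]
      refine mul_le_of_le_one_right hc0 ?_
      rw [div_le_one hr0]
      exact hr1
    set b : ℕ → ℝ := fun q => t ^ 2 / Real.log N * w q / 2 with hbdef
    set Aq : ℕ → ℝ := fun q => ∫ z in B, |gg q (q * z.1 + z.2)| * (1 + (G (NS κ P q) z.1 z.2) ^ 2)
      with hAq
    set E : ℕ → ℝ := fun q => K1 * (|s| * (w q / q) + s ^ 2 * (1 / q) + |s| ^ 3 * Aq q) with hE
    have htl : t ^ 2 / Real.log N ≤ 1 := by rw [div_le_one hl0]; exact l2
    have htl0 : 0 ≤ t ^ 2 / Real.log N := by positivity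
    have hb01 : ∀ q, 0 ≤ b q ∧ b q ≤ 1 := by
      intro q
      have w0 := w_nonneg q
      have w1 := w_le_one q
      constructor
      · simp only [hbdef]
        positivity
      · have : t ^ 2 / Real.log N * w q ≤ 1 * 1 := mul_le_mul htl w1 w0 zero_le_one
        simp only [hbdef]
        linarith
    have htel := telescope (P := P) (I := fun q => ∫ z in B, Ph s (A P q) z) hV0 (b := b) (E := E)
      (by
        have hA : A P 0 = ∅ := by
          ext p
          rw [mem_A]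
          constructor
          · rintro ⟨h1, h2, -⟩
            have := h2.one_lt
            omega
          · intro h
            simp at h
        have e : ∀ z, Ph s (A P 0) z = 1 := by
          intro z
          unfold Ph G
          rw [hA]
          simp
        simp only [e]
        rw [setIntegral_const]
        have h4 : volume.real B = V := rfl
        rw [h4]
        simp)
      (by
        intro q hq
        have := A_not hq
        rw [Nat.add_sub_cancel] at this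
        simp only [this])
      (by
        intro q hq1 hq2
        have h3 := h1 P hPP1 (q + 1) hq2 hq1 s hsc'
        rw [Nat.add_sub_cancel, hsc] at h3
        have e : (1 - ((t ^ 2 / Real.log N * w (q + 1) : ℝ) : ℂ) / 2) = (1 - (b (q + 1) : ℂ)) := by
          simp only [hbdef]
          push_cast
          ring
        rw [e] at h3
        exact h3)
      hb01 N
    refine htel.trans ?_
    rw [Finset.sum_add_distrib]
    refine add_le_add ?_ ?_
    · simp only [hE]
      rw [← Finset.mul_sum, Finset.sum_add_distrib, Finset.sum_add_distrib, ← Finset.mul_sum,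
        ← Finset.mul_sum, ← Finset.mul_sum]
      refine mul_le_mul_of_nonneg_left ?_ hK1
      have k1 := mul_le_mul_of_nonneg_left (ha P N) (abs_nonneg s)
      have k2 := mul_le_mul_of_nonneg_left (hb P N hN3) (sq_nonneg s)
      have k3 := mul_le_mul_of_nonneg_left (h2 P hPP2 N (hPP2.trans hN)) (show 0 ≤ |s| ^ 3 by positivity)
      have e2 : s ^ 2 = c ^ 2 * (1 / Real.log N) := by
        rw [← sq_abs, hsabs, mul_pow, div_pow, one_pow, Real.sq_sqrt hl0.le]
      rw [e2] at k2 ⊢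
      rw [hsabs] at k1 k3 ⊢
      rw [mul_pow] at k3 ⊢
      linarith
    · rw [← Finset.mul_sum]
      refine mul_le_mul_of_nonneg_left ?_ hV0
      have e2 : ∀ q ∈ A P N, b q ^ 2 = (t ^ 2 / Real.log N / 2) ^ 2 * w q ^ 2 := fun q _ => by
        simp only [hbdef]
        ring
      rw [Finset.sum_congr rfl e2, ← Finset.mul_sum]
      exact mul_le_mul_of_nonneg_left ((sum_w_sq P N).trans (hcc P N (by omega))) (by positivity)
  have hlim1 : Tendsto (fun N : ℕ => (∫ z in B, Ph (sc t N) (A P N) z) -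
      ((V * Real.exp (-∑ q ∈ A P N, t ^ 2 / Real.log N * w q / 2) : ℝ) : ℂ)) atTop (𝓝 0) :=
    squeeze_zero_norm' hmain ((err_tendsto K1 c Ca Cb Cc K2 V t).comp lnt')
  have hlim2 : Tendsto (fun N : ℕ => ∑ q ∈ A P N, t ^ 2 / Real.log N * w q / 2) atTop
      (𝓝 (t ^ 2 / 2)) := by
    have h3 : Tendsto (fun N : ℕ => t ^ 2 / 2 * ((Cd + P) * (1 / Real.log N))) atTop (𝓝 0) := by
      have h4 : Tendsto (fun T : ℝ => 1 / T) atTop (𝓝 0) := by
        refine tendsto_inv_atTop_zero.congr fun T => ?_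
        simp [one_div]
      have h5 := ((h4.comp lnt').const_mul (Cd + P)).const_mul (t ^ 2 / 2)
      simpa using h5
    have h6 : Tendsto (fun N : ℕ => (∑ q ∈ A P N, t ^ 2 / Real.log N * w q / 2) - t ^ 2 / 2) atTop
        (𝓝 0) := by
      refine squeeze_zero_norm' ?_ h3
      filter_upwards [lnt'.eventually_ge_atTop 1, eventually_ge_atTop 1] with N l1 hN1
      have hl0 : 0 < Real.log N := by linarith
      have e : (∑ q ∈ A P N, t ^ 2 / Real.log N * w q / 2) - t ^ 2 / 2 =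
          t ^ 2 / 2 * ((∑ q ∈ A P N, w q - Real.log N) * (1 / Real.log N)) := by
        have e1 : ∀ q ∈ A P N, t ^ 2 / Real.log N * w q / 2 = t ^ 2 / 2 * (1 / Real.log N) * w q :=
          fun q _ => by ring
        rw [Finset.sum_congr rfl e1, ← Finset.mul_sum]
        field_simp
      rw [e, Real.norm_eq_abs, abs_mul, abs_mul, abs_of_nonneg (show 0 ≤ t ^ 2 / 2 by positivity),
        abs_of_nonneg (show 0 ≤ 1 / Real.log N by positivity)]
      refine mul_le_mul_of_nonneg_left ?_ (by positivity)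
      exact mul_le_mul_of_nonneg_right (hd P N hN1) (by positivity)
    have h7 := h6.add_const (t ^ 2 / 2)
    rw [zero_add] at h7
    refine h7.congr fun N => ?_
    exact sub_add_cancel _ _
  have hlim3 : Tendsto (fun N : ℕ => ((V * Real.exp (-∑ q ∈ A P N, t ^ 2 / Real.log N * w q / 2) : ℝ) :
      ℂ)) atTop (𝓝 ((V * Real.exp (-(t ^ 2 / 2)) : ℝ) : ℂ)) := by
    refine (Complex.continuous_ofReal.tendsto _).comp ?_
    exact ((Real.continuous_exp.tendsto _).comp hlim2.neg).const_mul V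
  have := hlim1.add hlim3
  simpa using this

end Pool.Agent.Helper46K9.CL
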