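import Mathlib
import Pool.Agent.Helper46K9.CL.Q

set_option autoImplicit false

/-!
# The characteristic function of the number of exponents over a box
-/

namespace Pool.Agent.Helper46K9.CL

open MeasureTheory Filter Topology
open Pool.Agent.H305R2 (ff NN LL gg measurable_ff measurable_gg ff_nonneg ff_le_one LL_cont LL_nonneg
  LL_le_one abs_gg_le_one measurable_NN)

/-- the number of exponents up to `n` -/
noncomputable def Mc (n : ℕ) (z : ℝ × ℝ) : ℝ :=
  ∑ p ∈ (Finset.Icc 1 n).filter Nat.Prime, ff p (p * z.1 + z.2)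

/-- the density constant -/
noncomputable def kap (x : ℝ) : ℝ := Real.exp Real.eulerMascheroniConstant / x

/-- the normalised number of exponents -/
noncomputable def Xn (n : ℕ) (z : ℝ × ℝ) : ℝ :=
  (Mc n z - kap z.1 * Real.log n) / Real.sqrt (kap z.1 * Real.log n)

lemma m_Mc (n : ℕ) : Measurable (Mc n) := by
  unfold Mc
  exact Finset.measurable_sum _ fun p _ => m_ff p

lemma m_kap : Measurable kap := by
  unfold kap
  exact measurable_const.div measurable_id

lemma m_Xn (n : ℕ) : Measurable (Xn n) := by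
  have h : Measurable fun z : ℝ × ℝ => kap z.1 * Real.log n :=
    (m_kap.comp measurable_fst).mul_const _
  exact ((m_Mc n).sub h).div (Real.continuous_sqrt.measurable.comp h)

lemma exp_diff (a b : ℝ) : ‖Complex.exp ((a : ℂ) * Complex.I) - Complex.exp ((b : ℂ) * Complex.I)‖ ≤
    |a - b| := by
  have h := e1b (a - b)
  have e : Complex.exp ((a : ℂ) * Complex.I) - Complex.exp ((b : ℂ) * Complex.I) =
      Complex.exp ((b : ℂ) * Complex.I) * (Complex.exp (((a - b : ℝ) : ℂ) * Complex.I) - 1) := by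
    rw [mul_sub, mul_one, ← Complex.exp_add]
    congr 2
    push_cast
    ring
  rw [e, norm_mul, norm_eI, one_mul]
  exact h

lemma t_Xn {t : ℝ} {n : ℕ} {z : ℝ × ℝ} (hz : 0 < z.1) (hn : 0 < Real.log n) :
    t * Xn n z = sc t n * Real.sqrt z.1 * (Mc n z - kap z.1 * Real.log n) := by
  have h1 : Real.sqrt (kap z.1 * Real.log n) = Real.exp (Real.eulerMascheroniConstant / 2) /
      Real.sqrt z.1 * Real.sqrt (Real.log n) := by
    unfold kap
    rw [Real.sqrt_mul (by positivity), Real.sqrt_div (Real.exp_pos _).le]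
    congr 2
    rw [show Real.exp Real.eulerMascheroniConstant = Real.exp (Real.eulerMascheroniConstant / 2) *
      Real.exp (Real.eulerMascheroniConstant / 2) by rw [← Real.exp_add]; congr 1; ring]
    exact Real.sqrt_mul_self (Real.exp_pos _).le
  have h2 : Real.exp (-(Real.eulerMascheroniConstant / 2)) =
      (Real.exp (Real.eulerMascheroniConstant / 2))⁻¹ := Real.exp_neg _
  have h3 : 0 < Real.sqrt z.1 := Real.sqrt_pos.2 hz
  have h4 : 0 < Real.sqrt (Real.log n) := Real.sqrt_pos.2 hn
  have h5 := Real.exp_pos (Real.eulerMascheroniConstant / 2)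
  unfold Xn sc
  rw [h1, h2]
  field_simp

theorem box_char {x0 x1 y0 y1 : ℝ} (hx0 : 0 < x0) (hx : x0 ≤ x1) (hy : y0 ≤ y1) (t : ℝ) :
    Tendsto (fun n : ℕ => ∫ z in Bx x0 x1 y0 y1, Complex.exp (((t * Xn n z : ℝ) : ℂ) * Complex.I)) atTop
      (𝓝 (((volume (Bx x0 x1 y0 y1)).toReal * Real.exp (-(t ^ 2 / 2)) : ℝ) : ℂ)) := by
  obtain ⟨P0, hP0⟩ := box_limit (y0 := y0) (y1 := y1) hx0 hx hy t
  obtain ⟨K3, hK3, hrate⟩ := Pool.Agent.TH888.R.LL_rate_t (a := x0) hx0 (max |y0| |y1|)
  obtain ⟨P3, hP3⟩ := eventually_atTop.1 hrate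
  obtain ⟨Cb, hCb, hb⟩ := sum_inv
  obtain ⟨Cd, hCd, hd⟩ := sum_w
  set P := max P0 P3 with hP
  have hlim := hP0 P (le_max_left _ _)
  set B := Bx x0 x1 y0 y1 with hB
  have hBm : MeasurableSet B := measurableSet_Bx _ _ _ _
  have hBf : volume B < ⊤ := volume_Bx_lt_top _ _ _ _
  set V := (volume B).toReal with hV
  have hV0 : 0 ≤ V := ENNReal.toReal_nonneg
  have hx1 : 0 < x1 := lt_of_lt_of_le hx0 hx
  set c := |t| * Real.exp (-(Real.eulerMascheroniConstant / 2)) with hc
  have hc0 : 0 ≤ c := by positivity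
  have hk0 : 0 < kap x0 := div_pos (Real.exp_pos _) hx0
  set R : ℝ → ℝ := fun T => c * (1 / Real.sqrt T) * Real.sqrt x1 *
    (P + K3 * (Real.log T + Cb) + kap x0 * (Cd + P)) with hR
  have hpt : ∀ᶠ n : ℕ in atTop, ∀ z ∈ B, ‖Complex.exp (((t * Xn n z : ℝ) : ℂ) * Complex.I) -
      Ph (sc t n) (A P n) z‖ ≤ R (Real.log n) := by
    filter_upwards [lnt'.eventually_ge_atTop 1, eventually_ge_atTop 3] with n l1 hn3 z hz
    obtain ⟨hzx, hzy⟩ := Set.mem_prod.1 hz
    have hl0 : 0 < Real.log n := by linarith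
    have hz0 : 0 < z.1 := lt_of_lt_of_le hx0 hzx.1
    rw [t_Xn hz0 hl0]
    unfold Ph
    refine (exp_diff _ _).trans ?_
    rw [← mul_sub, abs_mul, abs_mul, sc_abs, abs_of_nonneg (Real.sqrt_nonneg _)]
    simp only [hR]
    refine mul_le_mul (mul_le_mul_of_nonneg_left (Real.sqrt_le_sqrt hzx.2) (by positivity)) ?_
      (abs_nonneg _) (by positivity)
    -- the centring
    set F := ((Finset.Icc 1 n).filter Nat.Prime).filter (fun p => ¬ P ≤ p) with hF
    have e1 : Mc n z = ∑ p ∈ A P n, ff p (p * z.1 + z.2) + ∑ p ∈ F, ff p (p * z.1 + z.2) := by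
      unfold Mc
      rw [← Finset.sum_filter_add_sum_filter_not _ (fun p => P ≤ p)]
      congr 1
      unfold A
      rw [Finset.filter_filter]
    have e2 : G (A P n) z.1 z.2 = ∑ p ∈ A P n, ff p (p * z.1 + z.2) -
        ∑ p ∈ A P n, LL p (p * z.1 + z.2) := by
      simp only [G, gg, ← Finset.sum_sub_distrib]
    have h1 : |∑ p ∈ F, ff p (p * z.1 + z.2)| ≤ P := by
      rw [abs_of_nonneg (Finset.sum_nonneg fun p _ => ff_nonneg _ _)]
      calc ∑ p ∈ F, ff p (p * z.1 + z.2) ≤ ∑ _p ∈ Finset.range P, (1 : ℝ) := by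
            refine (Finset.sum_le_sum fun q _ => ff_le_one _ _).trans ?_
            refine Finset.sum_le_sum_of_subset_of_nonneg ?_ fun _ _ _ => zero_le_one
            intro q hq
            rw [hF, Finset.mem_filter] at hq
            rw [Finset.mem_range]
            omega
        _ = P := by simp
    have h2 : |∑ p ∈ A P n, LL p (p * z.1 + z.2) - ∑ p ∈ A P n, kap z.1 * w p| ≤
        K3 * (Real.log (Real.log n) + Cb) := by
      rw [← Finset.sum_sub_distrib]
      refine (Finset.abs_sum_le_sum_abs _ _).trans ?_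
      have h3 : ∑ p ∈ A P n, |LL p (p * z.1 + z.2) - kap z.1 * w p| ≤ ∑ p ∈ A P n, K3 * (1 / (p : ℝ)) := by
        refine Finset.sum_le_sum fun p hp => ?_
        have h4 := hP3 p ((le_max_right _ _).trans (mem_A.1 hp).2.2) z.1 hzx.1 (p * z.1 + z.2) (by
          rw [add_sub_cancel_left, abs_le]
          constructor
          · have := neg_abs_le y0
            have h7 := le_max_left |y0| |y1|
            linarith [hzy.1]
          · have := le_abs_self y1
            have h7 := le_max_right |y0| |y1|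
            linarith [hzy.2])
        refine h4.trans (le_of_eq ?_)
        ring
      refine h3.trans ?_
      rw [← Finset.mul_sum]
      exact mul_le_mul_of_nonneg_left (hb P n hn3) hK3.le
    have h5 : |∑ p ∈ A P n, kap z.1 * w p - kap z.1 * Real.log n| ≤ kap x0 * (Cd + P) := by
      rw [← Finset.mul_sum, ← mul_sub, abs_mul]
      have h6 : |kap z.1| ≤ kap x0 := by
        unfold kap
        rw [abs_of_pos (div_pos (Real.exp_pos _) hz0)]
        exact div_le_div_of_nonneg_left (Real.exp_pos _).le hx0 hzx.1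
      exact mul_le_mul h6 (hd P n (by omega)) (abs_nonneg _) hk0.le
    have e3 : Mc n z - kap z.1 * Real.log n - G (A P n) z.1 z.2 =
        ∑ p ∈ F, ff p (p * z.1 + z.2) +
        (∑ p ∈ A P n, LL p (p * z.1 + z.2) - ∑ p ∈ A P n, kap z.1 * w p) +
        (∑ p ∈ A P n, kap z.1 * w p - kap z.1 * Real.log n) := by
      rw [e1, e2]
      ring
    rw [e3]
    exact (abs_add_le _ _).trans (add_le_add ((abs_add_le _ _).trans (add_le_add h1 h2)) h5)
  have hRt : Tendsto (fun n : ℕ => V * R (Real.log n)) atTop (𝓝 0) := by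
    have h := (err_tendsto 0 0 0 0 0 0 0 0)
    have hs : Tendsto (fun T : ℝ => 1 / Real.sqrt T) atTop (𝓝 0) := by
      have := Real.tendsto_sqrt_atTop.inv_tendsto_atTop
      refine this.congr fun T => ?_
      simp [one_div]
    have h3 : Tendsto (fun T : ℝ => Real.log T / Real.sqrt T) atTop (𝓝 0) := by
      have h4 := (Real.tendsto_pow_log_div_mul_add_atTop 1 0 1 one_ne_zero).comp Real.tendsto_sqrt_atTop
      have h5 := h4.const_mul 2
      rw [mul_zero] at h5
      refine h5.congr' ?_
      filter_upwards [eventually_ge_atTop 0] with T hT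
      simp only [Function.comp, one_mul, add_zero, pow_one]
      rw [Real.log_sqrt hT]
      ring
    have h6 : Tendsto (fun T : ℝ => V * (c * Real.sqrt x1 * ((P + K3 * Cb + kap x0 * (Cd + P)) *
        (1 / Real.sqrt T) + K3 * (Real.log T / Real.sqrt T)))) atTop (𝓝 0) := by
      have := (((hs.const_mul (P + K3 * Cb + kap x0 * (Cd + P))).add (h3.const_mul K3)).const_mul
        (c * Real.sqrt x1)).const_mul V
      simpa using this
    refine (h6.comp lnt').congr fun n => ?_
    simp only [Function.comp, hR]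
    ring
  have hdiff : Tendsto (fun n : ℕ => (∫ z in B, Complex.exp (((t * Xn n z : ℝ) : ℂ) * Complex.I)) -
      ∫ z in B, Ph (sc t n) (A P n) z) atTop (𝓝 0) := by
    refine squeeze_zero_norm' ?_ hRt
    filter_upwards [hpt] with n hn
    have i1 : IntegrableOn (fun z => Complex.exp (((t * Xn n z : ℝ) : ℂ) * Complex.I)) B :=
      int_c hBm hBf (Complex.measurable_exp.comp ((Complex.measurable_ofReal.comp
        ((m_Xn n).const_mul t)).mul_const _)) (M := 1) fun z _ => (norm_eI _).le
    have i2 : IntegrableOn (Ph (sc t n) (A P n)) B :=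
      int_c hBm hBf (m_Ph _ _) (M := 1) fun z _ => (norm_Ph _ _ z).le
    rw [← integral_sub i1 i2]
    have h3 := norm_setIntegral_le_of_norm_le_const hBf (fun z hz => hn z hz)
    have h4 : volume.real B = V := rfl
    rw [h4] at h3
    linarith
  have := hdiff.add hlim
  simpa using this

end Pool.Agent.Helper46K9.CL
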