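import Mathlib

set_option autoImplicit false

/-!
# From boxes to absolutely continuous laws
-/

namespace Pool.Agent.Helper46K9.CL

open MeasureTheory Filter Topology Set

lemma tendsto_of_approx {f : ℕ → ℂ} (h : ∀ ε > 0, ∃ g : ℕ → ℂ, Tendsto g atTop (𝓝 0) ∧
    ∀ n, ‖f n - g n‖ ≤ ε) : Tendsto f atTop (𝓝 0) := by
  rw [Metric.tendsto_atTop]
  intro ε hε
  obtain ⟨g, hg, hfg⟩ := h (ε / 2) (by positivity)
  obtain ⟨N, hN⟩ := Metric.tendsto_atTop.1 hg (ε / 2) (by positivity)
  refine ⟨N, fun n hn => ?_⟩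
  have h1 := hN n hn
  rw [dist_zero_right] at h1 ⊢
  have h2 := norm_add_le (f n - g n) (g n)
  rw [sub_add_cancel] at h2
  linarith [hfg n]

lemma gen_Iic : (Prod.instMeasurableSpace : MeasurableSpace (ℝ × ℝ)) =
    MeasurableSpace.generateFrom (image2 (· ×ˢ ·) (range (Iic : ℝ → Set ℝ)) (range (Iic : ℝ → Set ℝ))) := by
  have h1 : MeasurableSpace.generateFrom (range (Iic : ℝ → Set ℝ)) = (inferInstance : MeasurableSpace ℝ) :=
    (borel_eq_generateFrom_Iic ℝ).symm.trans (BorelSpace.measurable_eq (α := ℝ)).symm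
  have h2 : IsCountablySpanning (range (Iic : ℝ → Set ℝ)) := by
    refine ⟨fun n : ℕ => Iic (n : ℝ), fun n => mem_range_self _, ?_⟩
    rw [eq_univ_iff_forall]
    intro x
    obtain ⟨n, hn⟩ := exists_nat_ge x
    exact mem_iUnion.2 ⟨n, hn⟩
  exact (generateFrom_eq_prod h1 h1 h2 h2).symm

lemma step_sets {k : ℕ → ℝ × ℝ → ℂ} (hkm : ∀ n, Measurable (k n)) {M : ℝ}
    (hkb : ∀ n z, ‖k n z‖ ≤ M)
    (hbox : ∀ x0 x1 y0 y1 : ℝ, 0 < x0 → x0 ≤ x1 → y0 ≤ y1 →
      Tendsto (fun n => ∫ z in Icc x0 x1 ×ˢ Icc y0 y1, k n z) atTop (𝓝 0))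
    {a b c d : ℝ} (ha : 0 < a) (hab : a ≤ b) (hcd : c ≤ d) (s : Set (ℝ × ℝ)) (hs : MeasurableSet s) :
    Tendsto (fun n => ∫ z in (Icc a b ×ˢ Icc c d) ∩ s, k n z) atTop (𝓝 0) := by
  set R : Set (ℝ × ℝ) := Icc a b ×ˢ Icc c d with hR
  have hRm : MeasurableSet R := measurableSet_Icc.prod measurableSet_Icc
  have hRf : volume R < ⊤ := by
    rw [hR, Measure.volume_eq_prod, Measure.prod_prod]
    exact ENNReal.mul_lt_top measure_Icc_lt_top measure_Icc_lt_top
  have hki : ∀ n, IntegrableOn (k n) R := fun n =>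
    Measure.integrableOn_of_bounded hRf.ne (hkm n).aestronglyMeasurable (M := M)
      (Eventually.of_forall fun z => hkb n z)
  refine MeasurableSpace.induction_on_inter
    (C := fun s _ => Tendsto (fun n => ∫ z in R ∩ s, k n z) atTop (𝓝 0)) gen_Iic
    (isPiSystem_Iic.prod isPiSystem_Iic) ?_ ?_ ?_ ?_ s hs
  · simp
  · rintro t ⟨_, ⟨u, rfl⟩, _, ⟨v, rfl⟩, rfl⟩
    have e : R ∩ (Iic u ×ˢ Iic v) = Icc a (min b u) ×ˢ Icc c (min d v) := by
      ext z
      rw [hR, mem_inter_iff, mem_prod, mem_prod, mem_prod, mem_Icc, mem_Icc, mem_Icc, mem_Icc, mem_Iic,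
        mem_Iic, le_min_iff, le_min_iff]
      tauto
    simp only [e]
    rcases le_or_gt a (min b u) with h1 | h1
    · rcases le_or_gt c (min d v) with h2 | h2
      · exact hbox _ _ _ _ ha h1 h2
      · rw [Icc_eq_empty (not_le.2 h2), prod_empty]
        simp
    · rw [Icc_eq_empty (not_le.2 h1), empty_prod]
      simp
  · intro t ht hC
    have h1 := (hbox a b c d ha hab hcd).sub hC
    rw [sub_zero] at h1
    refine h1.congr fun n => ?_
    have h2 := integral_inter_add_diff (s := R) ht (hki n)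
    rw [diff_eq] at h2
    rw [← hR, ← h2, add_sub_cancel_left]
  · intro f hd hfm hC
    have hfd : Pairwise (Function.onFun Disjoint fun i => R ∩ f i) := fun i j hij =>
      (hd hij).mono inter_subset_right inter_subset_right
    have e : ∀ n, ∫ z in R ∩ ⋃ i, f i, k n z = ∑' i, ∫ z in R ∩ f i, k n z := by
      intro n
      rw [inter_iUnion]
      refine integral_iUnion (fun i => hRm.inter (hfm i)) hfd ?_
      exact (hki n).mono_set (iUnion_subset fun i => inter_subset_left)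
    simp only [e]
    have hsum : Summable fun i => M * (volume (R ∩ f i)).toReal := by
      refine Summable.mul_left M (ENNReal.summable_toReal ?_)
      rw [← measure_iUnion hfd fun i => hRm.inter (hfm i)]
      exact ((measure_mono (iUnion_subset fun i => inter_subset_left)).trans_lt hRf).ne
    have h0 := tendsto_tsum_of_dominated_convergence (f := fun n i => ∫ z in R ∩ f i, k n z)
      (g := fun _ => (0 : ℂ)) (𝓕 := atTop) hsum hC (Eventually.of_forall fun n i => by
        have h3 := norm_setIntegral_le_of_norm_le_const (μ := volume) (s := R ∩ f i) (f := k n) (C := M)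
          ((measure_mono inter_subset_left).trans_lt hRf) (fun z _ => hkb n z)
        exact h3)
    rw [tsum_zero] at h0
    exact h0

/-- the right half plane -/
def HP : Set (ℝ × ℝ) := {z | 0 < z.1}

lemma measurableSet_HP : MeasurableSet HP := measurableSet_lt measurable_const measurable_fst

/-- exhaustion of the half plane -/
def RR (j : ℕ) : Set (ℝ × ℝ) := Icc (1 / ((j : ℝ) + 1)) (j + 1) ×ˢ Icc (-((j : ℝ) + 1)) (j + 1)

lemma measurableSet_RR (j : ℕ) : MeasurableSet (RR j) := measurableSet_Icc.prod measurableSet_Icc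

lemma RR_sub (j : ℕ) : RR j ⊆ HP := fun z hz => by
  have h1 := (mem_prod.1 hz).1.1
  have h2 : 0 < 1 / ((j : ℝ) + 1) := by positivity
  exact lt_of_lt_of_le h2 h1

lemma RR_mono : Monotone RR := by
  intro i j hij
  have h : (i : ℝ) ≤ j := by exact_mod_cast hij
  unfold RR
  refine prod_mono (Icc_subset_Icc ?_ (by linarith)) (Icc_subset_Icc (by linarith) (by linarith))
  exact one_div_le_one_div_of_le (by positivity) (by linarith)

lemma exists_RR {z : ℝ × ℝ} (hz : z ∈ HP) : ∃ j, z ∈ RR j := by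
  have h0 : 0 < z.1 := hz
  obtain ⟨n, hn⟩ := exists_nat_ge (max (1 / z.1) (max |z.1| |z.2|))
  have h1 := (le_max_left _ _).trans hn
  have h2 := ((le_max_left _ _).trans (le_max_right _ _)).trans hn
  have h3 := ((le_max_right _ _).trans (le_max_right _ _)).trans hn
  refine ⟨n, mem_prod.2 ⟨⟨?_, ?_⟩, ?_, ?_⟩⟩
  · rw [div_le_iff₀ h0] at h1
    rw [div_le_iff₀ (by positivity)]
    nlinarith
  · linarith [le_abs_self z.1]
  · linarith [neg_abs_le z.2]
  · linarith [le_abs_self z.2]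

lemma step_sets2 {k : ℕ → ℝ × ℝ → ℂ} (hkm : ∀ n, Measurable (k n)) {M : ℝ} (hM : 0 ≤ M)
    (hkb : ∀ n z, ‖k n z‖ ≤ M)
    (hbox : ∀ x0 x1 y0 y1 : ℝ, 0 < x0 → x0 ≤ x1 → y0 ≤ y1 →
      Tendsto (fun n => ∫ z in Icc x0 x1 ×ˢ Icc y0 y1, k n z) atTop (𝓝 0))
    {s : Set (ℝ × ℝ)} (hs : MeasurableSet s) (hsf : (volume.restrict HP) s < ⊤) :
    Tendsto (fun n => ∫ z in s, k n z ∂(volume.restrict HP)) atTop (𝓝 0) := by
  set ν : Measure (ℝ × ℝ) := volume.restrict HP with hν
  have hlim : Tendsto (fun j => ν (s \ RR j)) atTop (𝓝 0) := by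
    have h1 := tendsto_measure_iInter_atTop (μ := ν) (s := fun j => s \ RR j)
      (fun j => (hs.diff (measurableSet_RR j)).nullMeasurableSet)
      (fun i j hij => diff_subset_diff_right (RR_mono hij))
      ⟨0, ((measure_mono diff_subset).trans_lt hsf).ne⟩
    have h2 : ν (⋂ j, s \ RR j) = 0 := by
      refine measure_mono_null (t := HPᶜ) ?_ ?_
      · intro z hz hzp
        obtain ⟨j, hj⟩ := exists_RR hzp
        exact (mem_iInter.1 hz j).2 hj
      · rw [hν, Measure.restrict_apply measurableSet_HP.compl, compl_inter_self, measure_empty]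
    rwa [h2] at h1
  have hlim2 : Tendsto (fun j => M * (ν (s \ RR j)).toReal) atTop (𝓝 0) := by
    have h1 := (ENNReal.tendsto_toReal ENNReal.zero_ne_top).comp hlim
    rw [ENNReal.toReal_zero] at h1
    simpa using h1.const_mul M
  refine tendsto_of_approx fun ε hε => ?_
  obtain ⟨j, hj⟩ := (hlim2.eventually_lt_const hε).exists
  have hj1 : (0 : ℝ) < (j : ℝ) + 1 := by positivity
  refine ⟨fun n => ∫ z in RR j ∩ s, k n z, ?_, fun n => ?_⟩
  · refine step_sets hkm hkb hbox (a := 1 / ((j : ℝ) + 1)) (b := j + 1) (c := -((j : ℝ) + 1))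
      (d := j + 1) (by positivity) ?_ (by linarith) s hs
    rw [div_le_iff₀ hj1]
    nlinarith [(Nat.cast_nonneg j : (0 : ℝ) ≤ j)]
  · have hki : IntegrableOn (k n) s ν :=
      Measure.integrableOn_of_bounded hsf.ne (hkm n).aestronglyMeasurable (M := M)
        (Eventually.of_forall fun z => hkb n z)
    have h1 := integral_inter_add_diff (s := s) (measurableSet_RR j) hki
    have h2 : ∫ z in s ∩ RR j, k n z ∂ν = ∫ z in RR j ∩ s, k n z := by
      rw [hν, Measure.restrict_restrict (hs.inter (measurableSet_RR j))]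
      congr 2
      rw [inter_assoc, inter_eq_left.2 (RR_sub j), inter_comm]
    rw [← h1, h2, add_sub_cancel_left]
    have h3 := norm_setIntegral_le_of_norm_le_const (μ := ν) (s := s \ RR j) (f := k n) (C := M)
      ((measure_mono diff_subset).trans_lt hsf) (fun z _ => hkb n z)
    exact h3.trans hj.le

lemma step_fun {k : ℕ → ℝ × ℝ → ℂ} (hkm : ∀ n, Measurable (k n)) {M : ℝ} (hM : 0 ≤ M)
    (hkb : ∀ n z, ‖k n z‖ ≤ M)
    (hbox : ∀ x0 x1 y0 y1 : ℝ, 0 < x0 → x0 ≤ x1 → y0 ≤ y1 →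
      Tendsto (fun n => ∫ z in Icc x0 x1 ×ˢ Icc y0 y1, k n z) atTop (𝓝 0))
    {φ : ℝ × ℝ → ℝ} (hφ : Integrable φ (volume.restrict HP)) :
    Tendsto (fun n => ∫ z, φ z • k n z ∂(volume.restrict HP)) atTop (𝓝 0) := by
  set ν : Measure (ℝ × ℝ) := volume.restrict HP with hν
  have hint : ∀ ψ : ℝ × ℝ → ℝ, Integrable ψ ν → ∀ n, Integrable (fun z => ψ z • k n z) ν := by
    intro ψ hψ n
    refine Integrable.mono' (hψ.norm.mul_const M) (hψ.1.smul (hkm n).aestronglyMeasurable)
      (Eventually.of_forall fun z => ?_)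
    rw [norm_smul]
    exact mul_le_mul_of_nonneg_left (hkb n z) (norm_nonneg _)
  refine Integrable.induction (μ := ν) (P := fun ψ : ℝ × ℝ → ℝ =>
    Tendsto (fun n => ∫ z, ψ z • k n z ∂ν) atTop (𝓝 0)) ?_ ?_ ?_ ?_ hφ
  · intro c s hs hsf
    have h1 := (step_sets2 hkm hM hkb hbox hs hsf).const_smul c
    rw [smul_zero] at h1
    refine h1.congr fun n => ?_
    rw [← integral_smul, ← integral_indicator hs]
    refine integral_congr_ae (Eventually.of_forall fun z => ?_)
    by_cases hz : z ∈ s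
    · simp only [indicator_of_mem hz]
    · simp only [indicator_of_notMem hz, zero_smul]
  · intro f g _ hf hg h1 h2
    have h3 := h1.add h2
    rw [add_zero] at h3
    refine h3.congr fun n => ?_
    rw [← integral_add (hint f hf n) (hint g hg n)]
    refine integral_congr_ae (Eventually.of_forall fun z => ?_)
    simp only [Pi.add_apply, add_smul]
  · refine IsSeqClosed.isClosed fun u f hu hlim => ?_
    refine tendsto_of_approx fun ε hε => ?_
    have h1 : Tendsto (fun j => ‖u j - f‖ * M) atTop (𝓝 0) := by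
      have h2 := (tendsto_iff_norm_sub_tendsto_zero.1 hlim).mul_const M
      rwa [zero_mul] at h2
    obtain ⟨j, hj⟩ := (h1.eventually_lt_const hε).exists
    refine ⟨fun n => ∫ z, (u j) z • k n z ∂ν, hu j, fun n => ?_⟩
    rw [← integral_sub (hint _ (L1.integrable_coeFn f) n) (hint _ (L1.integrable_coeFn (u j)) n)]
    have h3 : ‖∫ z, (f z • k n z - (u j) z • k n z) ∂ν‖ ≤ ∫ z, ‖(u j - f) z‖ * M ∂ν := by
      refine norm_integral_le_of_norm_le ((L1.integrable_coeFn (u j - f)).norm.mul_const M) ?_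
      filter_upwards [Lp.coeFn_sub (u j) f] with z hz
      rw [hz, Pi.sub_apply, ← sub_smul, norm_smul, norm_sub_rev]
      exact mul_le_mul_of_nonneg_left (hkb n z) (norm_nonneg _)
    rw [integral_mul_const, ← L1.norm_eq_integral_norm] at h3
    exact h3.trans hj.le
  · intro f g hfg _ h1
    refine h1.congr fun n => ?_
    refine integral_congr_ae ?_
    filter_upwards [hfg] with z hz
    rw [hz]

/-- from boxes to absolutely continuous laws -/
theorem mixing_ext {h : ℕ → ℝ × ℝ → ℂ} (hm : ∀ n, Measurable (h n)) (hb : ∀ n z, ‖h n z‖ ≤ 1) (c : ℂ)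
    (hbox : ∀ x0 x1 y0 y1 : ℝ, 0 < x0 → x0 ≤ x1 → y0 ≤ y1 →
      Tendsto (fun n => ∫ z in Icc x0 x1 ×ˢ Icc y0 y1, h n z) atTop
        (𝓝 (((volume (Icc x0 x1 ×ˢ Icc y0 y1)).toReal : ℂ) * c)))
    (μ : Measure (ℝ × ℝ)) [IsProbabilityMeasure μ] (hμ : μ ≪ volume) (hμ0 : μ {z | z.1 ≤ 0} = 0) :
    Tendsto (fun n => ∫ z, h n z ∂μ) atTop (𝓝 c) := by
  set k : ℕ → ℝ × ℝ → ℂ := fun n z => h n z - c with hk
  have hkm : ∀ n, Measurable (k n) := fun n => (hm n).sub measurable_const
  have hkb : ∀ n z, ‖k n z‖ ≤ 1 + ‖c‖ := fun n z => (norm_sub_le _ _).trans (add_le_add (hb n z) le_rfl)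
  have hkbox : ∀ x0 x1 y0 y1 : ℝ, 0 < x0 → x0 ≤ x1 → y0 ≤ y1 →
      Tendsto (fun n => ∫ z in Icc x0 x1 ×ˢ Icc y0 y1, k n z) atTop (𝓝 0) := by
    intro x0 x1 y0 y1 h1 h2 h3
    have h4 := (hbox x0 x1 y0 y1 h1 h2 h3).sub_const (((volume (Icc x0 x1 ×ˢ Icc y0 y1)).toReal : ℂ) * c)
    rw [sub_self] at h4
    refine h4.congr fun n => ?_
    have hf : volume (Icc x0 x1 ×ˢ Icc y0 y1) < ⊤ := by
      rw [Measure.volume_eq_prod, Measure.prod_prod]
      exact ENNReal.mul_lt_top measure_Icc_lt_top measure_Icc_lt_top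
    simp only [hk]
    rw [integral_sub]
    · rw [setIntegral_const]
      congr 1
    · exact Measure.integrableOn_of_bounded hf.ne (hm n).aestronglyMeasurable (M := 1)
        (Eventually.of_forall fun z => hb n z)
    · exact integrableOn_const hf.ne
  set ν : Measure (ℝ × ℝ) := volume.restrict HP with hν
  have hμν : μ ≪ ν := by
    refine Measure.AbsolutelyContinuous.mk fun s hs hs0 => ?_
    rw [hν, Measure.restrict_apply hs] at hs0
    have h1 := hμ hs0
    refine measure_mono_null (t := (s ∩ HP) ∪ {z | z.1 ≤ 0}) ?_ (measure_union_null h1 hμ0)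
    intro z hz
    rcases lt_or_ge 0 z.1 with h2 | h2
    · exact Or.inl ⟨hz, h2⟩
    · exact Or.inr h2
  have h5 := step_fun hkm (by positivity) hkb hkbox (Measure.integrable_toReal_rnDeriv (μ := μ) (ν := ν))
  have h6 : Tendsto (fun n => ∫ z, k n z ∂μ) atTop (𝓝 0) := by
    refine h5.congr fun n => ?_
    exact integral_rnDeriv_smul hμν
  have h7 := h6.add_const c
  rw [zero_add] at h7
  refine h7.congr fun n => ?_
  simp only [hk]
  have hi : Integrable (h n) μ := Integrable.of_bound (hm n).aestronglyMeasurable 1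
    (Eventually.of_forall fun z => hb n z)
  rw [integral_sub hi (integrable_const c), integral_const, probReal_univ, one_smul, sub_add_cancel]

end Pool.Agent.Helper46K9.CL
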