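import Mathlib
import Pool.Agent.Helper46K9.CL.R
import Pool.Agent.Helper46K9.CL.S

set_option autoImplicit false

/-!
# The central limit theorem
-/

namespace Pool.Agent.Helper46K9.CL

open MeasureTheory Filter Topology ProbabilityTheory

theorem char_lim {μ : Measure (ℝ × ℝ)} [IsProbabilityMeasure μ] (hμ : μ ≪ volume)
    (hμ0 : μ {z | z.1 ≤ 0} = 0) (t : ℝ) :
    Tendsto (fun n : ℕ => ∫ z, Complex.exp (((t * Xn n z : ℝ) : ℂ) * Complex.I) ∂μ) atTop
      (𝓝 ((Real.exp (-(t ^ 2 / 2)) : ℝ) : ℂ)) := by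
  refine mixing_ext (h := fun n z => Complex.exp (((t * Xn n z : ℝ) : ℂ) * Complex.I))
    (fun n => Complex.measurable_exp.comp ((Complex.measurable_ofReal.comp
      ((m_Xn n).const_mul t)).mul_const _)) (fun n z => (norm_eI _).le) _ ?_ μ hμ hμ0
  intro x0 x1 y0 y1 h1 h2 h3
  have h := box_char h1 h2 h3 t
  rw [Complex.ofReal_mul] at h
  exact h

theorem clt {μ : Measure (ℝ × ℝ)} [IsProbabilityMeasure μ] (hμ : μ ≪ volume)
    (hμ0 : μ {z | z.1 ≤ 0} = 0) (a : ℝ) :
    Tendsto (fun n : ℕ => μ {z | Xn n z ≤ a}) atTop (𝓝 (gaussianReal 0 1 (Set.Iic a))) := by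
  have hprob : ∀ n, IsProbabilityMeasure (μ.map (Xn n)) := fun n =>
    Measure.isProbabilityMeasure_map (m_Xn n).aemeasurable
  set law : ℕ → ProbabilityMeasure ℝ := fun n => ⟨μ.map (Xn n), hprob n⟩ with hlaw
  set g : ProbabilityMeasure ℝ := ⟨gaussianReal 0 1, inferInstance⟩ with hg
  have h1 : Tendsto law atTop (𝓝 g) := by
    rw [ProbabilityMeasure.tendsto_iff_tendsto_charFun]
    intro t
    have h2 := char_lim hμ hμ0 t
    have e1 : charFun (g : Measure ℝ) t = ((Real.exp (-(t ^ 2 / 2)) : ℝ) : ℂ) := by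
      change charFun (gaussianReal 0 1) t = _
      rw [charFun_gaussianReal]
      push_cast
      congr 1
      simp
    rw [e1]
    refine h2.congr fun n => ?_
    change _ = charFun (μ.map (Xn n)) t
    rw [charFun_apply_real, integral_map (m_Xn n).aemeasurable]
    · refine integral_congr_ae (Filter.Eventually.of_forall fun z => ?_)
      simp only
      push_cast
      rfl
    · exact (Continuous.measurable (by fun_prop)).aestronglyMeasurable
  have h3 := ProbabilityMeasure.tendsto_measure_of_null_frontier_of_tendsto' h1 (E := Set.Iic a) (by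
    change gaussianReal 0 1 (frontier (Set.Iic a)) = 0
    rw [frontier_Iic]
    have : NullSingletonClass (gaussianReal 0 1) := nullSingletonClass_gaussianReal one_ne_zero
    exact measure_singleton a)
  refine h3.congr fun n => ?_
  change (μ.map (Xn n)) (Set.Iic a) = _
  rw [Measure.map_apply (m_Xn n) measurableSet_Iic]
  rfl

end Pool.Agent.Helper46K9.CL
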